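import Pool.Agent.P.MP_d2f293_al.Super

/-!
`Hom_S(P, E)` is pure-injective.
-/

set_option autoImplicit false

namespace Pool.Agent.P.MP_d2f293_al

open MulOpposite TensorProduct

variable {k A P : Type} [Field k] [Ring A] [Algebra k A] [AddCommGroup P] [Module k P]
  [Module Aᵐᵒᵖ P] [IsScalarTower k Aᵐᵒᵖ P]

/-- Contraction against a linear functional. -/
noncomputable def contr (N : Type) [AddCommGroup N] [Module k N] (l : P →ₗ[k] k) :
    P ⊗[k] N →ₗ[k] N := TensorProduct.lift ((LinearMap.lsmul k N) ∘ₗ l)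

@[simp] theorem contr_tmul {N : Type} [AddCommGroup N] [Module k N] (l : P →ₗ[k] k) (p : P) (n : N) :
    contr N l (p ⊗ₜ n) = l p • n := by simp [contr]

theorem contr_ext {N : Type} [AddCommGroup N] [Module k N] {ι : Type} (b : Module.Basis ι k P)
    (ξ : P ⊗[k] N) : (∃ s : Finset ι, ∀ i ∉ s, contr N (b.coord i) ξ = 0) ∧
      ((∀ i, contr N (b.coord i) ξ = 0) → ξ = 0) := by
  classical
  have key : ∀ i, contr N (b.coord i) ξ = TensorProduct.equivFinsuppOfBasisLeft b ξ i := by
    intro i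
    induction ξ using TensorProduct.induction_on with
    | zero => simp
    | tmul p n => simp
    | add x y hx hy => simp [hx, hy]
  refine ⟨⟨(TensorProduct.equivFinsuppOfBasisLeft b ξ).support, fun i hi => ?_⟩, fun h => ?_⟩
  · rw [key]
    simpa using hi
  · apply (TensorProduct.equivFinsuppOfBasisLeft b).injective
    ext i
    rw [← key, h]
    simp

theorem pure_transfer {N N' : Type} [AddCommGroup N] [Module k N] [Module A N]
    [IsScalarTower k A N] [AddCommGroup N'] [Module k N'] [Module A N'] [IsScalarTower k A N']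
    (f : N →ₗ[A] N')
    (hf : ∀ (p q : ℕ) (r : Matrix (Fin p) (Fin q) A) (b : Fin p → N),
      (∃ y : Fin q → N', ∀ i, ∑ j, r i j • y j = f (b i)) →
      ∃ x : Fin q → N, ∀ i, ∑ j, r i j • x j = b i)
    (ξ : P ⊗[k] N) (m : ℕ) (q : Fin m → P) (a : Fin m → A) (y : Fin m → N')
    (h : LinearMap.lTensor P (f.restrictScalars k) ξ =
      ∑ β, ((op (a β) • q β) ⊗ₜ y β - q β ⊗ₜ (a β • y β))) :
    ∃ x : Fin m → N, ξ = ∑ β, ((op (a β) • q β) ⊗ₜ x β - q β ⊗ₜ (a β • x β)) := by
  classical
  let b := Module.Basis.ofVectorSpace k P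
  obtain ⟨s0, hs0⟩ := (contr_ext b ξ).1
  let s := s0 ∪ Finset.univ.biUnion fun β => (b.repr (q β)).support ∪ (b.repr (op (a β) • q β)).support
  let e := s.equivFin.symm
  let r : _ → Fin m → A := fun i β =>
    algebraMap k A (b.coord i (op (a β) • q β)) - b.coord i (q β) • a β
  have hr : ∀ (N'' : Type) [AddCommGroup N''] [Module k N''] [Module A N'']
      [IsScalarTower k A N''] (x : Fin m → N'') i, contr N'' (b.coord i)
        (∑ β, ((op (a β) • q β) ⊗ₜ x β - q β ⊗ₜ (a β • x β))) = ∑ β, r i β • x β := by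
    intro N'' _ _ _ _ x i
    simp only [map_sum, map_sub, contr_tmul, r, sub_smul, algebraMap_smul, smul_assoc]
  have hnat : ∀ i, contr N' (b.coord i) (LinearMap.lTensor P (f.restrictScalars k) ξ) =
      f (contr N (b.coord i) ξ) := by
    intro i
    clear hs0 h
    induction ξ using TensorProduct.induction_on with
    | zero => simp
    | tmul p n => simp
    | add x y hx hy => simp only [map_add, hx, hy]
  obtain ⟨x, hx⟩ := hf s.card m (Matrix.of fun i β => r (e i) β) (fun i => contr N (b.coord (e i)) ξ)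
    ⟨y, fun i => by rw [← hnat, h, hr]; rfl⟩
  refine ⟨x, sub_eq_zero.mp ((contr_ext b _).2 fun i => ?_)⟩
  rw [map_sub, hr, sub_eq_zero]
  by_cases hi : i ∈ s
  · have := hx (e.symm ⟨i, hi⟩)
    simp only [Matrix.of_apply, Equiv.apply_symm_apply] at this
    exact this.symm
  · simp only [s, Finset.mem_union, Finset.mem_biUnion, Finset.mem_univ, true_and, not_or,
      not_exists, Finsupp.notMem_support_iff] at hi
    rw [hs0 i hi.1]
    refine (Finset.sum_eq_zero fun β _ => ?_).symm
    simp [r, (hi.2 β).1, (hi.2 β).2]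

theorem HM.extend {E : Type} [AddCommGroup E] [Module (Module.End Aᵐᵒᵖ P) E] [Module k E]
    [IsScalarTower k (Module.End Aᵐᵒᵖ P) E]
    (hE : Module.Injective (Module.End Aᵐᵒᵖ P) E)
    {N N' : Type} [AddCommGroup N] [Module k N] [Module A N]
    [IsScalarTower k A N] [AddCommGroup N'] [Module k N'] [Module A N'] [IsScalarTower k A N']
    (f : N →ₗ[A] N')
    (hf : ∀ (p q : ℕ) (r : Matrix (Fin p) (Fin q) A) (b : Fin p → N),
      (∃ y : Fin q → N', ∀ i, ∑ j, r i j • y j = f (b i)) →
      ∃ x : Fin q → N, ∀ i, ∑ j, r i j • x j = b i)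
    (g : N →ₗ[A] HM A P E) : ∃ h : N' →ₗ[A] HM A P E, h ∘ₗ f = g := by
  have hc : ∀ (c : k) (p : P), op (algebraMap k A c) • p = c • p := fun c p => by
    rw [← MulOpposite.algebraMap_apply, algebraMap_smul]
  have hc' : ∀ (c : k) (φ : P →ₗ[Module.End Aᵐᵒᵖ P] E) (p : P), φ (c • p) = c • φ p := by
    intro c φ p
    rw [← algebraMap_smul (Module.End Aᵐᵒᵖ P) c p, map_smul, algebraMap_smul]
  let γ0 : P →ₗ[Module.End Aᵐᵒᵖ P] N →ₗ[k] E :=
    { toFun := fun p =>
        { toFun := fun n => (g n).val p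
          map_add' := fun n n' => by simp
          map_smul' := fun c n => by
            rw [← algebraMap_smul A c n, map_smul, HM.val_smul, hc, hc']
            rfl }
      map_add' := fun p p' => by ext n; simp
      map_smul' := fun s p => by
        ext n
        exact (g n).val.map_smul s p }
  let γ : P ⊗[k] N →ₗ[Module.End Aᵐᵒᵖ P] E := AlgebraTensorModule.lift γ0
  have hγ : ∀ p n, γ (p ⊗ₜ n) = (g n).val p := fun p n => by simp [γ, γ0]
  let R : Submodule (Module.End Aᵐᵒᵖ P) (P ⊗[k] N') := Submodule.span _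
    {z | ∃ (q : P) (a : A) (y : N'), z = (op a • q) ⊗ₜ y - q ⊗ₜ (a • y)}
  let φ : P ⊗[k] N →ₗ[Module.End Aᵐᵒᵖ P] P ⊗[k] N' :=
    AlgebraTensorModule.map LinearMap.id (f.restrictScalars k)
  have hφ : ∀ ξ, φ ξ = LinearMap.lTensor P (f.restrictScalars k) ξ := fun ξ => rfl
  obtain ⟨H, hH⟩ := ext_of_ker_le hE (R.mkQ ∘ₗ φ) γ (by
    intro ξ hξ
    have hmem : φ ξ ∈ R := by simpa using hξ
    obtain ⟨m, s, z, hz⟩ := Submodule.mem_span_set'.mp hmem
    have hz' : ∀ i, ∃ (q : P) (a : A) (y : N'), (z i : P ⊗[k] N') = (op a • q) ⊗ₜ y - q ⊗ₜ (a • y) :=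
      fun i => (z i).2
    choose q a y hqay using hz'
    obtain ⟨x, hx⟩ := pure_transfer f hf ξ m (fun β => s β (q β)) a y (by
      rw [← hφ, ← hz]
      refine Finset.sum_congr rfl fun β _ => ?_
      rw [hqay, smul_sub, TensorProduct.smul_tmul', TensorProduct.smul_tmul', ← map_smul]
      rfl)
    rw [hx, map_sum]
    refine Finset.sum_eq_zero fun β _ => ?_
    rw [map_sub, hγ, hγ, g.map_smul, HM.val_smul, sub_self])
  refine ⟨{ toFun := fun n => HM.of (H ∘ₗ R.mkQ ∘ₗ
              { toFun := fun p => p ⊗ₜ n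
                map_add' := fun p p' => TensorProduct.add_tmul _ _ _
                map_smul' := fun s p => (TensorProduct.smul_tmul' _ _ _).symm })
            map_add' := fun n n' => HM.ext fun p => by simp [TensorProduct.tmul_add]
            map_smul' := fun a n => HM.ext fun p => ?_ }, ?_⟩
  · simp only [HM.val_of, LinearMap.comp_apply, LinearMap.coe_mk, AddHom.coe_mk, RingHom.id_apply,
      HM.val_smul]
    congr 1
    symm
    rw [Submodule.mkQ_apply, Submodule.mkQ_apply, Submodule.Quotient.eq]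
    exact Submodule.subset_span ⟨p, a, n, rfl⟩
  · ext n
    refine HM.ext fun p => ?_
    rw [← hγ, ← hH]
    rfl

theorem HM.pureInjective (k : Type) {A P : Type} [Field k] [Ring A] [Algebra k A] [AddCommGroup P]
    [Module k P] [Module Aᵐᵒᵖ P] [IsScalarTower k Aᵐᵒᵖ P]
    {E : Type} [AddCommGroup E] [Module (Module.End Aᵐᵒᵖ P) E]
    (hE : Module.Injective (Module.End Aᵐᵒᵖ P) E)
    (N N' : Type) [AddCommGroup N] [Module A N] [AddCommGroup N'] [Module A N']
    (f : N →ₗ[A] N')
    (hf : ∀ (p q : ℕ) (r : Matrix (Fin p) (Fin q) A) (b : Fin p → N),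
      (∃ y : Fin q → N', ∀ i, ∑ j, r i j • y j = f (b i)) →
      ∃ x : Fin q → N, ∀ i, ∑ j, r i j • x j = b i)
    (g : N →ₗ[A] HM A P E) : ∃ h : N' →ₗ[A] HM A P E, h ∘ₗ f = g := by
  let _ : Module k N := Module.compHom N (algebraMap k A)
  have _ : IsScalarTower k A N := IsScalarTower.of_algebraMap_smul fun _ _ => rfl
  let _ : Module k N' := Module.compHom N' (algebraMap k A)
  have _ : IsScalarTower k A N' := IsScalarTower.of_algebraMap_smul fun _ _ => rfl
  let _ : Module k E := Module.compHom E (algebraMap k (Module.End Aᵐᵒᵖ P))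
  have _ : IsScalarTower k (Module.End Aᵐᵒᵖ P) E := IsScalarTower.of_algebraMap_smul fun _ _ => rfl
  exact HM.extend (k := k) hE f hf g

end Pool.Agent.P.MP_d2f293_al
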