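import Pool.Agent.P.MP_d2f293_al.Big
import Pool.Agent.P.MP_d2f293_al.PureInj

/-!
A wide pair of finitely generated subfunctors yields a superdecomposable pure-injective module.
-/

set_option autoImplicit false

namespace Pool.Agent.P.MP_d2f293_al

theorem super_of_wide (k A : Type) [Field k] [Ring A] [Algebra k A] [FiniteDimensional k A]
    (P : Type) [AddCommGroup P] [Module k P] [Module Aᵐᵒᵖ P] [IsScalarTower k Aᵐᵒᵖ P]
    (hP : IsBig k Aᵐᵒᵖ P) (X0 : FDM k Aᵐᵒᵖ) {x y : hP.cyc X0} (hw : Wide x y) :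
      ∃ (M : Type) (_ : AddCommGroup M) (_ : Module A M),
        (∀ (N P : Type) [AddCommGroup N] [Module A N] [AddCommGroup P] [Module A P]
            (f : N →ₗ[A] P),
            (Function.Injective f ∧
              ∀ (p q : ℕ) (r : Matrix (Fin p) (Fin q) A) (b : Fin p → N),
                (∃ y : Fin q → P, ∀ i, ∑ j, r i j • y j = f (b i)) →
                ∃ x : Fin q → N, ∀ i, ∑ j, r i j • x j = b i) →
            ∀ g : N →ₗ[A] M, ∃ h : P →ₗ[A] M, h ∘ₗ f = g) ∧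
        Nontrivial M ∧
        ∀ U : Submodule A M, (∃ V : Submodule A M, IsCompl U V) → U ≠ ⊥ →
          ∃ U₁ U₂ : Submodule A M, U₁ ≠ ⊥ ∧ U₂ ≠ ⊥ ∧ U₁ ⊓ U₂ = ⊥ ∧ U₁ ⊔ U₂ = U := by
  have : IsNoetherianRing Aᵐᵒᵖ := isNoetherian_of_tower k inferInstance
  obtain ⟨F⟩ := hP.mforcing X0 hw
  obtain ⟨I, hI, hnu⟩ := F.exists_noUniform (k := k) (fun u => by
    obtain ⟨t, h1, h2, -⟩ := hP.good X0 u
    exact ⟨t, h1, h2⟩)
  obtain ⟨E, _, _, hE, i, hi, hess⟩ :=
    exists_injective_hull (S := Module.End Aᵐᵒᵖ P) ((X0.car →ₗ[Aᵐᵒᵖ] P) ⧸ I)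
  have hloc : Loc A P := by
    intro s
    obtain ⟨Y, ι, π, h1, h2⟩ := hP.loc s
    have : Module.Finite Aᵐᵒᵖ Y.car := Module.Finite.of_restrictScalars_finite k _ _
    refine ⟨ι ∘ₗ π, by ext p; simp [h1], h2, ?_⟩
    have : LinearMap.range (ι ∘ₗ π) = LinearMap.range ι := by
      apply LinearMap.range_comp_of_range_eq_top
      exact LinearMap.range_eq_top.mpr fun y => ⟨ι y, h1 y⟩
    rw [this]
    exact Submodule.fg_range ι
  have htr : ∀ z, InTr A P (i z) := by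
    intro z
    obtain ⟨u, rfl⟩ := I.mkQ_surjective z
    obtain ⟨t, -, h2, h3⟩ := hP.good X0 u
    exact inTr_of_fixed hE _ t h3 (by rw [← map_smul, ← map_smul, h2])
  have hz : ∀ u, i (I.mkQ u) = 0 ↔ u ∈ I := fun u => by
    rw [map_eq_zero_iff i hi]
    simp
  refine ⟨HM A P E, inferInstance, inferInstance,
    fun N N' _ _ _ _ f hf g => HM.pureInjective k hE N N' f hf.2 g, ?_, ?_⟩
  · obtain ⟨u, -, hu⟩ := SetLike.exists_of_lt (lt_top_iff_ne_top.mpr hI)
    obtain ⟨d, f, p, h⟩ := htr (I.mkQ u)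
    by_contra hcon
    rw [not_nontrivial_iff_subsingleton] at hcon
    refine hu ((hz u).mp ?_)
    rw [h]
    exact Finset.sum_eq_zero fun l _ => by rw [Subsingleton.elim (f l) 0]; rfl
  · rintro U ⟨V, hUV⟩ hU
    refine HM.superdecomposable hE hloc (fun x hx => ?_) (fun x hx => ?_) U V hUV hU
    · obtain ⟨s, z, h1, h2⟩ := hess x hx
      exact ⟨s, by rw [h1]; exact fun h => h2 ((map_eq_zero_iff i hi).mp h), h1 ▸ htr z⟩
    · obtain ⟨s, z, h1, h2⟩ := hess x hx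
      obtain ⟨u, rfl⟩ := I.mkQ_surjective z
      obtain ⟨s1, s2, p1, p2, p3⟩ := hnu u (fun h => h2 (by simpa using h))
      refine ⟨s1 * s, s2 * s, ?_, ?_, fun r1 r2 h => ?_⟩
      · rw [mul_smul, h1, ← map_smul, ← map_smul]
        exact fun h => p1 ((hz _).mp h)
      · rw [mul_smul, h1, ← map_smul, ← map_smul]
        exact fun h => p2 ((hz _).mp h)
      · simp only [mul_smul, h1, ← map_smul] at h ⊢
        rw [hz]
        refine p3 r1 r2 ((hz _).mp ?_)
        rw [map_sub, map_sub, h, sub_self]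

end Pool.Agent.P.MP_d2f293_al
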