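import Mathlib

/-!
From a system of conditions on a locally finite-dimensional module to a quotient without
uniform submodules.
-/

set_option autoImplicit false

namespace Pool.Agent.P.MP_d2f293_al

/-- An abstract system of conditions on a module. -/
structure MForcing (S H : Type) [Ring S] [AddCommGroup H] [Module S H] where
  C : Type
  le : C → C → Prop
  le_refl : ∀ c, le c c
  le_trans : ∀ {c d e}, le c d → le d e → le c e
  c0 : C
  N : C → Submodule S H
  N_mono : ∀ {c d}, le c d → N c ≤ N d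
  top : H
  N_top : ∀ c, top ∉ N c
  split : ∀ c u, u ∉ N c → ∃ c', le c c' ∧ ∃ h1 h2 : S, ∀ d, le c' d →
    h1 • u ∉ N d ∧ h2 • u ∉ N d ∧ ∀ r1 r2 : S, r1 • h1 • u - r2 • h2 • u ∈ N d → r1 • h1 • u ∈ N d

variable {k S H : Type} [Field k] [Ring S] [Algebra k S] [AddCommGroup H] [Module S H]
  [Module k H] [IsScalarTower k S H]

variable (k H) in
/-- Idempotents with finite-dimensional image. -/
def Good (t : S) : Prop :=
  t * t = t ∧ ∃ V : Submodule k H, FiniteDimensional k V ∧ ∀ w : H, t • w ∈ V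

/-- The element `u` is either null or split for ever. -/
def MForcing.Handled (F : MForcing S H) (c : F.C) (T : Finset S) (u : H) : Prop :=
  u ∈ F.N c ∨ ∃ t1 ∈ T, ∃ t2 ∈ T, ∃ s1 s2 : S, ∀ d, F.le c d →
    t1 • s1 • u ∉ F.N d ∧ t2 • s2 • u ∉ F.N d ∧
      ∀ r1 r2 : S, r1 • t1 • s1 • u - r2 • t2 • s2 • u ∈ F.N d → r1 • t1 • s1 • u ∈ F.N d

theorem MForcing.Handled.mono {F : MForcing S H} {c d : F.C} {T T' : Finset S} {u : H}
    (h : F.Handled c T u) (hcd : F.le c d) (hT : T ⊆ T') : F.Handled d T' u := by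
  rcases h with h | ⟨t1, ht1, t2, ht2, s1, s2, h⟩
  · exact Or.inl (F.N_mono hcd h)
  · exact Or.inr ⟨t1, hT ht1, t2, hT ht2, s1, s2, fun e he => h e (F.le_trans hcd he)⟩

/-- The subspace of vectors made null by `g` at stage `d`. -/
def MForcing.W (F : MForcing S H) {U : Type} [AddCommGroup U] [Module k U] (j : U →ₗ[k] H)
    (V : Submodule k U) (d : F.C) (g : S) : Submodule k U where
  carrier := {u | u ∈ V ∧ g • j u ∈ F.N d}
  add_mem' := by
    rintro a b ⟨ha, ha'⟩ ⟨hb, hb'⟩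
    refine ⟨V.add_mem ha hb, ?_⟩
    rw [map_add, smul_add]
    exact (F.N d).add_mem ha' hb'
  zero_mem' := ⟨V.zero_mem, by simp⟩
  smul_mem' := by
    rintro a u ⟨hu, hu'⟩
    refine ⟨V.smul_mem a hu, ?_⟩
    rw [map_smul, ← algebraMap_smul S a, smul_smul, ← Algebra.commutes, ← smul_smul]
    exact (F.N d).smul_mem _ hu'

theorem MForcing.handle (F : MForcing S H) (hloc : ∀ u : H, ∃ t : S, Good k H t ∧ t • u = u)
    {U : Type} [AddCommGroup U] [Module k U] [FiniteDimensional k U] (j : U →ₗ[k] H)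
    (V : Submodule k U) : ∀ c : F.C, ∃ c', F.le c c' ∧ ∃ T : Finset S, (∀ t ∈ T, Good k H t) ∧
      ∀ u ∈ V, F.Handled c' T (j u) := by
  classical
  induction V using WellFoundedLT.induction with
  | ind V ih =>
  intro c
  by_cases hne : ∃ d g, F.le c d ∧ F.W j V d g ≠ V
  swap
  · push Not at hne
    refine ⟨c, F.le_refl c, ∅, by simp, fun u hu => Or.inl ?_⟩
    have := hne c 1 (F.le_refl c)
    rw [← this] at hu
    simpa using hu.2
  obtain ⟨V1, ⟨c1, g, hc1, hne1, rfl⟩, hmax⟩ := (wellFounded_gt (α := Submodule k U)).has_min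
    {X | ∃ d g, F.le c d ∧ F.W j V d g ≠ V ∧ F.W j V d g = X}
    (by obtain ⟨d, g, h1, h2⟩ := hne; exact ⟨_, d, g, h1, h2, rfl⟩)
  have hlt : F.W j V c1 g < V := lt_of_le_of_ne (fun u hu => hu.1) hne1
  obtain ⟨u0, hu0V, hu0⟩ := SetLike.exists_of_lt hlt
  -- maximality: if some multiple of `g` kills a vector outside `V1`, it kills all of `V`
  have key : ∀ d (h : S) u, F.le c1 d → u ∈ V → u ∉ F.W j V c1 g → h • g • j u ∈ F.N d →
      ∀ u' ∈ V, h • g • j u' ∈ F.N d := by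
    intro d h u hd huV hu hh u' hu'
    by_contra hcon
    refine hmax (F.W j V d (h * g)) ⟨d, h * g, F.le_trans hc1 hd, fun e => hcon ?_, rfl⟩ ?_
    · rw [← e] at hu'
      rw [smul_smul]
      exact hu'.2
    · refine lt_of_le_of_ne (fun w hw => ⟨hw.1, ?_⟩) (fun e => hu ?_)
      · rw [← smul_smul]
        exact (F.N d).smul_mem _ (F.N_mono hd hw.2)
      · rw [e]
        exact ⟨huV, by rw [← smul_smul]; exact hh⟩
  obtain ⟨c2, hc2, h1, h2, hsplit⟩ := F.split c1 (g • j u0) (fun h => hu0 ⟨hu0V, h⟩)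
  obtain ⟨t1, ht1, ht1'⟩ := hloc (h1 • g • j u0)
  obtain ⟨t2, ht2, ht2'⟩ := hloc (h2 • g • j u0)
  obtain ⟨c3, hc3, T, hT, hV1⟩ := ih _ hlt c2
  refine ⟨c3, F.le_trans hc1 (F.le_trans hc2 hc3), insert t1 (insert t2 T), ?_, fun u hu => ?_⟩
  · intro t ht
    simp only [Finset.mem_insert] at ht
    rcases ht with rfl | rfl | ht
    · exact ht1
    · exact ht2
    · exact hT t ht
  by_cases hu1 : u ∈ F.W j V c1 g
  · exact (hV1 u hu1).mono (F.le_refl _)
      ((Finset.subset_insert _ _).trans (Finset.subset_insert _ _))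
  refine Or.inr ⟨t1, by simp, t2, by simp, h1 * g, h2 * g, fun d hd => ?_⟩
  have hd2 : F.le c2 d := F.le_trans hc3 hd
  have hd1 : F.le c1 d := F.le_trans hc2 hd2
  obtain ⟨p1, p2, p3⟩ := hsplit d hd2
  refine ⟨fun h => p1 ?_, fun h => p2 ?_, fun r1 r2 h => ?_⟩
  · have := key d (t1 * h1) u hd1 hu hu1 (by simpa only [mul_smul] using h) u0 hu0V
    rwa [mul_smul, ht1'] at this
  · have := key d (t2 * h2) u hd1 hu hu1 (by simpa only [mul_smul] using h) u0 hu0V
    rwa [mul_smul, ht2'] at this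
  · have := key d (r1 * t1 * h1 - r2 * t2 * h2) u hd1 hu hu1
      (by simpa only [sub_smul, mul_smul] using h) u0 hu0V
    simp only [sub_smul, mul_smul, ht1', ht2'] at this
    have h' := p3 r1 r2 this
    have := key d (r1 * t1 * h1) u0 hd1 hu0V hu0 (by simpa only [mul_smul, ht1'] using h') u hu
    simpa only [mul_smul] using this

theorem MForcing.step (F : MForcing S H) (hloc : ∀ u : H, ∃ t : S, Good k H t ∧ t • u = u)
    (x : {p : F.C × Finset S // ∀ t ∈ p.2, Good k H t}) :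
    ∃ y : {p : F.C × Finset S // ∀ t ∈ p.2, Good k H t}, F.le x.1.1 y.1.1 ∧ x.1.2 ⊆ y.1.2 ∧
      ∀ t ∈ x.1.2, ∀ w : H, F.Handled y.1.1 y.1.2 (t • w) := by
  classical
  obtain ⟨⟨c, T⟩, hT⟩ := x
  have hT' : ∀ t : T, ∃ V : Submodule k H, FiniteDimensional k V ∧ ∀ w : H, (t : S) • w ∈ V :=
    fun t => (hT t t.2).2
  choose V hV hV' using hT'
  obtain ⟨c', hc', T', hT'', hh⟩ := F.handle hloc (⨆ t, V t).subtype ⊤ c
  refine ⟨⟨(c', T ∪ T'), ?_⟩, hc', Finset.subset_union_left, fun t ht w => ?_⟩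
  · intro t ht
    rcases Finset.mem_union.mp ht with ht | ht
    · exact hT t ht
    · exact hT'' t ht
  · exact (hh ⟨t • w, Submodule.mem_iSup_of_mem ⟨t, ht⟩ (hV' ⟨t, ht⟩ w)⟩ trivial).mono
      (F.le_refl _) Finset.subset_union_right

theorem MForcing.exists_noUniform (F : MForcing S H)
    (hloc : ∀ u : H, ∃ t : S, Good k H t ∧ t • u = u) :
    ∃ I : Submodule S H, I ≠ ⊤ ∧ ∀ u ∉ I, ∃ s1 s2 : S, s1 • u ∉ I ∧ s2 • u ∉ I ∧
      ∀ r1 r2 : S, r1 • s1 • u - r2 • s2 • u ∈ I → r1 • s1 • u ∈ I := by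
  classical
  choose nxt hn1 hn2 hn3 using F.step hloc
  obtain ⟨t0, ht0, ht0'⟩ := hloc F.top
  let x0 : {p : F.C × Finset S // ∀ t ∈ p.2, Good k H t} := ⟨(F.c0, {t0}), by simpa using ht0⟩
  let x : ℕ → {p : F.C × Finset S // ∀ t ∈ p.2, Good k H t} := fun n => nxt^[n] x0
  have hx : ∀ n, x (n + 1) = nxt (x n) := fun n => Function.iterate_succ_apply' _ _ _
  have hmono : ∀ m n, m ≤ n → F.le (x m).1.1 (x n).1.1 := by
    intro m n hmn
    induction n, hmn using Nat.le_induction with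
    | base => exact F.le_refl _
    | succ n _ ih => rw [hx]; exact F.le_trans ih (hn1 _)
  let Isat : Submodule S H :=
    { carrier := {u | ∃ n, u ∈ F.N (x n).1.1}
      add_mem' := by
        rintro a b ⟨m, hm⟩ ⟨n, hn⟩
        exact ⟨max m n, Submodule.add_mem _ (F.N_mono (hmono _ _ (le_max_left _ _)) hm)
          (F.N_mono (hmono _ _ (le_max_right _ _)) hn)⟩
      zero_mem' := ⟨0, Submodule.zero_mem _⟩
      smul_mem' := by
        rintro s a ⟨m, hm⟩
        exact ⟨m, Submodule.smul_mem _ _ hm⟩ }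
  let I : Submodule S H :=
    { carrier := {u | ∀ n, ∀ t ∈ (x n).1.2, ∀ s : S, t • s • u ∈ Isat}
      add_mem' := by
        intro a b ha hb n t ht s
        rw [smul_add, smul_add]
        exact Isat.add_mem (ha n t ht s) (hb n t ht s)
      zero_mem' := by
        intro n t ht s
        simp
      smul_mem' := by
        intro r a ha n t ht s
        rw [smul_smul s r]
        exact ha n t ht _ }
  have hI : ∀ u, u ∈ I ↔ ∀ n, ∀ t ∈ (x n).1.2, ∀ s : S, t • s • u ∈ Isat := fun u => Iff.rfl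
  have hIsat : ∀ u, u ∈ Isat ↔ ∃ n, u ∈ F.N (x n).1.1 := fun u => Iff.rfl
  refine ⟨I, fun h => ?_, fun u hu => ?_⟩
  · have h1 : F.top ∈ I := h ▸ Submodule.mem_top
    obtain ⟨n, hn⟩ := (hI _).mp h1 0 t0 (by simp [x, x0]) 1
    rw [one_smul, ht0'] at hn
    exact F.N_top _ hn
  · rw [hI] at hu
    push Not at hu
    obtain ⟨n, t, ht, s, hts⟩ := hu
    have hh := hn3 (x n) t ht (s • u)
    rw [← hx] at hh
    rcases hh with hh | ⟨t1, ht1, t2, ht2, s1, s2, hh⟩
    · exact absurd ⟨n + 1, hh⟩ hts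
    have hnot : ∀ (t' s' : S), t' ∈ (x (n + 1)).1.2 →
        (∀ d, F.le (x (n + 1)).1.1 d → t' • s' • t • s • u ∉ F.N d) →
        (t' * s' * t * s) • u ∉ I := by
      intro t' s' ht' hd hmem
      obtain ⟨m, hm⟩ := (hI _).mp hmem (n + 1) t' ht' 1
      rw [one_smul, smul_smul, ← mul_assoc, ← mul_assoc, ← mul_assoc,
        ((x (n + 1)).2 t' ht').1] at hm
      refine hd (x (max m (n + 1))).1.1 (hmono _ _ (le_max_right _ _)) ?_
      have := F.N_mono (hmono _ _ (le_max_left m (n + 1))) hm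
      simpa only [mul_smul] using this
    refine ⟨t1 * s1 * t * s, t2 * s2 * t * s, hnot t1 s1 ht1 (fun d hd => (hh d hd).1),
      hnot t2 s2 ht2 (fun d hd => (hh d hd).2.1), fun r1 r2 h => ?_⟩
    rw [hI] at h ⊢
    intro m t' ht' s'
    obtain ⟨l, hl⟩ := h m t' ht' s'
    refine ⟨max l (n + 1), ?_⟩
    have h1 := F.N_mono (hmono _ _ (le_max_left l (n + 1))) hl
    have h2 := (hh _ (hmono _ _ (le_max_right l (n + 1)))).2.2 (t' * s' * r1) (t' * s' * r2)
      (by simpa only [mul_smul, smul_sub] using h1)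
    simpa only [mul_smul] using h2

end Pool.Agent.P.MP_d2f293_al
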