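import Pool.Agent.P.MP_d2f293_al.Wide

/-!
Finite trees of promises in a modular lattice all of whose proper intervals contain an
incomparable pair.
-/

set_option autoImplicit false

namespace Pool.Agent.P.MP_d2f293_al

/-- Finite trees labelled by lattice elements. -/
inductive Tr (L : Type) : Type
  | leaf : L → Tr L
  | wrap : L → Tr L → Tr L
  | pair : Tr L → Tr L → Tr L

variable {L : Type} [Lattice L]

/-- The support of a tree. -/
def Tr.supp : Tr L → L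
  | .leaf a => a
  | .wrap a _ => a
  | .pair s t => s.supp ⊔ t.supp

/-- Validity of a tree modulo `I`. -/
def Tr.valid (I : L) : Tr L → Prop
  | .leaf a => ¬ a ≤ I
  | .wrap a t => t.supp ≤ a ⊔ I ∧ t.valid I
  | .pair s t => (s.supp ⊔ I) ⊓ (t.supp ⊔ I) ≤ I ∧ s.valid I ∧ t.valid I

/-- The promises recorded in a tree. -/
def Tr.prom : Tr L → L → L → Prop
  | .leaf _, _, _ => False
  | .wrap _ t, a, b => t.prom a b
  | .pair s t, a, b => (a = s.supp ∧ b = t.supp) ∨ s.prom a b ∨ t.prom a b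

theorem Tr.valid_ne {I : L} : ∀ {t : Tr L}, t.valid I → ¬ t.supp ≤ I
  | .leaf _, h => h
  | .wrap _ _, h => fun hle => Tr.valid_ne h.2 (h.1.trans (sup_le hle le_rfl))
  | .pair _ _, h => fun hle => Tr.valid_ne h.2.1 (le_sup_left.trans hle)

theorem Tr.valid_prom {I a b : L} : ∀ {t : Tr L}, t.valid I → t.prom a b →
    ¬ a ≤ I ∧ ¬ b ≤ I ∧ (a ⊔ I) ⊓ (b ⊔ I) ≤ I
  | .leaf _, _, hp => hp.elim
  | .wrap _ _, h, hp => Tr.valid_prom h.2 hp
  | .pair _ _, h, hp => by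
    rcases hp with ⟨rfl, rfl⟩ | hp | hp
    · exact ⟨Tr.valid_ne h.2.1, Tr.valid_ne h.2.2, h.1⟩
    · exact Tr.valid_prom h.2.1 hp
    · exact Tr.valid_prom h.2.2 hp

variable [IsModularLattice L]

theorem Tr.valid_ext {I J : L} (hIJ : I ≤ J) : ∀ {t : Tr L}, t.valid I →
    J ⊓ (t.supp ⊔ I) ≤ I → t.valid J
  | .leaf a, h, hJ => fun hle => h ((le_inf hle le_sup_left).trans hJ)
  | .wrap a t, h, hJ => ⟨h.1.trans (sup_le_sup_left hIJ _),
      Tr.valid_ext hIJ h.2 ((inf_le_inf_left _ (sup_le h.1 le_sup_right)).trans hJ)⟩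
  | .pair s t, h, hJ => by
    have hJ' : J ⊓ ((s.supp ⊔ I) ⊔ (t.supp ⊔ I)) ≤ I := by
      refine le_trans (inf_le_inf_left _ ?_) hJ
      exact sup_le (sup_le_sup_right le_sup_left _) (sup_le_sup_right le_sup_right _)
    refine ⟨?_, Tr.valid_ext hIJ h.2.1 ((inf_le_inf_left _ le_sup_left).trans hJ'),
      Tr.valid_ext hIJ h.2.2 ((inf_le_inf_left _ le_sup_right).trans hJ')⟩
    set s' := s.supp ⊔ I
    set t' := t.supp ⊔ I
    have e1 : (s.supp ⊔ J) ⊓ (t.supp ⊔ J) ≤ (J ⊔ s') ⊓ (t' ⊔ J) :=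
      inf_le_inf (sup_le (le_sup_left.trans le_sup_right) le_sup_left)
        (sup_le_sup_right le_sup_left _)
    refine e1.trans ?_
    rw [sup_inf_assoc_of_le _ le_sup_right]
    refine sup_le le_rfl (le_trans ?_ (h.1.trans hIJ))
    refine le_inf inf_le_left ?_
    have e2 : s' ⊓ (t' ⊔ J) ≤ (t' ⊔ J) ⊓ (s' ⊔ t') :=
      le_inf inf_le_right (inf_le_left.trans le_sup_left)
    refine e2.trans ?_
    rw [sup_inf_assoc_of_le _ le_sup_right]
    exact sup_le le_rfl (hJ'.trans le_sup_right)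

theorem Tr.combine {I I1 I2 : L} {s t : Tr L} (h : (s.supp ⊔ I) ⊓ (t.supp ⊔ I) ≤ I)
    (h1 : I ≤ I1) (h1' : I1 ≤ s.supp ⊔ I) (h2 : I ≤ I2) (h2' : I2 ≤ t.supp ⊔ I)
    (hs : s.valid I1) (ht : t.valid I2) : (Tr.pair s t).valid (I1 ⊔ I2) := by
  have es : s.supp ⊔ I1 ≤ s.supp ⊔ I := sup_le le_sup_left h1'
  have et : t.supp ⊔ I2 ≤ t.supp ⊔ I := sup_le le_sup_left h2'
  refine ⟨?_, Tr.valid_ext le_sup_left hs ?_, Tr.valid_ext le_sup_right ht ?_⟩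
  · have e1 : (s.supp ⊔ (I1 ⊔ I2)) ⊓ (t.supp ⊔ (I1 ⊔ I2)) ≤
        (I2 ⊔ (s.supp ⊔ I)) ⊓ (I1 ⊔ (t.supp ⊔ I)) :=
      inf_le_inf (sup_le (le_sup_left.trans le_sup_right) (sup_le (h1'.trans le_sup_right) le_sup_left))
        (sup_le (le_sup_left.trans le_sup_right) (sup_le le_sup_left (h2'.trans le_sup_right)))
    refine e1.trans ?_
    rw [sup_inf_assoc_of_le _ (h2'.trans le_sup_right), inf_comm, sup_inf_assoc_of_le _ h1']
    refine sup_le le_sup_right (sup_le le_sup_left ?_)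
    rw [inf_comm]
    exact h.trans (h1.trans le_sup_left)
  · refine (inf_le_inf_left _ es).trans ?_
    rw [sup_inf_assoc_of_le _ h1']
    refine sup_le le_rfl (le_trans ?_ (h.trans h1))
    exact le_inf inf_le_right (inf_le_left.trans h2')
  · refine (inf_le_inf_left _ et).trans ?_
    rw [sup_comm I1, sup_inf_assoc_of_le _ h2']
    refine sup_le le_rfl (le_trans ?_ (h.trans h2))
    exact le_inf (inf_le_left.trans h1') inf_le_right

theorem proj_ne {I V s t : L} (hV : V ≤ s ⊔ t) (hIt : I ≤ t) (hVt : V ⊓ t ≤ I) (hne : ¬ V ≤ I) :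
    ¬ (V ⊔ t) ⊓ s ≤ I := by
  intro hle
  apply hne
  have e : (t ⊔ s) ⊓ (V ⊔ t) = t ⊔ (s ⊓ (V ⊔ t)) := sup_inf_assoc_of_le _ le_sup_right
  have h1 : V ≤ (t ⊔ s) ⊓ (V ⊔ t) := le_inf (by rwa [sup_comm]) le_sup_left
  rw [e, inf_comm] at h1
  exact (le_inf le_rfl (h1.trans (sup_le le_rfl (hle.trans hIt)))).trans hVt

theorem pull_sup {V B t : L} (hB : B ≤ V ⊔ t) : (V ⊓ (B ⊔ t)) ⊔ t = B ⊔ t := by
  rw [sup_comm, ← sup_inf_assoc_of_le _ le_sup_right, sup_comm t V]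
  exact inf_eq_right.mpr (sup_le hB le_sup_right)

theorem pull_ne {I V B s t : L} (hB : B ≤ (V ⊔ t) ⊓ s) (hIt : I ≤ t) (hst : s ⊓ t ≤ I)
    (hne : ¬ B ≤ I) : ¬ V ⊓ (B ⊔ t) ≤ I := by
  intro hle
  apply hne
  have e := pull_sup (hB.trans inf_le_left)
  have h1 : B ≤ t := by
    refine le_sup_left.trans (e.symm.le.trans ?_)
    exact sup_le (hle.trans hIt) le_rfl
  exact (le_inf (hB.trans inf_le_right) h1).trans hst

/-- Every proper interval contains an incomparable pair. -/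
def Splits (L : Type) [Lattice L] : Prop :=
  ∀ x y : L, y ≤ x → ¬ x ≤ y → ∃ c d, y ≤ c ∧ y ≤ d ∧ c ≤ x ∧ d ≤ x ∧ ¬ c ≤ d ∧ ¬ d ≤ c

theorem Tr.kill (hW : Splits L) {I : L} : ∀ (t : Tr L) (V : L), t.valid I → I ≤ V →
    V ≤ t.supp ⊔ I → ¬ V ≤ I →
    ∃ B J, I ≤ B ∧ B ≤ V ∧ ¬ B ≤ I ∧ B ≤ J ∧ J ≤ t.supp ⊔ I ∧ t.valid J
  | .leaf a, V, _, h1, h2, h3 => by
    obtain ⟨c, d, c1, d1, c2, d2, hcd, hdc⟩ := hW V I h1 h3
    exact ⟨c, c, c1, c2, fun h => hcd (h.trans d1), le_rfl, c2.trans h2,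
      fun h => hdc (d2.trans (h2.trans (sup_le h c1)))⟩
  | .wrap a t, V, h, h1, h2, h3 => by
    by_cases hc : V ⊓ (t.supp ⊔ I) ≤ I
    · exact ⟨V, V, h1, le_rfl, h3, le_rfl, h2, h.1.trans (sup_le_sup_left h1 _),
        Tr.valid_ext h1 h.2 hc⟩
    · obtain ⟨B, J, b1, b2, b3, b4, b5, b6⟩ := Tr.kill hW t (V ⊓ (t.supp ⊔ I)) h.2
        (le_inf h1 le_sup_right) inf_le_right hc
      exact ⟨B, J, b1, b2.trans inf_le_left, b3, b4, b5.trans (sup_le h.1 le_sup_right),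
        h.1.trans (sup_le_sup_left (b1.trans b4) _), b6⟩
  | .pair s t, V, h, h1, h2, h3 => by
    have hs' : s.supp ⊔ I ≤ (Tr.pair s t).supp ⊔ I := sup_le_sup_right le_sup_left _
    have ht' : t.supp ⊔ I ≤ (Tr.pair s t).supp ⊔ I := sup_le_sup_right le_sup_right _
    by_cases hcs : V ⊓ (s.supp ⊔ I) ≤ I
    swap
    · obtain ⟨B, J, b1, b2, b3, b4, b5, b6⟩ := Tr.kill hW s (V ⊓ (s.supp ⊔ I)) h.2.1
        (le_inf h1 le_sup_right) inf_le_right hcs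
      exact ⟨B, J ⊔ I, b1, b2.trans inf_le_left, b3, b4.trans le_sup_left,
        sup_le (b5.trans hs') le_sup_right,
        Tr.combine h.1 (b1.trans b4) b5 le_rfl le_sup_right b6 h.2.2⟩
    by_cases hct : V ⊓ (t.supp ⊔ I) ≤ I
    swap
    · obtain ⟨B, J, b1, b2, b3, b4, b5, b6⟩ := Tr.kill hW t (V ⊓ (t.supp ⊔ I)) h.2.2
        (le_inf h1 le_sup_right) inf_le_right hct
      exact ⟨B, I ⊔ J, b1, b2.trans inf_le_left, b3, b4.trans le_sup_right,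
        sup_le le_sup_right (b5.trans ht'),
        Tr.combine h.1 le_rfl le_sup_right (b1.trans b4) b5 h.2.1 b6⟩
    have hV : V ≤ (s.supp ⊔ I) ⊔ (t.supp ⊔ I) :=
      h2.trans (sup_le (sup_le_sup le_sup_left le_sup_left) (le_sup_right.trans le_sup_left))
    obtain ⟨B1, J1, b1, b2, b3, b4, b5, b6⟩ := Tr.kill hW s ((V ⊔ (t.supp ⊔ I)) ⊓ (s.supp ⊔ I))
      h.2.1 (le_inf (h1.trans le_sup_left) le_sup_right) inf_le_right
      (proj_ne hV le_sup_right hct h3)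
    have hB' : ¬ V ⊓ (B1 ⊔ (t.supp ⊔ I)) ≤ I := pull_ne b2 le_sup_right h.1 b3
    set B' := V ⊓ (B1 ⊔ (t.supp ⊔ I)) with hB'def
    have hB'I : I ≤ B' := le_inf h1 (b1.trans le_sup_left)
    obtain ⟨B2, J2, c1, c2, c3, c4, c5, c6⟩ := Tr.kill hW t ((B' ⊔ (s.supp ⊔ I)) ⊓ (t.supp ⊔ I))
      h.2.2 (le_inf (hB'I.trans le_sup_left) le_sup_right) inf_le_right
      (proj_ne (inf_le_left.trans (by rwa [sup_comm])) le_sup_right
        ((inf_le_inf_right _ inf_le_left).trans hcs) hB')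
    refine ⟨B' ⊓ (B2 ⊔ (s.supp ⊔ I)), J1 ⊔ J2, le_inf hB'I (c1.trans le_sup_left),
      inf_le_left.trans inf_le_left,
      pull_ne c2 le_sup_right (by rw [inf_comm]; exact h.1) c3, ?_,
      sup_le (b5.trans hs') (c5.trans ht'),
      Tr.combine h.1 (b1.trans b4) b5 (c1.trans c4) c5 b6 c6⟩
    refine (inf_le_inf_right _ inf_le_right).trans ?_
    rw [sup_inf_assoc_of_le _ ((b2.trans inf_le_right).trans le_sup_right), inf_comm,
      sup_inf_assoc_of_le _ (c2.trans inf_le_right)]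
    exact sup_le (b4.trans le_sup_left) (sup_le (c4.trans le_sup_right)
      (h.1.trans ((b1.trans b4).trans le_sup_left)))

theorem Tr.promise_leaf (hW : Splits L) {I a V : L} (h1 : I ≤ V) (h2 : V ≤ a ⊔ I) (h3 : ¬ V ≤ I) :
    ∃ (t' : Tr L) (J : L), t'.supp = a ∧ I ≤ J ∧ J ≤ a ⊔ I ∧ t'.valid J ∧
      ∃ x y, t'.prom x y ∧ x ≤ V ⊔ J ∧ y ≤ V ⊔ J := by
  obtain ⟨c, d, c1, d1, c2, d2, hcd, hdc⟩ := hW V I h1 h3
  refine ⟨.wrap a (.pair (.leaf c) (.leaf d)), c ⊓ d, rfl, le_inf c1 d1,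
    inf_le_left.trans (c2.trans h2), ⟨?_, ?_, ?_, ?_⟩, c, d, Or.inl ⟨rfl, rfl⟩,
    c2.trans le_sup_left, d2.trans le_sup_left⟩
  · exact (sup_le c2 d2).trans (h2.trans (sup_le_sup_left (le_inf c1 d1) _))
  · exact inf_le_inf (sup_le le_rfl inf_le_left) (sup_le le_rfl inf_le_right)
  · exact fun h => hcd (h.trans inf_le_right)
  · exact fun h => hdc (h.trans inf_le_left)

theorem Tr.promise (hW : Splits L) {I : L} : ∀ (t : Tr L) (V : L), t.valid I → I ≤ V →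
    V ≤ t.supp ⊔ I → ¬ V ≤ I →
    ∃ (t' : Tr L) (J : L), t'.supp = t.supp ∧ (∀ x y, t.prom x y → t'.prom x y) ∧ I ≤ J ∧
      J ≤ t.supp ⊔ I ∧ t'.valid J ∧ ∃ x y, t'.prom x y ∧ x ≤ V ⊔ J ∧ y ≤ V ⊔ J
  | .leaf a, V, _, h1, h2, h3 => by
    obtain ⟨t', J, a1, a2, a3, a4, a5⟩ := Tr.promise_leaf hW h1 h2 h3
    exact ⟨t', J, a1, fun _ _ h => h.elim, a2, a3, a4, a5⟩
  | .wrap a t, V, h, h1, h2, h3 => by
    by_cases hc : V ⊓ (t.supp ⊔ I) ≤ I
    · obtain ⟨t', J, a1, a2, a3, a4, x, y, a5, a6, a7⟩ :=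
        Tr.promise_leaf hW h1 (le_sup_left : V ≤ V ⊔ I) h3
      refine ⟨.wrap a (.pair t t'), I ⊔ J, rfl, fun _ _ hp => Or.inr (Or.inl hp), le_sup_left,
        sup_le le_sup_right (a3.trans (sup_le h2 le_sup_right)), ⟨?_, ?_⟩, x, y,
        Or.inr (Or.inr a5), a6.trans (sup_le_sup_left le_sup_right _),
        a7.trans (sup_le_sup_left le_sup_right _)⟩
      · refine le_trans ?_ (sup_le_sup_left (le_sup_left : I ≤ I ⊔ J) a)
        exact sup_le h.1 (a1.le.trans h2)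
      · refine Tr.combine ?_ le_rfl le_sup_right a2 (by rw [a1]; exact a3) h.2 a4
        rw [a1, sup_eq_left.mpr h1, inf_comm]
        exact hc
    · obtain ⟨t', J, a1, a2, a3, a4, a5, x, y, a6, a7, a8⟩ := Tr.promise hW t (V ⊓ (t.supp ⊔ I)) h.2
        (le_inf h1 le_sup_right) inf_le_right hc
      refine ⟨.wrap a t', J, rfl, a2, a3, a4.trans (sup_le h.1 le_sup_right), ⟨?_, a5⟩, x, y, a6,
        a7.trans (sup_le_sup_right inf_le_left _), a8.trans (sup_le_sup_right inf_le_left _)⟩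
      exact a1.le.trans (h.1.trans (sup_le_sup_left a3 _))
  | .pair s t, V, h, h1, h2, h3 => by
    have hs' : s.supp ⊔ I ≤ (Tr.pair s t).supp ⊔ I := sup_le_sup_right le_sup_left _
    have ht' : t.supp ⊔ I ≤ (Tr.pair s t).supp ⊔ I := sup_le_sup_right le_sup_right _
    by_cases hcs : V ⊓ (s.supp ⊔ I) ≤ I
    swap
    · obtain ⟨s', J, a1, a2, a3, a4, a5, x, y, a6, a7, a8⟩ := Tr.promise hW s (V ⊓ (s.supp ⊔ I))
        h.2.1 (le_inf h1 le_sup_right) inf_le_right hcs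
      refine ⟨.pair s' t, J ⊔ I, by simp only [Tr.supp, a1], ?_, le_sup_right,
        sup_le (a4.trans hs') le_sup_right,
        Tr.combine (by rw [a1]; exact h.1) a3 (by rw [a1]; exact a4) le_rfl le_sup_right a5 h.2.2,
        x, y, Or.inr (Or.inl a6), a7.trans (sup_le_sup inf_le_left le_sup_left),
        a8.trans (sup_le_sup inf_le_left le_sup_left)⟩
      rintro p q (⟨rfl, rfl⟩ | hp | hp)
      · exact Or.inl ⟨a1.symm, rfl⟩
      · exact Or.inr (Or.inl (a2 _ _ hp))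
      · exact Or.inr (Or.inr hp)
    by_cases hct : V ⊓ (t.supp ⊔ I) ≤ I
    swap
    · obtain ⟨t', J, a1, a2, a3, a4, a5, x, y, a6, a7, a8⟩ := Tr.promise hW t (V ⊓ (t.supp ⊔ I))
        h.2.2 (le_inf h1 le_sup_right) inf_le_right hct
      refine ⟨.pair s t', I ⊔ J, by simp only [Tr.supp, a1], ?_, le_sup_left,
        sup_le le_sup_right (a4.trans ht'),
        Tr.combine (by rw [a1]; exact h.1) le_rfl le_sup_right a3 (by rw [a1]; exact a4) h.2.1 a5,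
        x, y, Or.inr (Or.inr a6), a7.trans (sup_le_sup inf_le_left le_sup_right),
        a8.trans (sup_le_sup inf_le_left le_sup_right)⟩
      rintro p q (⟨rfl, rfl⟩ | hp | hp)
      · exact Or.inl ⟨rfl, a1.symm⟩
      · exact Or.inr (Or.inl hp)
      · exact Or.inr (Or.inr (a2 _ _ hp))
    have hV : V ≤ (s.supp ⊔ I) ⊔ (t.supp ⊔ I) :=
      h2.trans (sup_le (sup_le_sup le_sup_left le_sup_left) (le_sup_right.trans le_sup_left))
    obtain ⟨B2, J2, c1, c2, c3, c4, c5, c6⟩ := Tr.kill hW t ((V ⊔ (s.supp ⊔ I)) ⊓ (t.supp ⊔ I))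
      h.2.2 (le_inf (h1.trans le_sup_left) le_sup_right) inf_le_right
      (proj_ne (by rwa [sup_comm]) le_sup_right hcs h3)
    have hB : ¬ V ⊓ (B2 ⊔ (s.supp ⊔ I)) ≤ I :=
      pull_ne c2 le_sup_right (by rw [inf_comm]; exact h.1) c3
    have hBs := pull_sup (c2.trans inf_le_left)
    set B := V ⊓ (B2 ⊔ (s.supp ⊔ I)) with hBdef
    have hBI : I ≤ B := le_inf h1 (c1.trans le_sup_left)
    obtain ⟨s', J1, a1, a2, a3, a4, a5, x, y, a6, a7, a8⟩ := Tr.promise hW s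
      ((B ⊔ (t.supp ⊔ I)) ⊓ (s.supp ⊔ I)) h.2.1 (le_inf (hBI.trans le_sup_left) le_sup_right)
      inf_le_right (proj_ne (inf_le_left.trans hV) le_sup_right
        ((inf_le_inf_right _ inf_le_left).trans hct) hB)
    have key : (B ⊔ (t.supp ⊔ I)) ⊓ (s.supp ⊔ I) ⊔ J1 ≤ V ⊔ (J1 ⊔ J2) := by
      refine sup_le ?_ (le_sup_left.trans le_sup_right)
      have e1 : (B ⊔ (t.supp ⊔ I)) ⊓ (s.supp ⊔ I) ≤ (B ⊔ (t.supp ⊔ I)) ⊓ (B ⊔ (s.supp ⊔ I)) :=
        inf_le_inf_left _ le_sup_right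
      refine e1.trans ?_
      rw [sup_inf_assoc_of_le _ le_sup_left, hBs, inf_comm (t.supp ⊔ I),
        sup_inf_assoc_of_le _ (c2.trans inf_le_right)]
      exact sup_le_sup inf_le_left (sup_le (c4.trans le_sup_right) (h.1.trans (a3.trans le_sup_left)))
    refine ⟨.pair s' t, J1 ⊔ J2, by simp only [Tr.supp, a1], ?_, a3.trans le_sup_left,
      sup_le (a4.trans hs') (c5.trans ht'),
      Tr.combine (by rw [a1]; exact h.1) a3 (by rw [a1]; exact a4) (c1.trans c4) c5 a5 c6,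
      x, y, Or.inr (Or.inl a6), a7.trans key, a8.trans key⟩
    rintro p q (⟨rfl, rfl⟩ | hp | hp)
    · exact Or.inl ⟨a1.symm, rfl⟩
    · exact Or.inr (Or.inl (a2 _ _ hp))
    · exact Or.inr (Or.inr hp)

/-- An abstract system of conditions on a lattice. -/
structure Forcing (K : Type) [Lattice K] (top : K) where
  C : Type
  le : C → C → Prop
  le_refl : ∀ c, le c c
  le_trans : ∀ {c d e}, le c d → le d e → le c e
  c0 : C
  N : C → K → Prop
  N_ne : ∀ c, ∃ u, N c u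
  N_le : ∀ {c u v}, N c u → v ≤ u → N c v
  N_sup : ∀ {c u v}, N c u → N c v → N c (u ⊔ v)
  N_mono : ∀ {c d u}, le c d → N c u → N d u
  N_top : ∀ c, ¬ N c top
  split : ∀ c u, ¬ N c u → ∃ c', le c c' ∧ ∃ v1 v2, v1 ≤ u ∧ v2 ≤ u ∧ ∀ d, le c' d →
    ¬ N d v1 ∧ ¬ N d v2 ∧ ∀ z, N d z → N d (v1 ⊓ (v2 ⊔ z))

theorem exists_forcing {K : Type} [Lattice K] [IsModularLattice K] {top bot : K}
    (htop : ∀ u, u ≤ top) (hw : Wide top bot) : Nonempty (Forcing K top) := by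
  have hW : Splits (WQ K) := fun x y h1 h2 => WQ.split h1 h2
  refine ⟨{
    C := {p : WQ K × Tr (WQ K) // p.2.valid p.1 ∧ p.2.supp = WQ.mk top}
    le := fun c d => c.1.1 ≤ d.1.1 ∧ ∀ x y, c.1.2.prom x y → d.1.2.prom x y
    le_refl := fun _ => ⟨le_rfl, fun _ _ h => h⟩
    le_trans := fun h1 h2 => ⟨h1.1.trans h2.1, fun _ _ h => h2.2 _ _ (h1.2 _ _ h)⟩
    c0 := ⟨(WQ.mk bot, .leaf (WQ.mk top)), fun h => h hw, rfl⟩
    N := fun c u => WQ.mk u ≤ c.1.1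
    N_ne := fun c => ?_
    N_le := fun h1 h2 => (WQ.mk_mono h2).trans h1
    N_sup := fun h1 h2 => by rw [WQ.mk_sup]; exact sup_le h1 h2
    N_mono := fun h1 h2 => h2.trans h1.1
    N_top := fun c h => Tr.valid_ne c.2.1 (c.2.2.le.trans h)
    split := ?_ }⟩
  · obtain ⟨u, hu⟩ := WQ.mk_surj c.1.1
    exact ⟨u, hu.le⟩
  · rintro ⟨⟨I, t⟩, hv, hs⟩ u hu
    obtain ⟨t', J, a1, a2, a3, -, a5, x, y, a6, a7, a8⟩ := Tr.promise hW t (WQ.mk u ⊔ I) hv
      le_sup_right (sup_le_sup_right ((WQ.mk_mono (htop u)).trans hs.ge) _)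
      (fun h => hu (le_sup_left.trans h))
    obtain ⟨x', hx'⟩ := WQ.mk_surj (x ⊔ J)
    obtain ⟨y', hy'⟩ := WQ.mk_surj (y ⊔ J)
    have e : ∀ w : WQ K, w ≤ WQ.mk u ⊔ I ⊔ J → w ≤ ((w ⊔ J) ⊓ WQ.mk u) ⊔ J := by
      intro w hw
      rw [sup_comm, inf_comm, ← sup_inf_assoc_of_le _ le_sup_right]
      exact le_inf (hw.trans (sup_le (sup_le le_sup_right (a3.trans le_sup_left)) le_sup_left))
        le_sup_left
    refine ⟨⟨(J, t'), a5, a1.trans hs⟩, ⟨a3, a2⟩, x' ⊓ u, y' ⊓ u, inf_le_right, inf_le_right, ?_⟩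
    rintro ⟨⟨J', t''⟩, hv', hs'⟩ ⟨h1, h2⟩
    obtain ⟨p1, p2, p3⟩ := Tr.valid_prom hv' (h2 _ _ a6)
    refine ⟨fun h => p1 ((e x a7).trans (sup_le ?_ h1)), fun h => p2 ((e y a8).trans (sup_le ?_ h1)),
      fun z hz => le_trans ?_ p3⟩
    · rw [← hx', ← WQ.mk_inf]; exact h
    · rw [← hy', ← WQ.mk_inf]; exact h
    · rw [WQ.mk_inf, WQ.mk_sup, WQ.mk_inf, WQ.mk_inf, hx', hy']
      exact inf_le_inf (inf_le_left.trans (sup_le_sup_left h1 _))
        (sup_le (inf_le_left.trans (sup_le_sup_left h1 _)) (hz.trans le_sup_right))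

end Pool.Agent.P.MP_d2f293_al
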