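import Pool.Agent.P.MP_d2f293_al.Super
import Pool.Agent.P.MP_d2f293_al.Tree
import Pool.Agent.P.MP_d2f293_al.NoUniform

/-!
A module containing every finite-dimensional module as a direct summand, and the lattice of
cyclic submodules of `Hom(X, P)` over `End P`.
-/

set_option autoImplicit false

namespace Pool.Agent.P.MP_d2f293_al

/-- Bundled finite-dimensional modules. -/
structure FDM (k B : Type) [Field k] [Ring B] [Algebra k B] : Type 1 where
  car : Type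
  [i1 : AddCommGroup car]
  [i2 : Module k car]
  [i3 : Module B car]
  [i4 : IsScalarTower k B car]
  [i5 : FiniteDimensional k car]

attribute [instance] FDM.i1 FDM.i2 FDM.i3 FDM.i4 FDM.i5

variable (k B : Type) [Field k] [Ring B] [Algebra k B]

/-- Index set of concrete representations. -/
def Idx : Type := Σ d : ℕ, B →ₐ[k] Module.End k (Fin d → k)

variable {k B}

/-- The concrete module attached to an index. -/
def Comp (i : Idx k B) : Type := Fin i.1 → k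

instance (i : Idx k B) : AddCommGroup (Comp i) := inferInstanceAs (AddCommGroup (Fin i.1 → k))
instance (i : Idx k B) : Module k (Comp i) := inferInstanceAs (Module k (Fin i.1 → k))
instance (i : Idx k B) : FiniteDimensional k (Comp i) :=
  inferInstanceAs (FiniteDimensional k (Fin i.1 → k))
instance (i : Idx k B) : Module B (Comp i) := Module.compHom (Fin i.1 → k) i.2.toRingHom
instance (i : Idx k B) : IsScalarTower k B (Comp i) :=
  IsScalarTower.of_algebraMap_smul fun c x => by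
    change (i.2 (algebraMap k B c)) x = _
    rw [AlgHom.commutes]
    rfl

variable (k B) in
/-- Big modules. -/
structure IsBig (P : Type) [AddCommGroup P] [Module B P] : Prop where
  retract : ∀ Y : FDM k B, ∃ (ι : Y.car →ₗ[B] P) (π : P →ₗ[B] Y.car), ∀ y, π (ι y) = y
  loc : ∀ s : Finset P, ∃ (Y : FDM k B) (ι : Y.car →ₗ[B] P) (π : P →ₗ[B] Y.car),
    (∀ y, π (ι y) = y) ∧ ∀ p ∈ s, ι (π p) = p

open DirectSum in
theorem isBig_directSum : IsBig k B (⨁ i : Idx k B, Comp i) := by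
  classical
  constructor
  · intro Y
    let e : Y.car ≃ₗ[k] (Fin (Module.finrank k Y.car) → k) := (Module.finBasis k Y.car).equivFun
    let i : Idx k B := ⟨_, (e.conjAlgEquiv k).toAlgHom.comp (Algebra.lsmul k k Y.car)⟩
    let e' : Y.car ≃ₗ[B] Comp i :=
      { e with
        map_smul' := fun b y => by
          change e (b • y) = e (b • e.symm (e y))
          rw [e.symm_apply_apply] }
    refine ⟨DirectSum.lof B _ _ i ∘ₗ e'.toLinearMap,
      e'.symm.toLinearMap ∘ₗ DirectSum.component B _ _ i, fun y => ?_⟩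
    simp
  · intro s
    let J : Finset (Idx k B) := s.biUnion fun p => DFinsupp.support p
    refine ⟨⟨∀ j : J, Comp j.1⟩, ∑ j : J, DirectSum.lof B _ _ j.1 ∘ₗ LinearMap.proj j,
      LinearMap.pi fun j => DirectSum.component B _ _ j.1, fun y => ?_, fun p hp => ?_⟩
    · ext j
      simp only [LinearMap.coe_sum, Finset.sum_apply, LinearMap.comp_apply, LinearMap.proj_apply,
        LinearMap.pi_apply, map_sum]
      rw [Finset.sum_eq_single j]
      · simp
      · intro b _ hb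
        rw [DirectSum.component.of, dif_neg (fun h => hb (Subtype.ext h))]
      · simp
    · simp only [LinearMap.coe_sum, Finset.sum_apply, LinearMap.comp_apply, LinearMap.proj_apply,
        LinearMap.pi_apply]
      rw [Finset.sum_coe_sort J (fun j => DirectSum.lof B _ _ j (DirectSum.component B _ _ j p))]
      conv_rhs => rw [← DirectSum.sum_support_of p]
      symm
      refine Finset.sum_subset (Finset.subset_biUnion_of_mem (fun p => DFinsupp.support p) hp) ?_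
      intro j _ hj
      rw [DFinsupp.notMem_support_iff.mp hj, map_zero]

theorem exists_big : ∃ (P : Type) (_ : AddCommGroup P) (_ : Module k P) (_ : Module B P)
    (_ : IsScalarTower k B P), IsBig k B P :=
  ⟨_, inferInstance, inferInstance, inferInstance, inferInstance, isBig_directSum⟩

section push

variable {R X Y Y' Z : Type} [Ring R] [AddCommGroup X] [Module R X] [AddCommGroup Y] [Module R Y]
  [AddCommGroup Y'] [Module R Y'] [AddCommGroup Z] [Module R Z]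

/-- Elementwise description of a pushout square. -/
structure IsPush (f : X →ₗ[R] Y) (g : X →ₗ[R] Y') (i : Y →ₗ[R] Z) (i' : Y' →ₗ[R] Z) : Prop where
  comm : ∀ x, i (f x) = i' (g x)
  surj : ∀ z, ∃ y y', z = i y + i' y'
  ker : ∀ y y', i y + i' y' = 0 → ∃ x, y = f x ∧ y' = - g x

theorem IsPush.desc {f : X →ₗ[R] Y} {g : X →ₗ[R] Y'} {i : Y →ₗ[R] Z} {i' : Y' →ₗ[R] Z}
    (h : IsPush f g i i') {W : Type} [AddCommGroup W] [Module R W] (α : Y →ₗ[R] W)
    (β : Y' →ₗ[R] W) (hαβ : ∀ x, α (f x) = β (g x)) :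
    ∃ γ : Z →ₗ[R] W, (∀ y, γ (i y) = α y) ∧ ∀ y', γ (i' y') = β y' := by
  obtain ⟨γ, hγ⟩ := factor_of_surj (i.coprod i') (fun z => by
    obtain ⟨y, y', rfl⟩ := h.surj z
    exact ⟨(y, y'), rfl⟩) (α.coprod β) (by
    rintro ⟨y, y'⟩ hy
    obtain ⟨x, rfl, rfl⟩ := h.ker y y' hy
    simp [hαβ])
  exact ⟨γ, fun y => by simpa using hγ (y, 0), fun y' => by simpa using hγ (0, y')⟩

end push

theorem exists_push {X : Type} [AddCommGroup X] [Module B X] (Y Y' : FDM k B)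
    (f : X →ₗ[B] Y.car) (g : X →ₗ[B] Y'.car) :
    ∃ (Z : FDM k B) (i : Y.car →ₗ[B] Z.car) (i' : Y'.car →ₗ[B] Z.car), IsPush f g i i' := by
  let N : Submodule B (Y.car × Y'.car) := LinearMap.range (f.prod (-g))
  have : FiniteDimensional k ((Y.car × Y'.car) ⧸ N) :=
    Module.Finite.of_surjective (N.mkQ.restrictScalars k) (Submodule.mkQ_surjective N)
  refine ⟨⟨(Y.car × Y'.car) ⧸ N⟩, N.mkQ ∘ₗ LinearMap.inl _ _ _, N.mkQ ∘ₗ LinearMap.inr _ _ _,
    fun x => ?_, fun z => ?_, fun y y' h => ?_⟩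
  · simp only [LinearMap.comp_apply, Submodule.mkQ_apply]
    rw [Submodule.Quotient.eq]
    exact ⟨x, by simp⟩
  · obtain ⟨⟨y, y'⟩, rfl⟩ := N.mkQ_surjective z
    refine ⟨y, y', ?_⟩
    simp only [LinearMap.comp_apply, ← map_add]
    simp
  · simp only [LinearMap.comp_apply, ← map_add] at h
    obtain ⟨x, hx⟩ := (Submodule.Quotient.mk_eq_zero N).mp h
    simp only [LinearMap.prod_apply, Prod.ext_iff] at hx
    exact ⟨x, by simpa using hx.1.symm, by simpa using hx.2.symm⟩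

section sub

variable {P X : Type} [AddCommGroup P] [Module B P] [AddCommGroup X] [Module B X]
  {Y Y' Z : Type} [AddCommGroup Y] [Module B Y] [AddCommGroup Y'] [Module B Y']
  [AddCommGroup Z] [Module B Z]

variable (P) in
/-- The maps that factor through `f`. -/
def FSub (f : X →ₗ[B] Y) : Submodule (Module.End B P) (X →ₗ[B] P) where
  carrier := {u | ∃ h : Y →ₗ[B] P, u = h ∘ₗ f}
  add_mem' := by
    rintro _ _ ⟨h, rfl⟩ ⟨h', rfl⟩
    exact ⟨h + h', by rw [LinearMap.add_comp]⟩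
  zero_mem' := ⟨0, by simp⟩
  smul_mem' := by
    rintro s _ ⟨h, rfl⟩
    exact ⟨s ∘ₗ h, rfl⟩

theorem mem_FSub {f : X →ₗ[B] Y} {u : X →ₗ[B] P} : u ∈ FSub P f ↔ ∃ h : Y →ₗ[B] P, u = h ∘ₗ f :=
  Iff.rfl

variable (P) in
/-- Precomposition. -/
def pre (g : X →ₗ[B] X) : (X →ₗ[B] P) →ₗ[Module.End B P] (X →ₗ[B] P) where
  toFun u := u ∘ₗ g
  map_add' _ _ := LinearMap.add_comp _ _ _
  map_smul' _ _ := rfl

theorem FSub_inf {f : X →ₗ[B] Y} {g : X →ₗ[B] Y'} {i : Y →ₗ[B] Z} {i' : Y' →ₗ[B] Z}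
    (h : IsPush f g i i') : FSub P f ⊓ FSub P g = FSub P (i ∘ₗ f) := by
  apply le_antisymm
  · rintro u ⟨⟨α, hα⟩, ⟨β, hβ⟩⟩
    obtain ⟨γ, h1, -⟩ := h.desc α β (fun x => LinearMap.congr_fun (hα.symm.trans hβ) x)
    exact ⟨γ, by ext x; simp [h1, hα]⟩
  · rintro _ ⟨γ, rfl⟩
    exact ⟨⟨γ ∘ₗ i, rfl⟩, ⟨γ ∘ₗ i', by ext x; simp [h.comm]⟩⟩

theorem FSub_comap {f : X →ₗ[B] Y} {g : X →ₗ[B] X} {i : Y →ₗ[B] Z} {i' : X →ₗ[B] Z}
    (h : IsPush f g i i') : (FSub P f).comap (pre P g) = FSub P i' := by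
  apply le_antisymm
  · rintro u ⟨α, hα⟩
    obtain ⟨γ, -, h2⟩ := h.desc α u (fun x => (LinearMap.congr_fun hα x).symm)
    exact ⟨γ, by ext x; simp [h2]⟩
  · rintro _ ⟨γ, rfl⟩
    exact ⟨γ ∘ₗ i, by ext x; simp [pre, h.comm]⟩

theorem FSub_map (f : X →ₗ[B] Y) (g : X →ₗ[B] X) :
    (FSub P f).map (pre P g) = FSub P (f ∘ₗ g) := by
  apply le_antisymm
  · rintro _ ⟨_, ⟨α, rfl⟩, rfl⟩
    exact ⟨α, rfl⟩
  · rintro _ ⟨α, rfl⟩
    exact ⟨α ∘ₗ f, ⟨α, rfl⟩, rfl⟩

theorem FSub_sup (w : X →ₗ[B] Z) (p : Z →ₗ[B] Y) (p' : Z →ₗ[B] Y') (i : Y →ₗ[B] Z)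
    (i' : Y' →ₗ[B] Z) (h : ∀ z, z = i (p z) + i' (p' z)) :
    FSub P (p ∘ₗ w) ⊔ FSub P (p' ∘ₗ w) = FSub P w := by
  apply le_antisymm
  · refine sup_le ?_ ?_
    · rintro _ ⟨α, rfl⟩
      exact ⟨α ∘ₗ p, rfl⟩
    · rintro _ ⟨α, rfl⟩
      exact ⟨α ∘ₗ p', rfl⟩
  · rintro _ ⟨α, rfl⟩
    refine Submodule.mem_sup.mpr ⟨_, ⟨α ∘ₗ i, rfl⟩, _, ⟨α ∘ₗ i', rfl⟩, ?_⟩
    ext x
    simp only [LinearMap.add_apply, LinearMap.comp_apply, ← map_add, ← h]

theorem FSub_id : FSub P (LinearMap.id : X →ₗ[B] X) = ⊤ :=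
  eq_top_iff.mpr fun u _ => ⟨u, rfl⟩

theorem FSub_zero : FSub P (0 : X →ₗ[B] Y) = ⊥ := by
  rw [eq_bot_iff]
  rintro _ ⟨α, rfl⟩
  simp

theorem FSub_eq_span (f : X →ₗ[B] Y) (ι : Y →ₗ[B] P) (π : P →ₗ[B] Y) (h : ∀ y, π (ι y) = y) :
    FSub P f = Submodule.span (Module.End B P) {ι ∘ₗ f} := by
  apply le_antisymm
  · rintro _ ⟨α, rfl⟩
    refine Submodule.mem_span_singleton.mpr ⟨α ∘ₗ π, ?_⟩
    ext x
    simp [h]
  · rw [Submodule.span_le, Set.singleton_subset_iff]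
    exact ⟨ι, rfl⟩

theorem IsBig.loc_map (hP : IsBig k B P) (X0 : FDM k B) (u : X0.car →ₗ[B] P) :
    ∃ (Y : FDM k B) (ι : Y.car →ₗ[B] P) (π : P →ₗ[B] Y.car),
      (∀ y, π (ι y) = y) ∧ ι ∘ₗ π ∘ₗ u = u := by
  classical
  have : Module.Finite B X0.car := Module.Finite.of_restrictScalars_finite k B _
  obtain ⟨s, hs⟩ := Module.Finite.fg_top (R := B) (M := X0.car)
  obtain ⟨Y, ι, π, h1, h2⟩ := hP.loc (s.image u)
  refine ⟨Y, ι, π, h1, LinearMap.ext_on hs fun x hx => ?_⟩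
  exact h2 _ (Finset.mem_image_of_mem _ hx)

theorem IsBig.cyc_iff (hP : IsBig k B P) (X0 : FDM k B)
    (a : Submodule (Module.End B P) (X0.car →ₗ[B] P)) :
    (∃ u, a = Submodule.span (Module.End B P) {u}) ↔
      ∃ (Y : FDM k B) (f : X0.car →ₗ[B] Y.car), a = FSub P f := by
  constructor
  · rintro ⟨u, rfl⟩
    obtain ⟨Y, ι, π, h1, h2⟩ := hP.loc_map X0 u
    exact ⟨Y, π ∘ₗ u, by rw [FSub_eq_span _ ι π h1, h2]⟩
  · rintro ⟨Y, f, rfl⟩
    obtain ⟨ι, π, h⟩ := hP.retract Y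
    exact ⟨_, FSub_eq_span f ι π h⟩

/-- The lattice of cyclic submodules. -/
def IsBig.cyc (hP : IsBig k B P) (X0 : FDM k B) :
    Sublattice (Submodule (Module.End B P) (X0.car →ₗ[B] P)) where
  carrier := {a | ∃ u, a = Submodule.span (Module.End B P) {u}}
  supClosed' := by
    intro a ha b hb
    obtain ⟨Y, f, rfl⟩ := (hP.cyc_iff X0 a).mp ha
    obtain ⟨Y', g, rfl⟩ := (hP.cyc_iff X0 b).mp hb
    refine (hP.cyc_iff X0 _).mpr ⟨⟨Y.car × Y'.car⟩, f.prod g, ?_⟩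
    exact FSub_sup (f.prod g) (LinearMap.fst _ _ _) (LinearMap.snd _ _ _) (LinearMap.inl _ _ _)
      (LinearMap.inr _ _ _) (by simp)
  infClosed' := by
    intro a ha b hb
    obtain ⟨Y, f, rfl⟩ := (hP.cyc_iff X0 a).mp ha
    obtain ⟨Y', g, rfl⟩ := (hP.cyc_iff X0 b).mp hb
    obtain ⟨Z, i, i', h⟩ := exists_push Y Y' f g
    exact (hP.cyc_iff X0 _).mpr ⟨Z, i ∘ₗ f, FSub_inf h⟩

instance sublatticeModular {L : Type} [Lattice L] [IsModularLattice L] (K : Sublattice L) :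
    IsModularLattice K where
  sup_inf_le_assoc_of_le := fun {x} y {z} h =>
    IsModularLattice.sup_inf_le_assoc_of_le (x := (x : L)) (y : L) (z := (z : L)) h

theorem IsBig.mforcing (hP : IsBig k B P) (X0 : FDM k B) {x y : hP.cyc X0} (hw : Wide x y) :
    Nonempty (MForcing (Module.End B P) (X0.car →ₗ[B] P)) := by
  obtain ⟨u0, hu0⟩ := (hP.cyc_iff X0 ⊤).mpr ⟨X0, LinearMap.id, FSub_id.symm⟩
  let top : hP.cyc X0 := ⟨⊤, u0, hu0⟩
  have htop : ∀ u, u ≤ top := fun u => (le_top : u.1 ≤ ⊤)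
  obtain ⟨F⟩ := exists_forcing htop (hw.mono (htop x) le_rfl)
  let sp : (X0.car →ₗ[B] P) → hP.cyc X0 := fun u => ⟨Submodule.span _ {u}, u, rfl⟩
  have hsp : ∀ {u} {a : hP.cyc X0}, u ∈ a.1 → sp u ≤ a := fun h =>
    (Submodule.span_singleton_le_iff_mem _ _).mpr h
  have hsp' : ∀ u, u ∈ (sp u).1 := fun u => Submodule.mem_span_singleton_self u
  refine ⟨{
    C := F.C
    le := F.le
    le_refl := F.le_refl
    le_trans := F.le_trans
    c0 := F.c0
    N := fun c =>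
      { carrier := {u | F.N c (sp u)}
        add_mem' := fun {u v} hu hv => F.N_le (F.N_sup hu hv)
          (hsp (Submodule.add_mem_sup (hsp' u) (hsp' v)))
        zero_mem' := by
          obtain ⟨a, ha⟩ := F.N_ne c
          exact F.N_le ha (hsp a.1.zero_mem)
        smul_mem' := fun s u hu => F.N_le hu (hsp (Submodule.smul_mem _ _ (hsp' u))) }
    N_mono := fun h u hu => F.N_mono h hu
    top := u0
    N_top := fun c h => F.N_top c (F.N_le h (le_of_eq (Subtype.ext hu0)))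
    split := fun c u hu => ?_ }⟩
  obtain ⟨c', hc', ⟨_, w1, rfl⟩, ⟨_, w2, rfl⟩, h1, h2, h⟩ := F.split c (sp u) hu
  obtain ⟨s1, rfl⟩ := Submodule.mem_span_singleton.mp (h1 (Submodule.mem_span_singleton_self w1))
  obtain ⟨s2, rfl⟩ := Submodule.mem_span_singleton.mp (h2 (Submodule.mem_span_singleton_self w2))
  refine ⟨c', hc', s1, s2, fun d hd => ⟨(h d hd).1, (h d hd).2.1, fun r1 r2 hr => ?_⟩⟩
  refine F.N_le ((h d hd).2.2 _ hr) (hsp ⟨Submodule.smul_mem _ _ (hsp' _), ?_⟩)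
  have := Submodule.add_mem_sup (Submodule.smul_mem _ r2 (hsp' (s2 • u)))
    (hsp' (r1 • s1 • u - r2 • s2 • u))
  rwa [add_sub_cancel] at this

theorem IsBig.good [Module k P] [IsScalarTower k B P] (hP : IsBig k B P) (X0 : FDM k B)
    (u : X0.car →ₗ[B] P) : ∃ t : Module.End B P, Good k (X0.car →ₗ[B] P) t ∧ t • u = u ∧
      (LinearMap.range t).FG := by
  obtain ⟨Y, ι, π, h1, h2⟩ := hP.loc_map X0 u
  have hfd : FiniteDimensional k (X0.car →ₗ[B] Y.car) :=
    Module.Finite.of_injective (LinearMap.restrictScalarsₗ k B X0.car Y.car k)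
      (LinearMap.restrictScalars_injective k)
  let c : (X0.car →ₗ[B] Y.car) →ₗ[k] (X0.car →ₗ[B] P) :=
    { toFun := fun v => ι ∘ₗ v
      map_add' := fun v w => LinearMap.comp_add _ _ _
      map_smul' := fun a v => by ext x; simp }
  have : Module.Finite B Y.car := Module.Finite.of_restrictScalars_finite k B _
  refine ⟨ι ∘ₗ π, ⟨?_, LinearMap.range c, inferInstance, fun w => ⟨π ∘ₗ w, rfl⟩⟩, h2, ?_⟩
  · ext p
    simp [h1]
  · have : LinearMap.range (ι ∘ₗ π) = LinearMap.range ι := by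
      apply LinearMap.range_comp_of_range_eq_top
      exact LinearMap.range_eq_top.mpr fun y => ⟨ι y, h1 y⟩
    rw [this]
    exact Submodule.fg_range ι

end sub

end Pool.Agent.P.MP_d2f293_al
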