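import Mathlib

/-!
The algebra `k[x,y]/(xy, x^3, y^3)` and a module containing all string modules.
-/

set_option autoImplicit false

namespace Pool.Agent.P.MP_d2f293_al

section chain

variable {R H : Type} [Ring R] [AddCommGroup H] [Module R H]

/-- The submodule obtained by applying a word of linear relations. -/
def chain (p r : H →ₗ[R] H) : List Bool → Submodule R H → Submodule R H
  | [], W => W
  | true :: s, W => ((chain p r s W).comap r).map p
  | false :: s, W => ((chain p r s W).map p).comap r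

theorem chain_mono (p r : H →ₗ[R] H) {W W' : Submodule R H} (h : W ≤ W') :
    ∀ s, chain p r s W ≤ chain p r s W'
  | [] => h
  | true :: s => Submodule.map_mono (Submodule.comap_mono (chain_mono p r h s))
  | false :: s => Submodule.comap_mono (Submodule.map_mono (chain_mono p r h s))

theorem chain_append (p r : H →ₗ[R] H) (W : Submodule R H) (t : List Bool) :
    ∀ s, chain p r (s ++ t) W = chain p r s (chain p r t W)
  | [] => rfl
  | true :: s => by simp only [List.cons_append, chain, chain_append p r W t s]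
  | false :: s => by simp only [List.cons_append, chain, chain_append p r W t s]

theorem chain_0 (p r : H →ₗ[R] H) (s : List Bool) :
    chain p r s ⊥ ≤ chain p r (s ++ [true]) ⊥ := by
  rw [chain_append]
  exact chain_mono p r bot_le s

theorem chain_1 (p r : H →ₗ[R] H) (h : ∀ w, r (p w) = 0) (s : List Bool) :
    chain p r (s ++ [true]) ⊤ ≤ chain p r (s ++ [false]) ⊥ := by
  rw [chain_append, chain_append]
  refine chain_mono p r ?_ s
  rintro _ ⟨w, -, rfl⟩
  refine Submodule.mem_comap.mpr ?_
  rw [h]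
  exact Submodule.zero_mem _

theorem chain_2 (p r : H →ₗ[R] H) (s : List Bool) :
    chain p r (s ++ [false]) ⊤ ≤ chain p r s ⊤ := by
  rw [chain_append]
  exact chain_mono p r le_top s

end chain

/-- The algebra with basis `1, x, x^2, y, y^2`. -/
@[ext] structure Gam (k : Type) : Type where
  c0 : k
  c1 : k
  c2 : k
  c3 : k
  c4 : k

namespace Gam

variable {k : Type} [Field k]

instance : Zero (Gam k) := ⟨⟨0, 0, 0, 0, 0⟩⟩
instance : One (Gam k) := ⟨⟨1, 0, 0, 0, 0⟩⟩
instance : Add (Gam k) := ⟨fun a b => ⟨a.c0 + b.c0, a.c1 + b.c1, a.c2 + b.c2, a.c3 + b.c3, a.c4 + b.c4⟩⟩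
instance : Neg (Gam k) := ⟨fun a => ⟨-a.c0, -a.c1, -a.c2, -a.c3, -a.c4⟩⟩
instance : Mul (Gam k) := ⟨fun a b => ⟨a.c0 * b.c0, a.c0 * b.c1 + a.c1 * b.c0,
  a.c0 * b.c2 + a.c1 * b.c1 + a.c2 * b.c0, a.c0 * b.c3 + a.c3 * b.c0,
  a.c0 * b.c4 + a.c3 * b.c3 + a.c4 * b.c0⟩⟩
instance : SMul k (Gam k) := ⟨fun c a => ⟨c * a.c0, c * a.c1, c * a.c2, c * a.c3, c * a.c4⟩⟩

@[simp] theorem zero_c0 : (0 : Gam k).c0 = 0 := rfl
@[simp] theorem zero_c1 : (0 : Gam k).c1 = 0 := rfl
@[simp] theorem zero_c2 : (0 : Gam k).c2 = 0 := rfl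
@[simp] theorem zero_c3 : (0 : Gam k).c3 = 0 := rfl
@[simp] theorem zero_c4 : (0 : Gam k).c4 = 0 := rfl
@[simp] theorem one_c0 : (1 : Gam k).c0 = 1 := rfl
@[simp] theorem one_c1 : (1 : Gam k).c1 = 0 := rfl
@[simp] theorem one_c2 : (1 : Gam k).c2 = 0 := rfl
@[simp] theorem one_c3 : (1 : Gam k).c3 = 0 := rfl
@[simp] theorem one_c4 : (1 : Gam k).c4 = 0 := rfl
@[simp] theorem add_c0 (a b : Gam k) : (a + b).c0 = a.c0 + b.c0 := rfl
@[simp] theorem add_c1 (a b : Gam k) : (a + b).c1 = a.c1 + b.c1 := rfl
@[simp] theorem add_c2 (a b : Gam k) : (a + b).c2 = a.c2 + b.c2 := rfl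
@[simp] theorem add_c3 (a b : Gam k) : (a + b).c3 = a.c3 + b.c3 := rfl
@[simp] theorem add_c4 (a b : Gam k) : (a + b).c4 = a.c4 + b.c4 := rfl
@[simp] theorem neg_c0 (a : Gam k) : (-a).c0 = -a.c0 := rfl
@[simp] theorem neg_c1 (a : Gam k) : (-a).c1 = -a.c1 := rfl
@[simp] theorem neg_c2 (a : Gam k) : (-a).c2 = -a.c2 := rfl
@[simp] theorem neg_c3 (a : Gam k) : (-a).c3 = -a.c3 := rfl
@[simp] theorem neg_c4 (a : Gam k) : (-a).c4 = -a.c4 := rfl
@[simp] theorem mul_c0 (a b : Gam k) : (a * b).c0 = a.c0 * b.c0 := rfl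
@[simp] theorem mul_c1 (a b : Gam k) : (a * b).c1 = a.c0 * b.c1 + a.c1 * b.c0 := rfl
@[simp] theorem mul_c2 (a b : Gam k) :
    (a * b).c2 = a.c0 * b.c2 + a.c1 * b.c1 + a.c2 * b.c0 := rfl
@[simp] theorem mul_c3 (a b : Gam k) : (a * b).c3 = a.c0 * b.c3 + a.c3 * b.c0 := rfl
@[simp] theorem mul_c4 (a b : Gam k) :
    (a * b).c4 = a.c0 * b.c4 + a.c3 * b.c3 + a.c4 * b.c0 := rfl
@[simp] theorem smul_c0 (c : k) (a : Gam k) : (c • a).c0 = c * a.c0 := rfl
@[simp] theorem smul_c1 (c : k) (a : Gam k) : (c • a).c1 = c * a.c1 := rfl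
@[simp] theorem smul_c2 (c : k) (a : Gam k) : (c • a).c2 = c * a.c2 := rfl
@[simp] theorem smul_c3 (c : k) (a : Gam k) : (c • a).c3 = c * a.c3 := rfl
@[simp] theorem smul_c4 (c : k) (a : Gam k) : (c • a).c4 = c * a.c4 := rfl

instance : CommRing (Gam k) where
  add_assoc a b c := by ext <;> simp [add_assoc]
  zero_add a := by ext <;> simp
  add_zero a := by ext <;> simp
  add_comm a b := by ext <;> simp [add_comm]
  neg_add_cancel a := by ext <;> simp
  left_distrib a b c := by ext <;> simp <;> ring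
  right_distrib a b c := by ext <;> simp <;> ring
  zero_mul a := by ext <;> simp
  mul_zero a := by ext <;> simp
  mul_assoc a b c := by ext <;> simp <;> ring
  one_mul a := by ext <;> simp
  mul_one a := by ext <;> simp
  mul_comm a b := by ext <;> simp <;> ring
  nsmul := nsmulRec
  zsmul := zsmulRec

instance : Module k (Gam k) where
  one_smul a := by ext <;> simp
  mul_smul a b c := by ext <;> simp [mul_assoc]
  smul_zero a := by ext <;> simp
  smul_add a b c := by ext <;> simp [mul_add]
  add_smul a b c := by ext <;> simp [add_mul]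
  zero_smul a := by ext <;> simp

instance : Algebra k (Gam k) :=
  Algebra.ofModule (fun c a b => by ext <;> simp <;> ring) (fun c a b => by ext <;> simp <;> ring)

/-- The first generator. -/
def x : Gam k := ⟨0, 1, 0, 0, 0⟩
/-- The second generator. -/
def y : Gam k := ⟨0, 0, 0, 1, 0⟩

theorem decomp (a : Gam k) :
    a = a.c0 • (1 : Gam k) + a.c1 • x + a.c2 • (x * x) + a.c3 • y + a.c4 • (y * y) := by
  ext <;> simp [x, y]

theorem x_mul_y : (x : Gam k) * y = 0 := by ext <;> simp [x, y]

instance : FiniteDimensional k (Gam k) := by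
  let f : Gam k →ₗ[k] k × k × k × k × k :=
    { toFun := fun a => (a.c0, a.c1, a.c2, a.c3, a.c4)
      map_add' := fun _ _ => rfl
      map_smul' := fun _ _ => rfl }
  refine Module.Finite.of_injective f fun a b h => ?_
  simp only [f, LinearMap.coe_mk, AddHom.coe_mk, Prod.mk.injEq] at h
  exact Gam.ext h.1 h.2.1 h.2.2.1 h.2.2.2.1 h.2.2.2.2

end Gam

/-- Positions in finite strings. -/
inductive St : Type
  | bd : List Bool → List Bool → St
  | mid : List Bool → Bool → List Bool → St
  deriving DecidableEq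

/-- The position sent to a given position by the first operator. -/
def pPre : St → Option St
  | .bd L (true :: R) => some (.mid L true R)
  | .bd _ _ => none
  | .mid L false R => some (.bd (false :: L) R)
  | .mid _ true _ => none

/-- The position sent to a given position by the second operator. -/
def rPre : St → Option St
  | .bd (true :: L) R => some (.mid L true R)
  | .bd _ _ => none
  | .mid L false R => some (.bd L (false :: R))
  | .mid _ true _ => none

variable (k : Type) [Field k]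

/-- The universal string module. -/
def Mu : Type := St → k

instance : AddCommGroup (Mu k) := inferInstanceAs (AddCommGroup (St → k))
instance : Module k (Mu k) := inferInstanceAs (Module k (St → k))

/-- The operator attached to a shift of positions. -/
def opOf (f : St → Option St) : Module.End k (Mu k) where
  toFun w s := (f s).elim 0 w
  map_add' v w := by
    funext s
    change (f s).elim 0 (v + w) = (f s).elim 0 v + (f s).elim 0 w
    cases f s
    · exact (add_zero _).symm
    · rfl
  map_smul' c w := by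
    funext s
    change (f s).elim 0 (c • w) = c * (f s).elim 0 w
    cases f s
    · exact (mul_zero _).symm
    · rfl

theorem opOf_apply (f : St → Option St) (w : Mu k) (s : St) : opOf k f w s = (f s).elim 0 w := rfl

theorem opOf_mul (f g : St → Option St) : opOf k f * opOf k g = opOf k (fun s => (f s).bind g) := by
  ext w
  funext s
  simp only [Module.End.mul_apply, opOf_apply]
  cases f s <;> rfl

theorem opOf_none : opOf k (fun _ => none) = 0 := rfl

theorem pr_zero : opOf k pPre * opOf k rPre = 0 := by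
  rw [opOf_mul, ← opOf_none]
  congr 1
  funext s
  rcases s with ⟨L, _ | ⟨_ | _, R⟩⟩ | ⟨L, _ | _, R⟩ <;> rfl

theorem rp_zero : opOf k rPre * opOf k pPre = 0 := by
  rw [opOf_mul, ← opOf_none]
  congr 1
  funext s
  rcases s with ⟨_ | ⟨_ | _, L⟩, R⟩ | ⟨L, _ | _, R⟩ <;> rfl

theorem ppp_zero : opOf k pPre * (opOf k pPre * opOf k pPre) = 0 := by
  rw [opOf_mul, opOf_mul, ← opOf_none]
  congr 1
  funext s
  rcases s with ⟨L, _ | ⟨_ | _, R⟩⟩ | ⟨L, _ | _, _ | ⟨_ | _, R⟩⟩ <;> rfl

theorem rrr_zero : opOf k rPre * (opOf k rPre * opOf k rPre) = 0 := by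
  rw [opOf_mul, opOf_mul, ← opOf_none]
  congr 1
  funext s
  rcases s with ⟨_ | ⟨_ | _, L⟩, R⟩ | ⟨_ | ⟨_ | _, L⟩, _ | _, R⟩ <;> rfl

/-- The action of `Gam k` on the universal string module. -/
def act : Gam k →+* Module.End k (Mu k) where
  toFun a := a.c0 • 1 + a.c1 • opOf k pPre + a.c2 • (opOf k pPre * opOf k pPre) +
    a.c3 • opOf k rPre + a.c4 • (opOf k rPre * opOf k rPre)
  map_one' := by simp
  map_zero' := by simp
  map_add' a b := by
    simp only [Gam.add_c0, Gam.add_c1, Gam.add_c2, Gam.add_c3, Gam.add_c4]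
    module
  map_mul' a b := by
    have h1 := pr_zero k
    have h2 := rp_zero k
    have h3 := ppp_zero k
    have h4 := rrr_zero k
    generalize opOf k pPre = p at *
    generalize opOf k rPre = r at *
    have h1' : ∀ z, p * (r * z) = 0 := fun z => by rw [← mul_assoc, h1, zero_mul]
    have h2' : ∀ z, r * (p * z) = 0 := fun z => by rw [← mul_assoc, h2, zero_mul]
    simp only [Gam.mul_c0, Gam.mul_c1, Gam.mul_c2, Gam.mul_c3, Gam.mul_c4, mul_add, add_mul,
      smul_mul_assoc, mul_smul_comm, one_mul, mul_one, mul_assoc, h1, h2, h3, h4, h1', h2',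
      mul_zero, smul_zero, add_zero]
    module

instance : Module (Gam k) (Mu k) := Module.compHom (Mu k) (act k)

theorem x_smul (w : Mu k) : (Gam.x : Gam k) • w = opOf k pPre w := by
  change act k Gam.x w = _
  simp [act, Gam.x]

theorem y_smul (w : Mu k) : (Gam.y : Gam k) • w = opOf k rPre w := by
  change act k Gam.y w = _
  simp [act, Gam.y]

/-- The basis vector at a position. -/
def dl (s : St) : Mu k := fun s' => if s' = s then 1 else 0

theorem opOf_dl (f : St → Option St) (s s' : St) (h : ∀ t, f t = some s' ↔ t = s) :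
    opOf k f (dl k s') = dl k s := by
  funext t
  rw [opOf_apply]
  by_cases ht : t = s
  · rw [(h t).mpr ht]
    exact (if_pos rfl).trans (if_pos ht).symm
  · have := mt (h t).mp ht
    rcases hf : f t with _ | u
    · exact (if_neg ht).symm
    · have : u ≠ s' := fun e => this (by rw [hf, e])
      exact (if_neg this).trans (if_neg ht).symm

theorem p_dl1 (L R : List Bool) : opOf k pPre (dl k (.mid L true R)) = dl k (.bd L (true :: R)) :=
  opOf_dl k _ _ _ (by
    intro s
    rcases s with ⟨L, _ | ⟨_ | _, R⟩⟩ | ⟨L, _ | _, R⟩ <;> simp [pPre])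

theorem p_dl2 (L R : List Bool) : opOf k pPre (dl k (.bd (false :: L) R)) = dl k (.mid L false R) :=
  opOf_dl k _ _ _ (by
    intro s
    rcases s with ⟨L, _ | ⟨_ | _, R⟩⟩ | ⟨L, _ | _, R⟩ <;> simp [pPre])

theorem r_dl1 (L R : List Bool) : opOf k rPre (dl k (.mid L true R)) = dl k (.bd (true :: L) R) :=
  opOf_dl k _ _ _ (by
    intro s
    rcases s with ⟨_ | ⟨_ | _, L⟩, R⟩ | ⟨L, _ | _, R⟩ <;> simp [rPre])

theorem r_dl2 (L R : List Bool) : opOf k rPre (dl k (.bd L (false :: R))) = dl k (.mid L false R) :=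
  opOf_dl k _ _ _ (by
    intro s
    rcases s with ⟨_ | ⟨_ | _, L⟩, R⟩ | ⟨L, _ | _, R⟩ <;> simp [rPre])

/-- Multiplication by the first generator. -/
abbrev mx : Mu k →ₗ[Gam k] Mu k := LinearMap.lsmul (Gam k) (Mu k) Gam.x
/-- Multiplication by the second generator. -/
abbrev my : Mu k →ₗ[Gam k] Mu k := LinearMap.lsmul (Gam k) (Mu k) Gam.y

theorem mx_apply (w : Mu k) : mx k w = opOf k pPre w := x_smul k w
theorem my_apply (w : Mu k) : my k w = opOf k rPre w := y_smul k w

theorem a_top : ∀ (s L : List Bool), dl k (.bd L s) ∈ chain (mx k) (my k) s ⊤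
  | [], _ => trivial
  | true :: s, L => ⟨dl k (.mid L true s), by
      refine Submodule.mem_comap.mpr ?_
      rw [my_apply, r_dl1]
      exact a_top s _, by rw [mx_apply, p_dl1]⟩
  | false :: s, L => ⟨dl k (.bd (false :: L) s), a_top s _, by
      rw [mx_apply, my_apply, p_dl2, r_dl2]⟩

theorem b_top : ∀ (s R : List Bool), dl k (.bd s R) ∈ chain (my k) (mx k) s ⊤
  | [], _ => trivial
  | true :: s, R => ⟨dl k (.mid s true R), by
      refine Submodule.mem_comap.mpr ?_
      rw [mx_apply, p_dl1]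
      exact b_top s _, by rw [my_apply, r_dl1]⟩
  | false :: s, R => ⟨dl k (.bd s (false :: R)), b_top s _, by
      rw [mx_apply, my_apply, p_dl2, r_dl2]⟩

theorem a_bot : ∀ (s L : List Bool) (w : Mu k), w ∈ chain (mx k) (my k) s ⊥ → w (.bd L s) = 0
  | [], _, w, h => by rw [(Submodule.mem_bot _).mp h]; rfl
  | true :: s, L, _, ⟨w, hw, rfl⟩ => by
      have := a_bot s (true :: L) _ hw
      rw [my_apply] at this
      rw [mx_apply]
      exact this
  | false :: s, L, w, ⟨w', hw', e⟩ => by
      have := a_bot s (false :: L) _ hw'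
      have e' := congrFun e (.mid L false s)
      rw [mx_apply, my_apply] at e'
      exact e'.symm.trans this

theorem b_bot : ∀ (s R : List Bool) (w : Mu k), w ∈ chain (my k) (mx k) s ⊥ → w (.bd s R) = 0
  | [], _, w, h => by rw [(Submodule.mem_bot _).mp h]; rfl
  | true :: s, R, _, ⟨w, hw, rfl⟩ => by
      have := b_bot s (true :: R) _ hw
      rw [mx_apply] at this
      rw [my_apply]
      exact this
  | false :: s, R, w, ⟨w', hw', e⟩ => by
      have := b_bot s (false :: R) _ hw'
      have e' := congrFun e (.mid s false R)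
      rw [mx_apply, my_apply] at e'
      exact e'.symm.trans this

theorem witness (s t : List Bool) :
    ¬ chain (mx k) (my k) s ⊤ ⊓ chain (my k) (mx k) t ⊤ ≤
      chain (mx k) (my k) s ⊥ ⊔ chain (my k) (mx k) t ⊥ := by
  intro h
  obtain ⟨v, hv, w, hw, e⟩ := Submodule.mem_sup.mp (h ⟨a_top k s t, b_top k t s⟩)
  have e' : v (.bd t s) + w (.bd t s) = dl k (.bd t s) (.bd t s) := congrFun e (.bd t s)
  rw [a_bot k s t v hv, b_bot k t s w hw] at e'
  simp [dl] at e'

end Pool.Agent.P.MP_d2f293_al
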