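import Mathlib

/-!
Injective hulls of modules.
-/

set_option autoImplicit false

namespace Pool.Agent.P.MP_d2f293_al

variable {S : Type} [Ring S]

theorem ext_of_ker_le {X Y E : Type} [AddCommGroup X] [Module S X] [AddCommGroup Y] [Module S Y]
    [AddCommGroup E] [Module S E] (hE : Module.Injective S E) (β : X →ₗ[S] Y) (γ : X →ₗ[S] E)
    (h : ∀ x, β x = 0 → γ x = 0) : ∃ g : Y →ₗ[S] E, ∀ x, g (β x) = γ x := by
  have hinj : Function.Injective ((LinearMap.ker β).liftQ β le_rfl) := by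
    rw [← LinearMap.ker_eq_bot]
    exact Submodule.ker_liftQ_eq_bot _ _ _ le_rfl
  obtain ⟨g, hg⟩ := hE.out _ hinj ((LinearMap.ker β).liftQ γ (fun x hx => h x hx))
  exact ⟨g, fun x => hg (Submodule.Quotient.mk x)⟩

theorem exists_hull {Q : Type} [AddCommGroup Q] [Module S Q] (hQ : Module.Injective S Q)
    (W : Submodule S Q) : ∃ E : Submodule S Q, W ≤ E ∧
      (∀ x ∈ E, x ≠ 0 → ∃ s : S, s • x ∈ W ∧ s • x ≠ 0) ∧ Module.Injective S E := by
  obtain ⟨E, hWE, hE⟩ := zorn_le_nonempty₀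
    {E : Submodule S Q | ∀ x ∈ E, x ≠ 0 → ∃ s : S, s • x ∈ W ∧ s • x ≠ 0} (by
      intro c hc hchain y hy
      refine ⟨sSup c, fun x hx => ?_, fun z hz => le_sSup hz⟩
      obtain ⟨z, hz, hxz⟩ := (Submodule.mem_sSup_of_directed ⟨y, hy⟩ hchain.directedOn).mp hx
      exact hc hz x hxz) W (fun x hx hx0 => ⟨1, by simpa using hx, by simpa using hx0⟩)
  obtain ⟨C, -, hC⟩ := zorn_le_nonempty₀ {C : Submodule S Q | ∀ x ∈ C, x ∈ E → x = 0} (by
      intro c hc hchain y hy
      refine ⟨sSup c, fun x hx => ?_, fun z hz => le_sSup hz⟩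
      obtain ⟨z, hz, hxz⟩ := (Submodule.mem_sSup_of_directed ⟨y, hy⟩ hchain.directedOn).mp hx
      exact hc hz x hxz) ⊥ (fun x hx _ => by simpa using hx)
  obtain ⟨h, hh⟩ := ext_of_ker_le hQ (C.mkQ ∘ₗ E.subtype) E.subtype (by
    intro x hx
    exact hC.1 x (by simpa using hx) x.2)
  have hh' : ∀ e ∈ E, h (C.mkQ e) = e := fun e he => hh ⟨e, he⟩
  have hrange : LinearMap.range (h ∘ₗ C.mkQ) ≤ E := by
    refine hE.2 ?_ (fun e he => ⟨e, hh' e he⟩)
    rintro _ ⟨q, rfl⟩ hq0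
    have hqC : q ∉ C := fun hq => hq0 (by
      have : C.mkQ q = 0 := by simpa using hq
      simp [this])
    have : ∃ x ∈ C ⊔ Submodule.span S {q}, x ∈ E ∧ x ≠ 0 := by
      by_contra hcon
      push Not at hcon
      exact hqC (hC.2 hcon le_sup_left
        (Submodule.mem_sup_right (Submodule.mem_span_singleton_self q)))
    obtain ⟨x, hx, hxE, hx0⟩ := this
    obtain ⟨c, hc, y, hy, rfl⟩ := Submodule.mem_sup.mp hx
    obtain ⟨s, rfl⟩ := Submodule.mem_span_singleton.mp hy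
    obtain ⟨s', hs', hs0⟩ := hE.1 _ hxE hx0
    have e : s • (h ∘ₗ C.mkQ) q = c + s • q := by
      rw [← hh' _ hxE, map_add, map_add]
      have : C.mkQ c = 0 := by simpa using hc
      simp [this]
    exact ⟨s' * s, by rwa [mul_smul, e], by rwa [mul_smul, e]⟩
  refine ⟨E, hWE, hE.1, ⟨fun X Y _ _ _ _ f hf g => ?_⟩⟩
  obtain ⟨g', hg'⟩ := hQ.out f hf (E.subtype ∘ₗ g)
  refine ⟨((h ∘ₗ C.mkQ).codRestrict E (fun q => hrange ⟨q, rfl⟩)) ∘ₗ g', fun x => ?_⟩
  ext
  simp only [LinearMap.comp_apply, LinearMap.codRestrict_apply, hg', Submodule.subtype_apply]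
  exact hh' _ (g x).2

theorem exists_embedding (F : Type) [AddCommGroup F] [Module S F] :
    ∃ (Q : Type) (_ : AddCommGroup Q) (_ : Module S Q), Module.Injective S Q ∧
      ∃ i : F →ₗ[S] Q, Function.Injective i := by
  obtain ⟨I, hI, f, hf⟩ := CategoryTheory.EnoughInjectives.presentation (ModuleCat.of S F)
  refine ⟨I, inferInstance, inferInstance, Module.injective_module_of_injective_object S I,
    f.hom, (ModuleCat.mono_iff_injective f).mp hf⟩

theorem exists_injective_hull (F : Type) [AddCommGroup F] [Module S F] :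
    ∃ (E : Type) (_ : AddCommGroup E) (_ : Module S E), Module.Injective S E ∧
      ∃ i : F →ₗ[S] E, Function.Injective i ∧
        ∀ x : E, x ≠ 0 → ∃ (s : S) (y : F), s • x = i y ∧ y ≠ 0 := by
  obtain ⟨Q, _, _, hQ, i, hi⟩ := exists_embedding (S := S) F
  obtain ⟨E, hWE, hess, hE⟩ := exists_hull hQ (LinearMap.range i)
  refine ⟨E, inferInstance, inferInstance, hE, i.codRestrict E (fun y => hWE ⟨y, rfl⟩),
    fun a b hab => hi (congrArg Subtype.val hab), fun x hx => ?_⟩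
  obtain ⟨s, ⟨y, hy⟩, hs0⟩ := hess x x.2 (fun h => hx (Subtype.ext h))
  refine ⟨s, y, Subtype.ext hy.symm, fun h => hs0 ?_⟩
  rw [← hy, h, map_zero]

end Pool.Agent.P.MP_d2f293_al
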