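import Pool.Agent.P.MP_d2f293_al.Wild
import Pool.Agent.P.MP_d2f293_al.Assemble

/-!
Every wild finite-dimensional algebra has a superdecomposable pure-injective module.
-/

set_option autoImplicit false

namespace Pool.Agent.P.MP_d2f293_al

open MulOpposite Matrix

variable {k : Type} [Field k]

/-- The transposed matrix representation attached to a basis. -/
noncomputable def tau (V : FDM k (Gam k)) {m : ℕ} (b : Module.Basis (Fin m) k V.car) :
    Gam k →ₐ[k] Matrix (Fin m) (Fin m) k where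
  toFun g := (LinearMap.toMatrix b b (Algebra.lsmul k k V.car g))ᵀ
  map_one' := by simp
  map_mul' g h := by
    rw [mul_comm, map_mul, LinearMap.toMatrix_mul, Matrix.transpose_mul]
  map_zero' := by simp
  map_add' g h := by simp
  commutes' c := by
    rw [AlgHom.commutes, Algebra.algebraMap_eq_smul_one, Algebra.algebraMap_eq_smul_one]
    simp

/-- Evaluation of the free algebra. -/
noncomputable def lf : FreeAlgebra k (Fin 2) →ₐ[k] Gam k := FreeAlgebra.lift k ![Gam.x, Gam.y]

theorem lift_tau (V : FDM k (Gam k)) {m : ℕ} (b : Module.Basis (Fin m) k V.car)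
    (w : FreeAlgebra k (Fin 2)) :
    FreeAlgebra.lift k ![tau V b Gam.x, tau V b Gam.y] w = tau V b (lf w) := by
  have : FreeAlgebra.lift k ![tau V b Gam.x, tau V b Gam.y] = (tau V b).comp lf := by
    ext i : 2
    fin_cases i <;> simp [lf]
  rw [this]
  rfl

variable {A : Type} [Ring A] [Algebra k A] {n : ℕ}

/-- The right action as a left action of the opposite algebra. -/
noncomputable def psi (φ : A →ₐ[k] Matrix (Fin n) (Fin n) (FreeAlgebra k (Fin 2))) :
    Aᵐᵒᵖ →ₐ[k] Matrix (Fin n) (Fin n) (Gam k) :=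
  (Matrix.transposeAlgEquiv (Fin n) k (Gam k)).symm.toAlgHom.comp
    (AlgHom.op ((AlgHom.mapMatrix lf).comp φ))

theorem psi_apply (φ : A →ₐ[k] Matrix (Fin n) (Fin n) (FreeAlgebra k (Fin 2))) (a : A) (i j : Fin n) :
    psi φ (op a) i j = lf (φ a j i) := rfl

/-- The product basis. -/
noncomputable def bG (ψ : Aᵐᵒᵖ →ₐ[k] Matrix (Fin n) (Fin n) (Gam k)) (V : FDM k (Gam k)) {m : ℕ}
    (b : Module.Basis (Fin m) k V.car) : Module.Basis (Fin n × Fin m) k (GT ψ V.car) :=
  (Pi.basis fun _ : Fin n => b).reindex (Equiv.sigmaEquivProd _ _)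

theorem toMatrix_act (φ : A →ₐ[k] Matrix (Fin n) (Fin n) (FreeAlgebra k (Fin 2)))
    (V : FDM k (Gam k)) {m : ℕ} (b : Module.Basis (Fin m) k V.car) (a : A) :
    LinearMap.toMatrix (bG (psi φ) V b) (bG (psi φ) V b)
      (Algebra.lsmul k k (GT (psi φ) V.car) (op a)) =
    (Matrix.of (fun (p : Fin n × Fin m) (q : Fin n × Fin m) =>
      FreeAlgebra.lift k ![tau V b Gam.x, tau V b Gam.y] (φ a p.1 q.1) p.2 q.2))ᵀ := by
  ext ⟨i, p⟩ ⟨j, q⟩
  have h1 : ∀ v : GT (psi φ) V.car, (bG (psi φ) V b).repr v (i, p) = b.repr (v i) p := by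
    intro v
    exact (Module.Basis.repr_reindex_apply _ _ _ _).trans (Pi.basis_repr _ _ _)
  have h2 : ∀ l, (bG (psi φ) V b) (j, q) l = (Pi.single j (b q) : Fin n → V.car) l := by
    intro l
    exact congrFun ((Module.Basis.reindex_apply _ _ _).trans (Pi.basis_apply _ _)) l
  rw [LinearMap.toMatrix_apply, h1, Matrix.transpose_apply, Matrix.of_apply, lift_tau]
  change b.repr ((op a • (bG (psi φ) V b) (j, q)) i) p = _
  rw [GT.smul_apply, Finset.sum_eq_single j]
  · rw [h2, psi_apply]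
    simp [tau, LinearMap.toMatrix_apply]
  · intro l _ hl
    rw [h2]
    simp [hl]
  · simp

theorem refl_psi (hn : 0 < n) (φ : A →ₐ[k] Matrix (Fin n) (Fin n) (FreeAlgebra k (Fin 2)))
    (h : ∀ (m : ℕ) (X Y X' Y' : Matrix (Fin m) (Fin m) k),
          (∃ P : Matrix (Fin n × Fin m) (Fin n × Fin m) k, IsUnit P ∧
            ∀ a : A, P * Matrix.of (fun (p : Fin n × Fin m) (q : Fin n × Fin m) =>
                  FreeAlgebra.lift k ![X, Y] (φ a p.1 q.1) p.2 q.2) =
                Matrix.of (fun (p : Fin n × Fin m) (q : Fin n × Fin m) =>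
                  FreeAlgebra.lift k ![X', Y'] (φ a p.1 q.1) p.2 q.2) * P) →
          ∃ Q : Matrix (Fin m) (Fin m) k, IsUnit Q ∧ Q * X = X' * Q ∧ Q * Y = Y' * Q) :
    Refl (psi φ) := by
  rintro V V' ⟨e⟩
  let ek := e.restrictScalars k
  have hdim : Module.finrank k V'.car = Module.finrank k V.car := by
    have h1 := ek.finrank_eq
    have h2 : ∀ W : FDM k (Gam k), Module.finrank k (GT (psi φ) W.car) =
        n * Module.finrank k W.car := fun W => by
      refine (Module.finrank_pi_fintype k (M := fun _ : Fin n => W.car)).trans ?_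
      simp
    rw [h2, h2] at h1
    exact (Nat.eq_of_mul_eq_mul_left hn h1).symm
  let b := Module.finBasis k V.car
  let b' := Module.finBasisOfFinrankEq k V'.car hdim
  obtain ⟨Q, hQ, hQx, hQy⟩ := h _ (tau V' b' Gam.x) (tau V' b' Gam.y) (tau V b Gam.x) (tau V b Gam.y)
    ⟨(LinearMap.toMatrix (bG (psi φ) V b) (bG (psi φ) V' b') ek.toLinearMap)ᵀ, by
      rw [Matrix.isUnit_iff_isUnit_det, Matrix.det_transpose]
      exact LinearEquiv.isUnit_det ek _ _, fun a => by
      apply Matrix.transpose_injective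
      rw [Matrix.transpose_mul, Matrix.transpose_mul, Matrix.transpose_transpose, ← toMatrix_act,
        ← toMatrix_act, ← LinearMap.toMatrix_comp, ← LinearMap.toMatrix_comp]
      congr 1
      ext v
      exact (e.map_smul (op a) v).symm⟩
  let q : V.car →ₗ[k] V'.car := Matrix.toLin b b' Qᵀ
  have hq : LinearMap.toMatrix b b' q = Qᵀ := LinearMap.toMatrix_toLin _ _ _
  have hcomm : ∀ g : Gam k, Q * tau V' b' g = tau V b g * Q → ∀ v, q (g • v) = g • q v := by
    intro g hg v
    have h1 := congrArg Matrix.transpose hg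
    rw [Matrix.transpose_mul, Matrix.transpose_mul, ← hq] at h1
    simp only [tau, AlgHom.coe_mk, RingHom.coe_mk, MonoidHom.coe_mk, OneHom.coe_mk,
      Matrix.transpose_transpose] at h1
    rw [← LinearMap.toMatrix_comp, ← LinearMap.toMatrix_comp] at h1
    exact (LinearMap.congr_fun ((LinearMap.toMatrix b b').injective h1) v).symm
  let qe : V.car ≃ₗ[k] V'.car := LinearEquiv.ofIsUnitDet (f := q) (v := b) (v' := b') (by
    rw [hq, Matrix.det_transpose]
    exact (Matrix.isUnit_iff_isUnit_det Q).mp hQ)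
  refine ⟨{ qe with map_smul' := fun g v => ?_ }⟩
  change q (g • v) = g • q v
  rw [g.decomp]
  simp only [add_smul, smul_assoc, map_add, map_smul, mul_smul, one_smul, hcomm _ hQx, hcomm _ hQy]

theorem main :
    ∀ (k : Type) [Field k] (A : Type) [Ring A] [Algebra k A] [FiniteDimensional k A],
      (∃ n : ℕ, ∃ φ : A →ₐ[k] Matrix (Fin n) (Fin n) (FreeAlgebra k (Fin 2)),
        (∀ (m : ℕ) (X Y : Matrix (Fin m) (Fin m) k),
          (0 < m ∧ ∀ E : Matrix (Fin m) (Fin m) k,
              E * E = E → E * X = X * E → E * Y = Y * E → E = 0 ∨ E = 1) →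
          (Nonempty (Fin n × Fin m) ∧
            ∀ E : Matrix (Fin n × Fin m) (Fin n × Fin m) k, E * E = E →
              (∀ a : A, E * Matrix.of (fun (p : Fin n × Fin m) (q : Fin n × Fin m) =>
                    FreeAlgebra.lift k ![X, Y] (φ a p.1 q.1) p.2 q.2) =
                  Matrix.of (fun (p : Fin n × Fin m) (q : Fin n × Fin m) =>
                    FreeAlgebra.lift k ![X, Y] (φ a p.1 q.1) p.2 q.2) * E) →
              E = 0 ∨ E = 1)) ∧
        (∀ (m : ℕ) (X Y X' Y' : Matrix (Fin m) (Fin m) k),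
          (∃ P : Matrix (Fin n × Fin m) (Fin n × Fin m) k, IsUnit P ∧
            ∀ a : A, P * Matrix.of (fun (p : Fin n × Fin m) (q : Fin n × Fin m) =>
                  FreeAlgebra.lift k ![X, Y] (φ a p.1 q.1) p.2 q.2) =
                Matrix.of (fun (p : Fin n × Fin m) (q : Fin n × Fin m) =>
                  FreeAlgebra.lift k ![X', Y'] (φ a p.1 q.1) p.2 q.2) * P) →
          ∃ Q : Matrix (Fin m) (Fin m) k, IsUnit Q ∧ Q * X = X' * Q ∧ Q * Y = Y' * Q)) →
      ∃ (M : Type) (_ : AddCommGroup M) (_ : Module A M),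
        (∀ (N P : Type) [AddCommGroup N] [Module A N] [AddCommGroup P] [Module A P]
            (f : N →ₗ[A] P),
            (Function.Injective f ∧
              ∀ (p q : ℕ) (r : Matrix (Fin p) (Fin q) A) (b : Fin p → N),
                (∃ y : Fin q → P, ∀ i, ∑ j, r i j • y j = f (b i)) →
                ∃ x : Fin q → N, ∀ i, ∑ j, r i j • x j = b i) →
            ∀ g : N →ₗ[A] M, ∃ h : P →ₗ[A] M, h ∘ₗ f = g) ∧
        Nontrivial M ∧
        ∀ U : Submodule A M, (∃ V : Submodule A M, IsCompl U V) → U ≠ ⊥ →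
          ∃ U₁ U₂ : Submodule A M, U₁ ≠ ⊥ ∧ U₂ ≠ ⊥ ∧ U₁ ⊓ U₂ = ⊥ ∧ U₁ ⊔ U₂ = U := by
  rintro k _ A _ _ _ ⟨n, φ, h1, h2⟩
  have hn : 0 < n := by
    obtain ⟨⟨⟨i, -⟩⟩, -⟩ := h1 1 0 0 ⟨Nat.one_pos, fun E hE _ _ => by
      have h := congrFun (congrFun hE 0) 0
      simp only [Matrix.mul_apply, Finset.univ_unique, Fin.default_eq_zero, Finset.sum_singleton] at h
      rcases mul_eq_zero.mp (show E 0 0 * (E 0 0 - 1) = 0 by rw [mul_sub, h]; simp) with h0 | h0
      · left
        ext i j
        fin_cases i; fin_cases j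
        simpa using h0
      · right
        ext i j
        fin_cases i; fin_cases j
        simpa using sub_eq_zero.mp h0⟩
    exact i.pos
  obtain ⟨P, _, _, _, _, hP⟩ := exists_big (k := k) (B := Aᵐᵒᵖ)
  obtain ⟨x, y, hw⟩ := exists_wide (refl_psi hn φ h2) hP
  exact super_of_wide k A P hP _ hw

end Pool.Agent.P.MP_d2f293_al
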