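import Mathlib

/-!
pp conditions for left modules and Ziegler's width.
-/

set_option autoImplicit false

namespace Pool.Agent.P.MP_d2f293_al

/-- A pp condition in `n` free variables `x`: there are `y` with `a x + c y = 0`
(`l` equations, `m` bound variables). -/
structure PP (A : Type) (n : ℕ) : Type where
  l : ℕ
  m : ℕ
  a : Matrix (Fin l) (Fin n) A
  c : Matrix (Fin l) (Fin m) A

/-- The tuple `x` of the left module `M` satisfies the condition. -/
def PP.Sat {A : Type} [Ring A] {n : ℕ} (φ : PP A n) {M : Type} [AddCommGroup M] [Module A M]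
    (x : Fin n → M) : Prop :=
  ∃ y : Fin φ.m → M, ∀ j, ∑ i, φ.a j i • x i + ∑ t, φ.c j t • y t = 0

/-- Implication in all left modules. -/
def PP.Imp {A : Type} [Ring A] {n : ℕ} (φ ψ : PP A n) : Prop :=
  ∀ (M : Type) [AddCommGroup M] [Module A M] (x : Fin n → M), φ.Sat x → ψ.Sat x

/-- Ziegler's width: the interval from `b` up to `a` has width at most `α` if it is trivial, or if
for all `c`, `d` in it, with least upper bound `s`, one of the intervals from `c` to `s` and from
`d` to `s` has width at most some `β < α`. -/
def WidthLE {L : Type} (le : L → L → Prop) (α : Ordinal.{0}) (a b : L) : Prop :=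
  le a b ∨ ∀ c d s, le b c → le c a → le b d → le d a →
    (le c s ∧ le d s ∧ ∀ e, le c e → le d e → le s e) →
    ∃ β : {β : Ordinal.{0} // β < α}, WidthLE le β.1 s c ∨ WidthLE le β.1 s d
termination_by α
decreasing_by all_goals exact β.2

end Pool.Agent.P.MP_d2f293_al
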