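import Pool.Agent.P.MP_d2f293_al.Main

/-!
The version assuming only that isomorphism classes are reflected.
-/

set_option autoImplicit false

namespace Pool.Agent.P.MP_d2f293_al

theorem strong (k : Type) [Field k] (A : Type) [Ring A] [Algebra k A] [FiniteDimensional k A]
    (n : ℕ) (φ : A →ₐ[k] Matrix (Fin n) (Fin n) (FreeAlgebra k (Fin 2)))
    (h2 : ∀ (m : ℕ) (X Y X' Y' : Matrix (Fin m) (Fin m) k),
          (∃ P : Matrix (Fin n × Fin m) (Fin n × Fin m) k, IsUnit P ∧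
            ∀ a : A, P * Matrix.of (fun (p : Fin n × Fin m) (q : Fin n × Fin m) =>
                  FreeAlgebra.lift k ![X, Y] (φ a p.1 q.1) p.2 q.2) =
                Matrix.of (fun (p : Fin n × Fin m) (q : Fin n × Fin m) =>
                  FreeAlgebra.lift k ![X', Y'] (φ a p.1 q.1) p.2 q.2) * P) →
          ∃ Q : Matrix (Fin m) (Fin m) k, IsUnit Q ∧ Q * X = X' * Q ∧ Q * Y = Y' * Q) :
      ∃ (M : Type) (_ : AddCommGroup M) (_ : Module A M),
        (∀ (N P : Type) [AddCommGroup N] [Module A N] [AddCommGroup P] [Module A P]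
            (f : N →ₗ[A] P),
            (Function.Injective f ∧
              ∀ (p q : ℕ) (r : Matrix (Fin p) (Fin q) A) (b : Fin p → N),
                (∃ y : Fin q → P, ∀ i, ∑ j, r i j • y j = f (b i)) →
                ∃ x : Fin q → N, ∀ i, ∑ j, r i j • x j = b i) →
            ∀ g : N →ₗ[A] M, ∃ h : P →ₗ[A] M, h ∘ₗ f = g) ∧
        Nontrivial M ∧
        ∀ U : Submodule A M, (∃ V : Submodule A M, IsCompl U V) → U ≠ ⊥ →
          ∃ U₁ U₂ : Submodule A M, U₁ ≠ ⊥ ∧ U₂ ≠ ⊥ ∧ U₁ ⊓ U₂ = ⊥ ∧ U₁ ⊔ U₂ = U := by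
  have hn : 0 < n := by
    rcases Nat.eq_zero_or_pos n with rfl | hn
    · obtain ⟨Q, hQ, h, -⟩ := h2 1 0 0 1 0 ⟨1, isUnit_one, fun a => Subsingleton.elim _ _⟩
      rw [mul_zero, one_mul] at h
      exact absurd (h ▸ hQ) not_isUnit_zero
    · exact hn
  obtain ⟨P, _, _, _, _, hP⟩ := exists_big (k := k) (B := Aᵐᵒᵖ)
  obtain ⟨x, y, hw⟩ := exists_wide (refl_psi hn φ h2) hP
  exact super_of_wide k A P hP _ hw

end Pool.Agent.P.MP_d2f293_al
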