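import Pool.Agent.P.MP_d2f293_al.Hull

/-!
The module `Hom_S(P, E)` for a right module `P` with endomorphism ring `S` and an injective
`S`-module `E`.
-/

set_option autoImplicit false

namespace Pool.Agent.P.MP_d2f293_al

open MulOpposite TensorProduct

theorem factor_of_surj {R X Y Z : Type} [Ring R] [AddCommGroup X] [Module R X] [AddCommGroup Y]
    [Module R Y] [AddCommGroup Z] [Module R Z] (π : X →ₗ[R] Y) (hπ : Function.Surjective π)
    (ξ : X →ₗ[R] Z) (h : ∀ x, π x = 0 → ξ x = 0) : ∃ s : Y →ₗ[R] Z, ∀ x, s (π x) = ξ x := by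
  refine ⟨(LinearMap.ker π).liftQ ξ (fun x hx => h x hx) ∘ₗ
    (π.quotKerEquivOfSurjective hπ).symm.toLinearMap, fun x => ?_⟩
  have : (π.quotKerEquivOfSurjective hπ).symm (π x) = Submodule.Quotient.mk x := by
    rw [LinearEquiv.symm_apply_eq]
    rfl
  simp only [LinearMap.comp_apply, LinearEquiv.coe_coe, this]
  rfl

variable (A P E : Type) [Ring A] [AddCommGroup P] [Module Aᵐᵒᵖ P] [AddCommGroup E]
  [Module (Module.End Aᵐᵒᵖ P) E]

/-- The group of `S`-linear maps from `P` to `E`. -/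
def HM : Type := P →ₗ[Module.End Aᵐᵒᵖ P] E

instance : AddCommGroup (HM A P E) := inferInstanceAs (AddCommGroup (P →ₗ[Module.End Aᵐᵒᵖ P] E))

variable {A P E}

/-- The underlying linear map. -/
def HM.val (f : HM A P E) : P →ₗ[Module.End Aᵐᵒᵖ P] E := f

/-- A linear map as an element of `HM`. -/
def HM.of (f : P →ₗ[Module.End Aᵐᵒᵖ P] E) : HM A P E := f

theorem HM.ext {f g : HM A P E} (h : ∀ p, f.val p = g.val p) : f = g := LinearMap.ext h

@[simp] theorem HM.val_of (f : P →ₗ[Module.End Aᵐᵒᵖ P] E) : (HM.of f).val = f := rfl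
@[simp] theorem HM.val_add (f g : HM A P E) (p : P) : (f + g).val p = f.val p + g.val p := rfl
@[simp] theorem HM.val_sub (f g : HM A P E) (p : P) : (f - g).val p = f.val p - g.val p := rfl
@[simp] theorem HM.val_zero (p : P) : (0 : HM A P E).val p = 0 := rfl

theorem HM.val_sum {ι : Type} (s : Finset ι) (f : ι → HM A P E) (p : P) :
    (∑ i ∈ s, f i).val p = ∑ i ∈ s, (f i).val p := LinearMap.sum_apply s f p

variable (P) in
/-- Right multiplication as an `S`-linear map. -/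
def rmul (a : Aᵐᵒᵖ) : P →ₗ[Module.End Aᵐᵒᵖ P] P where
  toFun p := a • p
  map_add' := smul_add a
  map_smul' s p := (s.map_smul a p).symm

@[simp] theorem rmul_apply (a : Aᵐᵒᵖ) (p : P) : rmul P a p = a • p := rfl

instance : SMul A (HM A P E) := ⟨fun a f => HM.of (f.val ∘ₗ rmul P (op a))⟩

@[simp] theorem HM.val_smul (a : A) (f : HM A P E) (p : P) : (a • f).val p = f.val (op a • p) := rfl

instance : Module A (HM A P E) where
  one_smul f := HM.ext fun p => by simp
  mul_smul a b f := HM.ext fun p => by simp [mul_smul]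
  smul_zero a := HM.ext fun p => by simp
  smul_add a f g := HM.ext fun p => by simp
  add_smul a b f := HM.ext fun p => by simp [add_smul]
  zero_smul f := HM.ext fun p => by simp

/-- Postcomposition with an endomorphism of `E`. -/
def HM.post (κ : E →ₗ[Module.End Aᵐᵒᵖ P] E) : HM A P E →ₗ[A] HM A P E where
  toFun f := HM.of (κ ∘ₗ f.val)
  map_add' f g := HM.ext fun p => by simp
  map_smul' a f := HM.ext fun p => by simp

@[simp] theorem HM.val_post (κ : E →ₗ[Module.End Aᵐᵒᵖ P] E) (f : HM A P E) (p : P) :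
    (HM.post κ f).val p = κ (f.val p) := rfl

theorem HM.rel_gen [IsNoetherianRing Aᵐᵒᵖ] (hE : Module.Injective (Module.End Aᵐᵒᵖ P) E)
    {J : Type} [Fintype J] (f : J → HM A P E) (p : J → P) (ε : HM A P E →ₗ[A] HM A P E)
    (t : Module.End Aᵐᵒᵖ P) (ht : ∀ j, t (p j) = p j)
    (ht' : ∀ q, t q ∈ Submodule.span Aᵐᵒᵖ (Set.range p))
    (h0 : ∑ j, (f j).val (p j) = 0) : ∑ j, (ε (f j)).val (p j) = 0 := by
  classical
  let π : (J → Aᵐᵒᵖ) →ₗ[Aᵐᵒᵖ] P := Fintype.linearCombination Aᵐᵒᵖ p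
  obtain ⟨m, r, hr⟩ := Submodule.fg_iff_exists_fin_generating_family.mp
    (IsNoetherian.noetherian (LinearMap.ker π))
  let Ψ : (J → P) →ₗ[Module.End Aᵐᵒᵖ P] (Fin m → P) :=
    LinearMap.pi fun i => ∑ j, rmul P (r i j) ∘ₗ LinearMap.proj j
  have hΨ : ∀ x i, Ψ x i = ∑ j, r i j • x j := fun x i => by simp [Ψ]
  let g : (J → P) →ₗ[Module.End Aᵐᵒᵖ P] E := ∑ j, (f j).val ∘ₗ LinearMap.proj j
  have hg : ∀ x, g x = ∑ j, (f j).val (x j) := fun x => by simp [g]
  obtain ⟨h, hh⟩ := ext_of_ker_le hE Ψ g (by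
    intro x hx
    let ξ : (J → Aᵐᵒᵖ) →ₗ[Aᵐᵒᵖ] P := Fintype.linearCombination Aᵐᵒᵖ x
    have hker : LinearMap.ker π ≤ LinearMap.ker ξ := by
      rw [← hr, Submodule.span_le]
      rintro _ ⟨i, rfl⟩
      have := congrFun hx i
      rw [hΨ] at this
      simpa [ξ, Fintype.linearCombination_apply] using this
    obtain ⟨s', hs'⟩ := factor_of_surj π.rangeRestrict π.surjective_rangeRestrict ξ (by
      intro y hy
      exact hker (congrArg Subtype.val hy))
    have hmem : ∀ q, t q ∈ LinearMap.range π := fun q => by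
      simpa [π, Fintype.range_linearCombination] using ht' q
    let s : Module.End Aᵐᵒᵖ P := s' ∘ₗ t.codRestrict _ hmem
    have hs : ∀ j, s (p j) = x j := by
      intro j
      have e : t.codRestrict _ hmem (p j) = π.rangeRestrict (Pi.single j 1) := by
        ext
        simp [ht, π]
      simp only [s, LinearMap.comp_apply, e, hs']
      simp [ξ]
    rw [hg]
    calc ∑ j, (f j).val (x j) = ∑ j, s • (f j).val (p j) := by
          refine Finset.sum_congr rfl fun j _ => ?_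
          rw [← hs, ← map_smul]
          rfl
      _ = 0 := by rw [← Finset.smul_sum, h0, smul_zero])
  let hi : Fin m → HM A P E := fun i => HM.of (h ∘ₗ LinearMap.single _ (fun _ => P) i)
  have hf : ∀ j, f j = ∑ i, unop (r i j) • hi i := by
    intro j
    refine HM.ext fun q => ?_
    have e1 : (f j).val q = g (Pi.single j q) := by
      rw [hg, Finset.sum_eq_single j]
      · simp
      · intro b _ hb
        simp [hb]
      · simp
    rw [e1, ← hh, HM.val_sum]
    simp only [HM.val_smul, op_unop, hi, HM.val_of, LinearMap.comp_apply, ← map_sum]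
    congr 1
    ext i
    rw [hΨ, Finset.sum_eq_single j]
    · simp [Finset.sum_apply, Pi.single_apply]
    · intro b _ hb
      simp [hb]
    · simp
  calc ∑ j, (ε (f j)).val (p j) = ∑ j, ∑ i, (ε (hi i)).val (r i j • p j) := by
        refine Finset.sum_congr rfl fun j _ => ?_
        rw [hf, map_sum, HM.val_sum]
        simp
    _ = ∑ i, (ε (hi i)).val (∑ j, r i j • p j) := by
        rw [Finset.sum_comm]
        simp only [map_sum]
    _ = 0 := by
        refine Finset.sum_eq_zero fun i _ => ?_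
        have : r i ∈ LinearMap.ker π := hr ▸ Submodule.subset_span ⟨i, rfl⟩
        have : ∑ j, r i j • p j = 0 := by
          simpa [π, Fintype.linearCombination_apply] using this
        rw [this, map_zero]

variable (A P) in
/-- Finite subsets lie in finitely generated direct summands. -/
def Loc : Prop := ∀ s : Finset P, ∃ t : Module.End Aᵐᵒᵖ P, t * t = t ∧ (∀ p ∈ s, t p = p) ∧
  (LinearMap.range t).FG

theorem HM.rel [IsNoetherianRing Aᵐᵒᵖ] (hE : Module.Injective (Module.End Aᵐᵒᵖ P) E)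
    (hloc : Loc A P)
    {J : Type} [Fintype J] (f : J → HM A P E) (p : J → P) (ε : HM A P E →ₗ[A] HM A P E)
    (h0 : ∑ j, (f j).val (p j) = 0) : ∑ j, (ε (f j)).val (p j) = 0 := by
  classical
  obtain ⟨t, ht1, ht2, ht3⟩ := hloc (Finset.univ.image p)
  obtain ⟨m, b, hb⟩ := Submodule.fg_iff_exists_fin_generating_family.mp ht3
  have := HM.rel_gen hE (Sum.elim f (fun _ : Fin m => 0)) (Sum.elim p b) ε t (by
    rintro (j | j)
    · exact ht2 _ (by simp)
    · have : b j ∈ LinearMap.range t := hb ▸ Submodule.subset_span ⟨j, rfl⟩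
      obtain ⟨q, hq⟩ := this
      simp only [Sum.elim_inr]
      rw [← hq, ← Module.End.mul_apply, ht1]) (by
    intro q
    have : t q ∈ Submodule.span Aᵐᵒᵖ (Set.range b) := hb ▸ ⟨q, rfl⟩
    refine Submodule.span_mono ?_ this
    rintro _ ⟨j, rfl⟩
    exact ⟨Sum.inr j, rfl⟩) (by simpa using h0)
  simpa using this

theorem HM.exists_theta [IsNoetherianRing Aᵐᵒᵖ] (hE : Module.Injective (Module.End Aᵐᵒᵖ P) E)
    (hloc : Loc A P) (ε : HM A P E →ₗ[A] HM A P E) :
    ∃ θ : E →ₗ[Module.End Aᵐᵒᵖ P] E, ∀ f p, θ (HM.val f p) = (ε f).val p := by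
  obtain ⟨θ, hθ⟩ := ext_of_ker_le hE (Finsupp.lsum ℕ (fun f : HM A P E => f.val))
    (Finsupp.lsum ℕ (fun f : HM A P E => (ε f).val)) (by
      intro x hx
      rw [Finsupp.lsum_apply, Finsupp.sum, ← Finset.sum_coe_sort] at hx ⊢
      exact HM.rel hE hloc (fun f : x.support => f.1) (fun f => x f.1) ε hx)
  refine ⟨θ, fun f p => ?_⟩
  simpa using hθ (Finsupp.single f p)

variable (A P) in
/-- Elements in the trace of `P`. -/
def InTr (z : E) : Prop := ∃ (d : ℕ) (f : Fin d → HM A P E) (p : Fin d → P), z = ∑ l, (f l).val (p l)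

theorem inTr_of_fixed (hE : Module.Injective (Module.End Aᵐᵒᵖ P) E) (z : E)
    (t : Module.End Aᵐᵒᵖ P) (ht : (LinearMap.range t).FG) (hz : t • z = z) : InTr A P z := by
  classical
  obtain ⟨m, b, hb⟩ := Submodule.fg_iff_exists_fin_generating_family.mp ht
  obtain ⟨g, hg⟩ := ext_of_ker_le hE (LinearMap.toSpanSingleton (Module.End Aᵐᵒᵖ P) _ b)
    (LinearMap.toSpanSingleton (Module.End Aᵐᵒᵖ P) _ z) (by
      intro s hs
      have : s * t = 0 := by
        ext q
        have h1 : t q ∈ Submodule.span Aᵐᵒᵖ (Set.range b) := hb ▸ ⟨q, rfl⟩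
        have h2 : Submodule.span Aᵐᵒᵖ (Set.range b) ≤ LinearMap.ker s := by
          rw [Submodule.span_le]
          rintro _ ⟨j, rfl⟩
          exact congrFun hs j
        exact h2 h1
      rw [LinearMap.toSpanSingleton_apply, ← hz, smul_smul, this, zero_smul])
  refine ⟨m, fun l => HM.of (g ∘ₗ LinearMap.single _ (fun _ => P) l), b, ?_⟩
  have := hg 1
  simp only [LinearMap.toSpanSingleton_apply, one_smul] at this
  rw [← this]
  simp only [HM.val_of, LinearMap.comp_apply, ← map_sum]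
  congr 1
  ext i
  simp [Finset.sum_apply, Pi.single_apply]

theorem HM.superdecomposable [IsNoetherianRing Aᵐᵒᵖ]
    (hE : Module.Injective (Module.End Aᵐᵒᵖ P) E) (hloc : Loc A P)
    (hess : ∀ x : E, x ≠ 0 → ∃ s : Module.End Aᵐᵒᵖ P, s • x ≠ 0 ∧ InTr A P (s • x))
    (hnu : ∀ x : E, x ≠ 0 → ∃ s1 s2 : Module.End Aᵐᵒᵖ P, s1 • x ≠ 0 ∧ s2 • x ≠ 0 ∧
      ∀ r1 r2 : Module.End Aᵐᵒᵖ P, r1 • s1 • x = r2 • s2 • x → r1 • s1 • x = 0)
    (U V : Submodule A (HM A P E)) (hUV : IsCompl U V) (hU : U ≠ ⊥) :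
    ∃ U₁ U₂ : Submodule A (HM A P E), U₁ ≠ ⊥ ∧ U₂ ≠ ⊥ ∧ U₁ ⊓ U₂ = ⊥ ∧ U₁ ⊔ U₂ = U := by
  let ε : HM A P E →ₗ[A] HM A P E := U.subtype ∘ₗ U.projectionOnto V hUV
  have hεU : ∀ u ∈ U, ε u = u := fun u hu => by
    simp only [ε, LinearMap.comp_apply]
    rw [show u = ((⟨u, hu⟩ : U) : HM A P E) from rfl, Submodule.projectionOnto_apply_left]
    rfl
  have hεmem : ∀ f, ε f ∈ U := fun f => (U.projectionOnto V hUV f).2
  have hεε : ∀ f, ε (ε f) = ε f := fun f => hεU _ (hεmem f)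
  obtain ⟨θ, hθ⟩ := HM.exists_theta hE hloc ε
  obtain ⟨f0, hf0U, hf0⟩ := Submodule.exists_mem_ne_zero_of_ne_bot hU
  obtain ⟨p0, hp0⟩ : ∃ p0, f0.val p0 ≠ 0 := by
    by_contra hcon
    push Not at hcon
    exact hf0 (HM.ext hcon)
  set x := f0.val p0 with hx
  have hθx : θ x = x := by rw [hx, hθ, hεU _ hf0U]
  obtain ⟨s1, s2, hs1, hs2, hind⟩ := hnu x hp0
  obtain ⟨E1, hWE, hE1ess, hE1⟩ := exists_hull hE (Submodule.span (Module.End Aᵐᵒᵖ P) {s1 • x})
  obtain ⟨π, hπ⟩ := ext_of_ker_le hE1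
    (E1.subtype.coprod (LinearMap.toSpanSingleton (Module.End Aᵐᵒᵖ P) _ (s2 • x)))
    (LinearMap.fst _ _ _) (by
      rintro ⟨e, r⟩ h
      by_contra he
      obtain ⟨s, hs, hs0⟩ := hE1ess e e.2 (fun h => he (Subtype.ext h))
      obtain ⟨r1, hr1⟩ := Submodule.mem_span_singleton.mp hs
      refine hs0 (hr1 ▸ hind r1 (-(s * r)) ?_)
      have h' : (e : E) = - (r • s2 • x) := eq_neg_of_add_eq_zero_left (by simpa using h)
      rw [hr1, h', smul_neg, neg_smul, mul_smul])
  have hπ1 : ∀ e : E1, π e = e := fun e => by simpa using hπ (e, 0)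
  have hπ2 : ∀ r : Module.End Aᵐᵒᵖ P, π (r • s2 • x) = 0 := fun r => by simpa using hπ (0, r)
  have hγ : ∀ e : E1, (e : E) ∈ Submodule.span (Module.End Aᵐᵒᵖ P) {s1 • x} → π (θ e) = e := by
    intro e he
    obtain ⟨r1, hr1⟩ := Submodule.mem_span_singleton.mp he
    have : θ e = e := by rw [← hr1, map_smul, map_smul, hθx]
    rw [this, hπ1]
  obtain ⟨δ, hδ⟩ := ext_of_ker_le hE1 (π ∘ₗ θ ∘ₗ E1.subtype) LinearMap.id (by
    intro e h
    by_contra he
    obtain ⟨s, hs, hs0⟩ := hE1ess e e.2 (fun h => he (Subtype.ext h))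
    have h1 := hγ (s • e) hs
    have h2 : π (θ e) = 0 := h
    rw [Submodule.coe_smul, map_smul, map_smul, h2, smul_zero] at h1
    exact hs0 (congrArg Subtype.val h1).symm)
  have hδ' : ∀ e : E1, δ (π (θ e)) = e := hδ
  let κ : E →ₗ[Module.End Aᵐᵒᵖ P] E := E1.subtype ∘ₗ δ ∘ₗ π
  have hκ : ∀ y, κ y = (δ (π y) : E) := fun y => rfl
  let η : HM A P E →ₗ[A] HM A P E := ε ∘ₗ HM.post κ ∘ₗ ε
  have hη : ∀ f p, (η f).val p = θ (κ (θ (f.val p))) := by
    intro f p
    simp only [η, LinearMap.comp_apply]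
    rw [← hθ, HM.val_post, hθ]
  have hηε : ∀ f, η (ε f) = η f := fun f => by simp only [η, LinearMap.comp_apply, hεε]
  have hεη : ∀ f, ε (η f) = η f := fun f => by simp only [η, LinearMap.comp_apply, hεε]
  have hηη : ∀ f, η (η f) = η f := by
    intro f
    refine HM.ext fun p => ?_
    rw [hη, hθ, hεη, hη, hκ (θ (κ _)), hκ (θ (f.val p)), hδ']
  refine ⟨LinearMap.range η, LinearMap.range (ε - η), fun h => ?_, fun h => ?_, ?_, ?_⟩
  · obtain ⟨s, hs0, d, f, p, hs⟩ := hess _ hs1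
    have hw : s • s1 • x ∈ Submodule.span (Module.End Aᵐᵒᵖ P) {s1 • x} :=
      Submodule.smul_mem _ _ (Submodule.mem_span_singleton_self _)
    have hθw : θ (s • s1 • x) = s • s1 • x := by rw [map_smul, map_smul, hθx]
    have h1 : θ (κ (θ (s • s1 • x))) = s • s1 • x := by
      rw [hκ, hδ' ⟨_, hWE hw⟩, hθw]
    rw [LinearMap.range_eq_bot] at h
    apply hs0
    rw [← h1, hs]
    simp only [map_sum, ← hη, h, LinearMap.zero_apply, HM.val_zero, Finset.sum_const_zero]
  · obtain ⟨s, hs0, d, f, p, hs⟩ := hess _ hs2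
    have hθw : θ (s • s2 • x) = s • s2 • x := by rw [map_smul, map_smul, hθx]
    have h1 : θ (s • s2 • x) - θ (κ (θ (s • s2 • x))) = s • s2 • x := by
      rw [hθw, hκ, hπ2]
      simp
    rw [LinearMap.range_eq_bot] at h
    apply hs0
    rw [← h1, hs]
    simp only [map_sum, ← hη, ← Finset.sum_sub_distrib]
    refine Finset.sum_eq_zero fun l _ => ?_
    rw [hθ, ← HM.val_sub, ← LinearMap.sub_apply, h]
    rfl
  · rw [eq_bot_iff]
    rintro y ⟨⟨a, ha⟩, ⟨b, hb⟩⟩
    have h1 : η y = y := by rw [← ha, hηη]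
    rw [Submodule.mem_bot, ← h1, ← hb, LinearMap.sub_apply, map_sub, hηε, hηη, sub_self]
  · apply le_antisymm
    · refine sup_le ?_ ?_
      · rintro _ ⟨a, rfl⟩
        rw [← hεη]
        exact hεmem _
      · rintro _ ⟨a, rfl⟩
        rw [LinearMap.sub_apply, ← hεη]
        exact U.sub_mem (hεmem _) (hεmem _)
    · intro u hu
      refine Submodule.mem_sup.mpr ⟨η u, ⟨u, rfl⟩, (ε - η) u, ⟨u, rfl⟩, ?_⟩
      rw [LinearMap.sub_apply, hεU u hu, add_sub_cancel]

end Pool.Agent.P.MP_d2f293_al
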