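import Mathlib

/-!
Wide pairs in a modular lattice, and the congruence collapsing the non-wide pairs.
-/

set_option autoImplicit false

namespace Pool.Agent.P.MP_d2f293_al

variable {K : Type} [Lattice K]

/-- `Wide x y`: the interval `[y, x ⊔ y]` carries an infinite binary tree of incomparable pairs. -/
def Wide (x y : K) : Prop :=
  ∃ T : K → K → Prop, T x y ∧ ∀ p q, T p q →
    ¬ p ≤ q ∧ ∃ c d, q ≤ c ∧ q ≤ d ∧ c ≤ p ⊔ q ∧ d ≤ p ⊔ q ∧ T c d ∧ T d c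

theorem Wide.coind (T : K → K → Prop) (hT : ∀ p q, T p q →
    ¬ p ≤ q ∧ ∃ c d, q ≤ c ∧ q ≤ d ∧ c ≤ p ⊔ q ∧ d ≤ p ⊔ q ∧ T c d ∧ T d c)
    {x y : K} (h : T x y) : Wide x y := ⟨T, h, hT⟩

theorem Wide.not_le {x y : K} (h : Wide x y) : ¬ x ≤ y := by
  obtain ⟨T, hxy, hT⟩ := h
  exact (hT x y hxy).1

theorem Wide.split {x y : K} (h : Wide x y) :
    ∃ c d, y ≤ c ∧ y ≤ d ∧ c ≤ x ⊔ y ∧ d ≤ x ⊔ y ∧ Wide c d ∧ Wide d c := by
  obtain ⟨T, hxy, hT⟩ := h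
  obtain ⟨-, c, d, h1, h2, h3, h4, h5, h6⟩ := hT x y hxy
  exact ⟨c, d, h1, h2, h3, h4, ⟨T, h5, hT⟩, ⟨T, h6, hT⟩⟩

theorem Wide.enlarge {x y x' y' : K} (h : Wide x y) (hy : y' ≤ y) (hx : x ⊔ y ≤ x' ⊔ y') :
    Wide x' y' := by
  refine Wide.coind (fun p q => Wide p q ∨ (p = x' ∧ q = y')) ?_ (Or.inr ⟨rfl, rfl⟩)
  rintro p q (hpq | ⟨rfl, rfl⟩)
  · obtain ⟨c, d, h1, h2, h3, h4, h5, h6⟩ := hpq.split
    exact ⟨hpq.not_le, c, d, h1, h2, h3, h4, Or.inl h5, Or.inl h6⟩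
  · obtain ⟨c, d, h1, h2, h3, h4, h5, h6⟩ := h.split
    refine ⟨fun hle => h.not_le ?_, c, d, hy.trans h1, hy.trans h2, h3.trans hx, h4.trans hx,
      Or.inl h5, Or.inl h6⟩
    exact le_sup_left.trans (hx.trans ((sup_le hle le_rfl).trans hy))

variable [IsModularLattice K]

theorem Wide.down {x y z : K} (h : Wide x y) (hz : x ≤ ((x ⊔ y) ⊓ z) ⊔ y) :
    Wide ((x ⊔ y) ⊓ z) (y ⊓ z) := by
  have key : ∀ p, y ≤ p → p ≤ x ⊔ y → p = (p ⊓ z) ⊔ y := by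
    intro p hp1 hp2
    apply le_antisymm
    · have h1 : p ≤ (((x ⊔ y) ⊓ z) ⊔ y) := hp2.trans (sup_le hz le_sup_right)
      have h2 : (y ⊔ ((x ⊔ y) ⊓ z)) ⊓ p = y ⊔ (((x ⊔ y) ⊓ z) ⊓ p) := sup_inf_assoc_of_le _ hp1
      have h3 : p ≤ (y ⊔ ((x ⊔ y) ⊓ z)) ⊓ p := le_inf (by rwa [sup_comm]) le_rfl
      rw [h2] at h3
      refine h3.trans (sup_le le_sup_right (le_sup_left.trans' ?_))
      exact le_inf inf_le_right (inf_le_left.trans inf_le_right)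
    · exact sup_le inf_le_left hp1
  refine Wide.coind (fun p' q' => ∃ p q, Wide p q ∧ y ≤ p ∧ y ≤ q ∧ p ≤ x ⊔ y ∧ q ≤ x ⊔ y ∧
    p' = p ⊓ z ∧ q' = q ⊓ z) ?_
    ⟨x ⊔ y, y, h.enlarge le_rfl (by simp), le_sup_right, le_rfl, le_rfl, le_sup_right, rfl, rfl⟩
  rintro _ _ ⟨p, q, hpq, hp1, hq1, hp2, hq2, rfl, rfl⟩
  obtain ⟨c, d, h1, h2, h3, h4, h5, h6⟩ := hpq.split
  have hsup : (p ⊔ q) ⊓ z ≤ (p ⊓ z) ⊔ (q ⊓ z) := by
    have e1 : p ⊔ q = ((p ⊓ z) ⊔ (q ⊓ z)) ⊔ y := by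
      conv_lhs => rw [key p hp1 hp2, key q hq1 hq2]
      ac_rfl
    rw [e1, sup_inf_assoc_of_le _ (sup_le inf_le_right inf_le_right)]
    exact sup_le le_rfl (le_sup_left.trans' (inf_le_inf_right _ hp1))
  refine ⟨fun hle => hpq.not_le ?_, c ⊓ z, d ⊓ z, inf_le_inf_right _ h1, inf_le_inf_right _ h2,
    (inf_le_inf_right _ h3).trans hsup, (inf_le_inf_right _ h4).trans hsup,
    ⟨c, d, h5, hq1.trans h1, hq1.trans h2, h3.trans (sup_le hp2 hq2), h4.trans (sup_le hp2 hq2),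
      rfl, rfl⟩,
    ⟨d, c, h6, hq1.trans h2, hq1.trans h1, h4.trans (sup_le hp2 hq2), h3.trans (sup_le hp2 hq2),
      rfl, rfl⟩⟩
  rw [key p hp1 hp2]
  exact sup_le (hle.trans inf_le_left) hq1

theorem Wide.up {x y z : K} (h : Wide x y) (hz : (x ⊔ y) ⊓ z ≤ y) :
    Wide (x ⊔ z) (y ⊔ z) := by
  have key : ∀ p, y ≤ p → p ≤ x ⊔ y → (p ⊔ z) ⊓ (x ⊔ y) = p := by
    intro p hp1 hp2
    rw [sup_inf_assoc_of_le _ hp2, inf_comm]
    exact sup_eq_left.mpr (hz.trans hp1)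
  have : Wide ((x ⊔ y) ⊔ z) (y ⊔ z) := by
    refine Wide.coind (fun p' q' => ∃ p q, Wide p q ∧ y ≤ p ∧ y ≤ q ∧ p ≤ x ⊔ y ∧ q ≤ x ⊔ y ∧
      p' = p ⊔ z ∧ q' = q ⊔ z) ?_
      ⟨x ⊔ y, y, h.enlarge le_rfl (by simp), le_sup_right, le_rfl, le_rfl, le_sup_right, rfl, rfl⟩
    rintro _ _ ⟨p, q, hpq, hp1, hq1, hp2, hq2, rfl, rfl⟩
    obtain ⟨c, d, h1, h2, h3, h4, h5, h6⟩ := hpq.split
    have hsup : (p ⊔ q) ⊔ z ≤ (p ⊔ z) ⊔ (q ⊔ z) :=
      sup_le (sup_le_sup le_sup_left le_sup_left) (le_sup_right.trans le_sup_left)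
    refine ⟨fun hle => hpq.not_le ?_, c ⊔ z, d ⊔ z, sup_le_sup_right h1 _, sup_le_sup_right h2 _,
      (sup_le_sup_right h3 _).trans hsup, (sup_le_sup_right h4 _).trans hsup,
      ⟨c, d, h5, hq1.trans h1, hq1.trans h2, h3.trans (sup_le hp2 hq2), h4.trans (sup_le hp2 hq2),
        rfl, rfl⟩,
      ⟨d, c, h6, hq1.trans h2, hq1.trans h1, h4.trans (sup_le hp2 hq2), h3.trans (sup_le hp2 hq2),
        rfl, rfl⟩⟩
    rw [← key p hp1 hp2, ← key q hq1 hq2]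
    exact inf_le_inf_right _ hle
  refine this.enlarge le_rfl ?_
  exact sup_le (sup_le (sup_le (le_sup_left.trans le_sup_left) (le_sup_left.trans le_sup_right))
    (le_sup_right.trans le_sup_left)) le_sup_right

theorem Wide.of_sup {x y z : K} (h : Wide (x ⊔ z) (y ⊔ z)) : Wide x y := by
  have h1 := h.down (z := x ⊔ y) (by
    refine sup_le (le_sup_left.trans' (le_inf ?_ le_sup_left)) (le_sup_right.trans le_sup_right)
    exact le_sup_left.trans le_sup_left)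
  refine h1.enlarge (le_inf le_sup_left le_sup_right) ?_
  exact sup_le inf_le_right inf_le_right

theorem Wide.of_inf {x y z : K} (h : Wide (x ⊓ z) (y ⊓ z)) : Wide x y := by
  have h1 := h.up (z := y) (by
    refine le_inf inf_le_right (inf_le_left.trans (sup_le inf_le_right inf_le_right)))
  refine h1.enlarge le_sup_right ?_
  exact sup_le (sup_le_sup_right inf_le_left _) (sup_le (inf_le_left.trans le_sup_right) le_sup_right)

theorem Wide.mono {x y x' y' : K} (h : Wide x y) (hx : x ≤ x') (hy : y' ≤ y) : Wide x' y' := by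
  have h1 : Wide (x ⊔ y) (y' ⊔ y) := by
    rw [sup_eq_right.mpr hy]
    exact h.enlarge le_rfl (by simp)
  exact h1.of_sup.enlarge le_rfl (sup_le_sup_right hx _)

theorem Wide.cotrans {x y z : K} (h : Wide x z) (hyz : ¬ Wide y z) : Wide x y := by
  have : Wide x (y ⊔ z) := by
    refine Wide.coind (fun p q => ∃ q0, q0 ≤ q ∧ Wide p q0 ∧ ¬ Wide q q0) ?_
      ⟨z, le_sup_right, h, fun hw => hyz (hw.enlarge le_rfl (by simp))⟩
    rintro p q ⟨q0, hq, hp, hnq⟩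
    obtain ⟨c, d, h1, h2, h3, h4, h5, h6⟩ := hp.split
    refine ⟨fun hle => hnq (hp.mono hle le_rfl), c ⊔ q, d ⊔ q, le_sup_right, le_sup_right,
      sup_le (h3.trans (sup_le_sup_left hq _)) le_sup_right,
      sup_le (h4.trans (sup_le_sup_left hq _)) le_sup_right,
      ⟨d, le_sup_left, h5.mono le_sup_left le_rfl, fun hw => hnq ?_⟩,
      ⟨c, le_sup_left, h6.mono le_sup_left le_rfl, fun hw => hnq ?_⟩⟩
    · apply Wide.of_sup (z := d)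
      rwa [sup_eq_right.mpr h2, sup_comm]
    · apply Wide.of_sup (z := c)
      rwa [sup_eq_right.mpr h1, sup_comm]
  exact this.mono le_rfl le_sup_left

/-- Two families of nested intervals whose rectangles never degenerate give a wide pair. -/
theorem wide_of_rect (alo ahi blo bhi : List Bool → K)
    (ha0 : ∀ s, alo s ≤ alo (s ++ [true])) (ha1 : ∀ s, ahi (s ++ [true]) ≤ alo (s ++ [false]))
    (ha2 : ∀ s, ahi (s ++ [false]) ≤ ahi s) (ha3 : ∀ s, alo s ≤ ahi s)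
    (hb0 : ∀ s, blo s ≤ blo (s ++ [true])) (hb1 : ∀ s, bhi (s ++ [true]) ≤ blo (s ++ [false]))
    (hb2 : ∀ s, bhi (s ++ [false]) ≤ bhi s) (hb3 : ∀ s, blo s ≤ bhi s)
    (hn : ∀ s t, ¬ ahi s ⊓ bhi t ≤ alo s ⊔ blo t) :
    Wide (ahi [] ⊓ bhi []) (alo [] ⊔ blo []) := by
  refine Wide.coind (fun x y => ∃ s t, ahi s ⊓ bhi t ≤ x ⊔ y ∧
    y ⊓ (ahi s ⊓ bhi t) ≤ alo s ⊔ blo t) ?_ ⟨[], [], le_sup_left, inf_le_left⟩
  rintro x y ⟨s, t, h1, h2⟩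
  have a1 : ahi (s ++ [true]) ≤ ahi s := (ha1 s).trans ((ha3 _).trans (ha2 s))
  have b1 : bhi (t ++ [true]) ≤ bhi t := (hb1 t).trans ((hb3 _).trans (hb2 t))
  have a2 : alo s ≤ alo (s ++ [false]) := (ha0 s).trans ((ha3 _).trans (ha1 s))
  have b2 : blo t ≤ blo (t ++ [false]) := (hb0 t).trans ((hb3 _).trans (hb1 t))
  have c1 : ahi (s ++ [true]) ⊓ bhi (t ++ [false]) ≤ ahi s ⊓ bhi t := inf_le_inf a1 (hb2 t)
  have d1 : ahi (s ++ [false]) ⊓ bhi (t ++ [true]) ≤ ahi s ⊓ bhi t := inf_le_inf (ha2 s) b1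
  refine ⟨fun hle => hn s t ?_, y ⊔ (ahi (s ++ [true]) ⊓ bhi (t ++ [false])),
    y ⊔ (ahi (s ++ [false]) ⊓ bhi (t ++ [true])), le_sup_left, le_sup_left,
    sup_le le_sup_right (c1.trans h1), sup_le le_sup_right (d1.trans h1),
    ⟨s ++ [true], t ++ [false], le_sup_right.trans le_sup_left, ?_⟩,
    ⟨s ++ [false], t ++ [true], le_sup_right.trans le_sup_left, ?_⟩⟩
  · exact (le_inf (h1.trans (sup_le hle le_rfl)) le_rfl).trans h2
  · refine (inf_le_inf_left _ c1).trans ?_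
    rw [sup_comm y, sup_inf_assoc_of_le _ d1]
    refine sup_le (inf_le_right.trans ((hb1 t).trans le_sup_right)) (h2.trans ?_)
    exact sup_le_sup (ha0 s) b2
  · refine (inf_le_inf_left _ d1).trans ?_
    rw [sup_comm y, sup_inf_assoc_of_le _ c1]
    refine sup_le (inf_le_left.trans ((ha1 s).trans le_sup_left)) (h2.trans ?_)
    exact sup_le_sup a2 (hb0 t)

/-! The quotient lattice. -/

variable (K) in
/-- Two elements are identified when neither of the two pairs is wide. -/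
def wsetoid : Setoid K where
  r a b := ¬ Wide a b ∧ ¬ Wide b a
  iseqv :=
    { refl := fun _ => ⟨fun h => h.not_le le_rfl, fun h => h.not_le le_rfl⟩
      symm := fun h => ⟨h.2, h.1⟩
      trans := fun h1 h2 => ⟨fun h => h1.1 (h.cotrans h2.1), fun h => h2.2 (h.cotrans h1.2)⟩ }

variable (K) in
/-- The quotient lattice. -/
def WQ : Type := Quotient (wsetoid K)

theorem nw_trans {a b c : K} (h1 : ¬ Wide a b) (h2 : ¬ Wide b c) : ¬ Wide a c :=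
  fun h => h1 (h.cotrans h2)

theorem nw_of_le {a b : K} (h : a ≤ b) : ¬ Wide a b := fun hw => hw.not_le h

theorem nw_sup {a b c d : K} (h1 : ¬ Wide a b) (h2 : ¬ Wide c d) : ¬ Wide (a ⊔ c) (b ⊔ d) := by
  refine nw_trans (b := b ⊔ c) (fun h => h1 h.of_sup) (fun h => h2 ?_)
  apply Wide.of_sup (z := b)
  rwa [sup_comm c, sup_comm d]

theorem nw_inf {a b c d : K} (h1 : ¬ Wide a b) (h2 : ¬ Wide c d) : ¬ Wide (a ⊓ c) (b ⊓ d) := by
  refine nw_trans (b := b ⊓ c) (fun h => h1 h.of_inf) (fun h => h2 ?_)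
  apply Wide.of_inf (z := b)
  rwa [inf_comm c, inf_comm d]

/-- The class of an element. -/
def WQ.mk (a : K) : WQ K := Quotient.mk (wsetoid K) a

theorem WQ.mk_surj (x : WQ K) : ∃ a, WQ.mk a = x := Quotient.exists_rep x

instance : Lattice (WQ K) where
  le := Quotient.lift₂ (fun a b => ¬ Wide a b) (by
    intro a b a' b' ha hb
    apply propext
    exact ⟨fun h => nw_trans ha.2 (nw_trans h hb.1), fun h => nw_trans ha.1 (nw_trans h hb.2)⟩)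
  le_refl := by
    rintro ⟨a⟩
    exact nw_of_le le_rfl
  le_trans := by
    rintro ⟨a⟩ ⟨b⟩ ⟨c⟩ h1 h2
    exact nw_trans h1 h2
  le_antisymm := by
    rintro ⟨a⟩ ⟨b⟩ h1 h2
    exact Quotient.sound ⟨h1, h2⟩
  sup := Quotient.map₂ (· ⊔ ·) (fun _ _ ha _ _ hb => ⟨nw_sup ha.1 hb.1, nw_sup ha.2 hb.2⟩)
  inf := Quotient.map₂ (· ⊓ ·) (fun _ _ ha _ _ hb => ⟨nw_inf ha.1 hb.1, nw_inf ha.2 hb.2⟩)
  le_sup_left := by
    rintro ⟨a⟩ ⟨b⟩
    exact nw_of_le le_sup_left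
  le_sup_right := by
    rintro ⟨a⟩ ⟨b⟩
    exact nw_of_le le_sup_right
  sup_le := by
    rintro ⟨a⟩ ⟨b⟩ ⟨c⟩ h1 h2
    have := nw_sup h1 h2
    rw [sup_idem] at this
    exact this
  inf_le_left := by
    rintro ⟨a⟩ ⟨b⟩
    exact nw_of_le inf_le_left
  inf_le_right := by
    rintro ⟨a⟩ ⟨b⟩
    exact nw_of_le inf_le_right
  le_inf := by
    rintro ⟨a⟩ ⟨b⟩ ⟨c⟩ h1 h2
    have := nw_inf h1 h2
    rw [inf_idem] at this
    exact this

theorem WQ.mk_le {a b : K} : WQ.mk a ≤ WQ.mk b ↔ ¬ Wide a b := Iff.rfl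
theorem WQ.mk_sup (a b : K) : WQ.mk (a ⊔ b) = WQ.mk a ⊔ WQ.mk b := rfl
theorem WQ.mk_inf (a b : K) : WQ.mk (a ⊓ b) = WQ.mk a ⊓ WQ.mk b := rfl
theorem WQ.mk_mono {a b : K} (h : a ≤ b) : WQ.mk a ≤ WQ.mk b := nw_of_le h

instance : IsModularLattice (WQ K) where
  sup_inf_le_assoc_of_le := by
    intro x y z h
    obtain ⟨a, rfl⟩ := WQ.mk_surj x
    obtain ⟨b, rfl⟩ := WQ.mk_surj y
    obtain ⟨c, rfl⟩ := WQ.mk_surj z
    have e : WQ.mk a = WQ.mk (a ⊓ c) := by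
      rw [WQ.mk_inf]
      exact (inf_eq_left.mpr h).symm
    rw [e, ← WQ.mk_sup, ← WQ.mk_inf, ← WQ.mk_inf, ← WQ.mk_sup]
    exact WQ.mk_mono (le_of_eq (sup_inf_assoc_of_le _ inf_le_right))

theorem WQ.split {x y : WQ K} (hyx : y ≤ x) (h : ¬ x ≤ y) :
    ∃ c d, y ≤ c ∧ y ≤ d ∧ c ≤ x ∧ d ≤ x ∧ ¬ c ≤ d ∧ ¬ d ≤ c := by
  obtain ⟨a, rfl⟩ := WQ.mk_surj x
  obtain ⟨b, rfl⟩ := WQ.mk_surj y
  rw [WQ.mk_le, not_not] at h
  obtain ⟨c, d, h1, h2, h3, h4, h5, h6⟩ := h.split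
  have e : WQ.mk (a ⊔ b) ≤ WQ.mk a := by
    rw [WQ.mk_sup]
    exact sup_le le_rfl hyx
  exact ⟨WQ.mk c, WQ.mk d, WQ.mk_mono h1, WQ.mk_mono h2, (WQ.mk_mono h3).trans e,
    (WQ.mk_mono h4).trans e, fun h => h h5, fun h => h h6⟩

end Pool.Agent.P.MP_d2f293_al
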