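import Pool.Agent.P.MP_d2f293_al.Big
import Pool.Agent.P.MP_d2f293_al.Gam

/-!
A tensor functor that reflects isomorphism classes of finite-dimensional modules reflects
factorisations, hence transports wide pairs.
-/

set_option autoImplicit false

namespace Pool.Agent.P.MP_d2f293_al

theorem miyata {k R : Type} [Field k] [Ring R] [Algebra k R] (Y Z W : FDM k R)
    (g : Y.car →ₗ[R] Z.car) (q : Z.car →ₗ[R] W.car) (hq : Function.Surjective q)
    (hker : ∀ z, q z = 0 → ∃ y, g y = z) (e : Z.car ≃ₗ[R] Y.car × W.car) :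
    ∃ ρ : Z.car →ₗ[R] Y.car, ∀ y, ρ (g y) = y := by
  have hfd : ∀ V : FDM k R, FiniteDimensional k (V.car →ₗ[R] Y.car) := fun V =>
    Module.Finite.of_injective (LinearMap.restrictScalarsₗ k R V.car Y.car k)
      (LinearMap.restrictScalars_injective k)
  have := hfd Y
  have := hfd Z
  have := hfd W
  let res : (Z.car →ₗ[R] Y.car) →ₗ[k] (Y.car →ₗ[R] Y.car) :=
    { toFun := fun u => u ∘ₗ g
      map_add' := fun _ _ => LinearMap.add_comp _ _ _
      map_smul' := fun _ _ => rfl }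
  let pq : (W.car →ₗ[R] Y.car) →ₗ[k] (Z.car →ₗ[R] Y.car) :=
    { toFun := fun u => u ∘ₗ q
      map_add' := fun _ _ => LinearMap.add_comp _ _ _
      map_smul' := fun _ _ => rfl }
  have h1 : LinearMap.ker res ≤ LinearMap.range pq := by
    intro u hu
    obtain ⟨s, hs⟩ := factor_of_surj q hq u (fun z hz => by
      obtain ⟨y, rfl⟩ := hker z hz
      exact LinearMap.congr_fun hu y)
    exact ⟨s, LinearMap.ext hs⟩
  have h2 : Module.finrank k (LinearMap.ker res) ≤ Module.finrank k (W.car →ₗ[R] Y.car) :=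
    (Submodule.finrank_mono h1).trans (LinearMap.finrank_range_le pq)
  let pe : ((Y.car →ₗ[R] Y.car) × (W.car →ₗ[R] Y.car)) →ₗ[k] (Z.car →ₗ[R] Y.car) :=
    { toFun := fun u => (u.1.coprod u.2) ∘ₗ e.toLinearMap
      map_add' := fun u v => by
        ext z
        simp only [LinearMap.comp_apply, LinearMap.coprod_apply, Prod.fst_add, Prod.snd_add,
          LinearMap.add_apply]
        abel
      map_smul' := fun c u => by ext z; simp }
  have hpe : Function.Injective pe := by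
    rw [injective_iff_map_eq_zero]
    intro u hu
    ext y
    · simpa [pe] using LinearMap.congr_fun hu (e.symm (y, 0))
    · simpa [pe] using LinearMap.congr_fun hu (e.symm (0, y))
  have h3 := LinearMap.finrank_le_finrank_of_injective hpe
  rw [Module.finrank_prod] at h3
  have h4 := res.finrank_range_add_finrank_ker
  have h5 : LinearMap.range res = ⊤ :=
    Submodule.eq_top_of_finrank_eq (le_antisymm (Submodule.finrank_le _) (by omega))
  obtain ⟨ρ, hρ⟩ := LinearMap.range_eq_top.mp h5 LinearMap.id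
  exact ⟨ρ, fun y => LinearMap.congr_fun hρ y⟩

variable {k B Γ : Type} [Field k] [Ring B] [Algebra k B] [CommRing Γ] [Algebra k Γ] {n : ℕ}

/-- The underlying type of the tensor functor. -/
def GT (_ : B →ₐ[k] Matrix (Fin n) (Fin n) Γ) (V : Type) : Type := Fin n → V

variable (ψ : B →ₐ[k] Matrix (Fin n) (Fin n) Γ)

section inst

variable (V : Type) [AddCommGroup V] [Module Γ V]

instance : AddCommGroup (GT ψ V) := inferInstanceAs (AddCommGroup (Fin n → V))
instance [Module k V] : Module k (GT ψ V) := inferInstanceAs (Module k (Fin n → V))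
instance [Module k V] [FiniteDimensional k V] : FiniteDimensional k (GT ψ V) :=
  inferInstanceAs (FiniteDimensional k (Fin n → V))
instance : SMul B (GT ψ V) := ⟨fun b v i => ∑ j, ψ b i j • v j⟩

variable {ψ V}

theorem GT.smul_apply (b : B) (v : GT ψ V) (i : Fin n) : (b • v) i = ∑ j, ψ b i j • v j := rfl
theorem GT.add_apply (v w : GT ψ V) (i : Fin n) : (v + w) i = v i + w i := rfl
theorem GT.sub_apply (v w : GT ψ V) (i : Fin n) : (v - w) i = v i - w i := rfl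
theorem GT.neg_apply (v : GT ψ V) (i : Fin n) : (-v) i = -v i := rfl
theorem GT.zero_apply (i : Fin n) : (0 : GT ψ V) i = 0 := rfl

variable (ψ V)

instance : Module B (GT ψ V) where
  one_smul v := funext fun i => by
    simp only [GT.smul_apply, map_one, Matrix.one_apply, ite_smul, one_smul, zero_smul]
    exact (Finset.sum_ite_eq _ _ _).trans (if_pos (Finset.mem_univ _))
  mul_smul a b v := funext fun i => by
    simp only [GT.smul_apply, map_mul, Matrix.mul_apply, Finset.sum_smul, Finset.smul_sum, mul_smul]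
    exact Finset.sum_comm
  smul_zero a := funext fun i => by simp [GT.smul_apply, GT.zero_apply]
  smul_add a v w := funext fun i => by
    simp [GT.smul_apply, GT.add_apply, Finset.sum_add_distrib]
  add_smul a b v := funext fun i => by
    simp [GT.smul_apply, GT.add_apply, Finset.sum_add_distrib, add_smul]
  zero_smul v := funext fun i => by simp [GT.smul_apply, GT.zero_apply]

instance [Module k V] [IsScalarTower k Γ V] : IsScalarTower k B (GT ψ V) :=
  IsScalarTower.of_algebraMap_smul fun c v => funext fun i => by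
    rw [GT.smul_apply, AlgHom.commutes]
    simp only [Matrix.algebraMap_matrix_apply, ite_smul, zero_smul, Finset.sum_ite_eq,
      Finset.mem_univ, if_true, algebraMap_smul]
    rfl

end inst

/-- The tensor functor on objects. -/
abbrev GF (V : FDM k Γ) : FDM k B := ⟨GT ψ V.car⟩

section maps

variable {V W U Z : Type} [AddCommGroup V] [Module Γ V] [AddCommGroup W] [Module Γ W]
  [AddCommGroup U] [Module Γ U] [AddCommGroup Z] [Module Γ Z]

/-- The tensor functor on maps. -/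
def Gmap (f : V →ₗ[Γ] W) : GT ψ V →ₗ[B] GT ψ W where
  toFun v i := f (v i)
  map_add' v w := funext fun i => map_add f _ _
  map_smul' b v := funext fun i => by
    simp only [GT.smul_apply, map_sum, map_smul]
    rfl

theorem Gmap_apply (f : V →ₗ[Γ] W) (v : GT ψ V) (i : Fin n) : Gmap ψ f v i = f (v i) := rfl

theorem Gmap_comp (f : V →ₗ[Γ] W) (g : W →ₗ[Γ] U) : Gmap ψ (g ∘ₗ f) = Gmap ψ g ∘ₗ Gmap ψ f := rfl

theorem IsPush.gmap {f : V →ₗ[Γ] W} {g : V →ₗ[Γ] U} {i : W →ₗ[Γ] Z} {i' : U →ₗ[Γ] Z}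
    (h : IsPush f g i i') : IsPush (Gmap ψ f) (Gmap ψ g) (Gmap ψ i) (Gmap ψ i') where
  comm x := funext fun j => h.comm (x j)
  surj z := by
    choose y y' hy using fun j => h.surj (z j)
    exact ⟨y, y', funext hy⟩
  ker y y' hy := by
    choose x hx hx' using fun j => h.ker (y j) (y' j) (congrFun hy j)
    exact ⟨x, funext hx, funext hx'⟩

end maps

/-- The functor reflects isomorphism classes of finite-dimensional modules. -/
def Refl : Prop := ∀ V V' : FDM k Γ, Nonempty (GT ψ V.car ≃ₗ[B] GT ψ V'.car) →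
  Nonempty (V.car ≃ₗ[Γ] V'.car)

variable {ψ}

theorem reflect_split (hR : Refl ψ) (Y Z : FDM k Γ) (g : Y.car →ₗ[Γ] Z.car)
    (γ : GT ψ Z.car →ₗ[B] GT ψ Y.car) (hγ : ∀ y, γ (Gmap ψ g y) = y) :
    ∃ ρ : Z.car →ₗ[Γ] Y.car, ∀ y, ρ (g y) = y := by
  have : FiniteDimensional k (Z.car ⧸ LinearMap.range g) :=
    Module.Finite.of_surjective ((LinearMap.range g).mkQ.restrictScalars k)
      (Submodule.mkQ_surjective (LinearMap.range g))
  let W : FDM k Γ := ⟨Z.car ⧸ LinearMap.range g⟩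
  let q : Z.car →ₗ[Γ] W.car := (LinearMap.range g).mkQ
  have hq : Function.Surjective q := Submodule.mkQ_surjective _
  have hker : ∀ z, q z = 0 → ∃ y, g y = z := fun z hz => (Submodule.Quotient.mk_eq_zero _).mp hz
  have hqg : ∀ y, q (g y) = 0 := fun y => (Submodule.Quotient.mk_eq_zero _).mpr ⟨y, rfl⟩
  let Φ : GT ψ Z.car →ₗ[B] GT ψ (Y.car × W.car) :=
    Gmap ψ (LinearMap.inl Γ _ _) ∘ₗ γ + Gmap ψ (LinearMap.inr Γ _ _ ∘ₗ q)
  have hΦ : ∀ z i, Φ z i = (γ z i, q (z i)) := fun z i => by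
    simp [Φ, GT.add_apply, Gmap_apply]
  suffices hb : Function.Bijective Φ by
    obtain ⟨e⟩ := hR Z ⟨Y.car × W.car⟩ ⟨LinearEquiv.ofBijective Φ hb⟩
    exact miyata Y Z W g q hq hker e
  constructor
  · rw [injective_iff_map_eq_zero]
    intro z hz
    have h1 : ∀ i, γ z i = 0 ∧ q (z i) = 0 := fun i => by
      have := congrFun hz i
      rw [hΦ] at this
      exact Prod.ext_iff.mp this
    choose y hy using fun i => hker _ (h1 i).2
    have h2 : z = Gmap ψ g y := (funext hy).symm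
    have h3 : γ z = 0 := funext fun i => (h1 i).1
    rw [h2, hγ] at h3
    rw [h2, h3, map_zero]
  · intro w
    choose z hz using fun i => hq (w i).2
    let y : GT ψ Y.car := fun i => (w i).1
    let z' : GT ψ Z.car := z
    refine ⟨z' + Gmap ψ g (y - γ z'), funext fun i => ?_⟩
    rw [hΦ, map_add, hγ, add_sub_cancel, GT.add_apply, Gmap_apply, map_add, hqg, add_zero]
    exact Prod.ext rfl (hz i)

variable [FiniteDimensional k Γ] {P : Type} [AddCommGroup P] [Module B P]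
  {M : Type} [AddCommGroup M] [Module Γ M]

variable (k Γ) in
/-- The free module of rank one. -/
abbrev freeOne : FDM k Γ := ⟨Γ⟩

variable (ψ) in
/-- A definable subspace of the test module and the corresponding submodule. -/
def Rel (W : Submodule Γ M) (a : Submodule (Module.End B P) (GT ψ Γ →ₗ[B] P)) : Prop :=
  ∃ (Y : FDM k Γ) (f : Γ →ₗ[Γ] Y.car), (∀ m, m ∈ W ↔ ∃ h : Y.car →ₗ[Γ] M, h (f 1) = m) ∧
    a = FSub P (Gmap ψ f)

theorem Rel.top : Rel ψ (⊤ : Submodule Γ M) (⊤ : Submodule (Module.End B P) (GT ψ Γ →ₗ[B] P)) :=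
  ⟨freeOne k Γ, LinearMap.id, fun m => ⟨fun _ => ⟨LinearMap.toSpanSingleton Γ M m, by simp⟩,
    fun _ => trivial⟩, FSub_id.symm⟩

theorem Rel.bot : Rel ψ (⊥ : Submodule Γ M) (⊥ : Submodule (Module.End B P) (GT ψ Γ →ₗ[B] P)) :=
  ⟨freeOne k Γ, 0, fun m => by simp [eq_comm], FSub_zero.symm⟩

theorem Rel.map {W : Submodule Γ M} {a : Submodule (Module.End B P) (GT ψ Γ →ₗ[B] P)}
    (h : Rel ψ W a) (x : Γ) : Rel ψ (W.map (LinearMap.lsmul Γ M x))
      (a.map (pre P (Gmap ψ (LinearMap.lsmul Γ Γ x)))) := by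
  obtain ⟨Y, f, hW, rfl⟩ := h
  refine ⟨Y, f ∘ₗ LinearMap.lsmul Γ Γ x, fun m => ⟨?_, ?_⟩, by rw [FSub_map, Gmap_comp]⟩
  · rintro ⟨w, hw, rfl⟩
    obtain ⟨h, rfl⟩ := (hW w).mp hw
    exact ⟨h, by simp only [LinearMap.comp_apply, LinearMap.lsmul_apply, map_smul]⟩
  · rintro ⟨h, rfl⟩
    exact ⟨h (f 1), (hW _).mpr ⟨h, rfl⟩, by
      simp only [LinearMap.comp_apply, LinearMap.lsmul_apply, map_smul]⟩

theorem Rel.comap {W : Submodule Γ M} {a : Submodule (Module.End B P) (GT ψ Γ →ₗ[B] P)}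
    (h : Rel ψ W a) (x : Γ) : Rel ψ (W.comap (LinearMap.lsmul Γ M x))
      (a.comap (pre P (Gmap ψ (LinearMap.lsmul Γ Γ x)))) := by
  obtain ⟨Y, f, hW, rfl⟩ := h
  obtain ⟨Z, i, i', hp⟩ := exists_push Y (freeOne k Γ) f (LinearMap.lsmul Γ Γ x)
  refine ⟨Z, i', fun m => ⟨fun hm => ?_, ?_⟩, FSub_comap (hp.gmap ψ)⟩
  · obtain ⟨h, hh⟩ := (hW _).mp hm
    obtain ⟨γ, -, h2⟩ := hp.desc h (LinearMap.toSpanSingleton Γ M m) (fun c => by
      rw [← mul_one c, ← smul_eq_mul, map_smul, map_smul, map_smul, map_smul, hh]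
      simp)
    exact ⟨γ, by simp [h2]⟩
  · rintro ⟨γ, rfl⟩
    refine (hW _).mpr ⟨γ ∘ₗ i, ?_⟩
    simp only [LinearMap.comp_apply, hp.comm, LinearMap.lsmul_apply, map_smul]

theorem Rel.chain {W : Submodule Γ M} {a : Submodule (Module.End B P) (GT ψ Γ →ₗ[B] P)}
    (h : Rel ψ W a) (x y : Γ) : ∀ s, Rel ψ
      (chain (LinearMap.lsmul Γ M x) (LinearMap.lsmul Γ M y) s W)
      (chain (pre P (Gmap ψ (LinearMap.lsmul Γ Γ x))) (pre P (Gmap ψ (LinearMap.lsmul Γ Γ y))) s a)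
  | [] => h
  | true :: s => ((Rel.chain h x y s).comap y).map x
  | false :: s => ((Rel.chain h x y s).map x).comap y

theorem Rel.inf {W W' : Submodule Γ M} {a a' : Submodule (Module.End B P) (GT ψ Γ →ₗ[B] P)}
    (h : Rel ψ W a) (h' : Rel ψ W' a') : Rel ψ (W ⊓ W') (a ⊓ a') := by
  obtain ⟨Y, f, hW, rfl⟩ := h
  obtain ⟨Y', f', hW', rfl⟩ := h'
  obtain ⟨Z, i, i', hp⟩ := exists_push Y Y' f f'
  refine ⟨Z, i ∘ₗ f, fun m => ⟨fun hm => ?_, ?_⟩, FSub_inf (hp.gmap ψ)⟩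
  · obtain ⟨α, hα⟩ := (hW _).mp hm.1
    obtain ⟨β, hβ⟩ := (hW' _).mp hm.2
    obtain ⟨γ, h1, -⟩ := hp.desc α β (fun c => by
      rw [← mul_one c, ← smul_eq_mul, map_smul, map_smul, map_smul, map_smul, hα, hβ])
    exact ⟨γ, by simp [h1, hα]⟩
  · rintro ⟨γ, rfl⟩
    exact ⟨(hW _).mpr ⟨γ ∘ₗ i, rfl⟩, (hW' _).mpr ⟨γ ∘ₗ i', by simp [hp.comm]⟩⟩

theorem Rel.sup {W W' : Submodule Γ M} {a a' : Submodule (Module.End B P) (GT ψ Γ →ₗ[B] P)}
    (h : Rel ψ W a) (h' : Rel ψ W' a') : Rel ψ (W ⊔ W') (a ⊔ a') := by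
  obtain ⟨Y, f, hW, rfl⟩ := h
  obtain ⟨Y', f', hW', rfl⟩ := h'
  refine ⟨⟨Y.car × Y'.car⟩, f.prod f', fun m => ⟨fun hm => ?_, ?_⟩, ?_⟩
  · obtain ⟨v, hv, w, hw, rfl⟩ := Submodule.mem_sup.mp hm
    obtain ⟨α, rfl⟩ := (hW _).mp hv
    obtain ⟨β, rfl⟩ := (hW' _).mp hw
    exact ⟨α.coprod β, rfl⟩
  · rintro ⟨γ, rfl⟩
    refine Submodule.mem_sup.mpr ⟨_, (hW _).mpr ⟨γ ∘ₗ LinearMap.inl _ _ _, rfl⟩, _,
      (hW' _).mpr ⟨γ ∘ₗ LinearMap.inr _ _ _, rfl⟩, ?_⟩
    simp only [LinearMap.comp_apply, ← map_add]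
    simp
  · exact FSub_sup (Gmap ψ (f.prod f')) (Gmap ψ (LinearMap.fst _ _ _)) (Gmap ψ (LinearMap.snd _ _ _))
      (Gmap ψ (LinearMap.inl _ _ _)) (Gmap ψ (LinearMap.inr _ _ _))
      (fun z => funext fun i => by simp [GT.add_apply, Gmap_apply])

theorem Rel.reflect (hR : Refl ψ) (hP : IsBig k B P) {W W' : Submodule Γ M}
    {a a' : Submodule (Module.End B P) (GT ψ Γ →ₗ[B] P)}
    (h : Rel ψ W a) (h' : Rel ψ W' a') (hle : a' ≤ a) : W' ≤ W := by
  obtain ⟨Y, f, hW, rfl⟩ := h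
  obtain ⟨Y', f', hW', rfl⟩ := h'
  obtain ⟨ι, π, hιπ⟩ := hP.retract (GF ψ Y')
  obtain ⟨α, hα⟩ := hle ⟨ι, rfl⟩
  obtain ⟨Z, i, i', hp⟩ := exists_push Y Y' f f'
  obtain ⟨γ, -, h2⟩ := (hp.gmap ψ).desc (π ∘ₗ α) LinearMap.id (fun v => by
    have := LinearMap.congr_fun hα v
    simp only [LinearMap.comp_apply] at this ⊢
    rw [← this]
    exact hιπ _)
  obtain ⟨ρ, hρ⟩ := reflect_split hR Y' Z i' γ h2
  intro m hm
  obtain ⟨β, rfl⟩ := (hW' _).mp hm
  exact (hW _).mpr ⟨β ∘ₗ ρ ∘ₗ i, by simp [hp.comm, hρ]⟩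

theorem Rel.cyc (hP : IsBig k B P) {W : Submodule Γ M}
    {a : Submodule (Module.End B P) (GT ψ Γ →ₗ[B] P)} (h : Rel ψ W a) :
    a ∈ hP.cyc (GF ψ (freeOne k Γ)) := by
  obtain ⟨Y, f, -, rfl⟩ := h
  exact (hP.cyc_iff (GF ψ (freeOne k Γ)) _).mpr ⟨GF ψ Y, Gmap ψ f, rfl⟩

theorem exists_wide {ψ : B →ₐ[k] Matrix (Fin n) (Fin n) (Gam k)} (hR : Refl ψ)
    (hP : IsBig k B P) : ∃ x y : hP.cyc (GF ψ (freeOne k (Gam k))), Wide x y := by
  have hxy : ∀ a b : Gam k, a * b = 0 → ∀ w : GT ψ (Gam k) →ₗ[B] P,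
      pre P (Gmap ψ (LinearMap.lsmul (Gam k) (Gam k) b))
        (pre P (Gmap ψ (LinearMap.lsmul (Gam k) (Gam k) a)) w) = 0 := by
    intro a b hab w
    ext v
    have : Gmap ψ (LinearMap.lsmul (Gam k) (Gam k) a)
        (Gmap ψ (LinearMap.lsmul (Gam k) (Gam k) b) v) = 0 := funext fun i => by
      simp [Gmap_apply, GT.zero_apply, ← mul_assoc, hab]
    exact (congrArg w this).trans (map_zero w)
  refine ⟨_, _, wide_of_rect
    (fun s => ⟨_, ((Rel.bot (M := Mu k)).chain Gam.x Gam.y s).cyc hP⟩)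
    (fun s => ⟨_, ((Rel.top (M := Mu k)).chain Gam.x Gam.y s).cyc hP⟩)
    (fun s => ⟨_, ((Rel.bot (M := Mu k)).chain Gam.y Gam.x s).cyc hP⟩)
    (fun s => ⟨_, ((Rel.top (M := Mu k)).chain Gam.y Gam.x s).cyc hP⟩)
    (fun s => chain_0 _ _ s) (fun s => chain_1 _ _ (hxy _ _ Gam.x_mul_y) s)
    (fun s => chain_2 _ _ s) (fun s => chain_mono _ _ bot_le s)
    (fun s => chain_0 _ _ s)
    (fun s => chain_1 _ _ (hxy _ _ ((mul_comm _ _).trans Gam.x_mul_y)) s)
    (fun s => chain_2 _ _ s) (fun s => chain_mono _ _ bot_le s) (fun s t h => ?_)⟩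
  exact witness k s t (Rel.reflect hR hP
    ((Rel.bot.chain Gam.x Gam.y s).sup (Rel.bot.chain Gam.y Gam.x t))
    ((Rel.top.chain Gam.x Gam.y s).inf (Rel.top.chain Gam.y Gam.x t)) h)

end Pool.Agent.P.MP_d2f293_al
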