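import Pool.Agent.P.MP_d2f293_al.Assemble
import Pool.Agent.P.MP_d2f293_al.PPDefs

/-!
Undefined width gives a superdecomposable pure-injective module, over every field.
-/

set_option autoImplicit false

namespace Pool.Agent.P.MP_d2f293_al

open MulOpposite

theorem und_split {L : Type} (le : L → L → Prop) {a b : L} (h : ∀ α, ¬ WidthLE le α a b) :
    ¬ le a b ∧ ∃ c d s, le b c ∧ le c a ∧ le b d ∧ le d a ∧ (∀ e, le c e → le d e → le s e) ∧
      (∀ α, ¬ WidthLE le α s c) ∧ ∀ α, ¬ WidthLE le α s d := by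
  refine ⟨fun h1 => h 0 (by rw [WidthLE]; exact Or.inl h1), ?_⟩
  by_contra hn
  have : ∀ p : L × L × L, ∃ β : Ordinal.{0}, le b p.1 → le p.1 a → le b p.2.1 → le p.2.1 a →
      (∀ e, le p.1 e → le p.2.1 e → le p.2.2 e) →
      WidthLE le β p.2.2 p.1 ∨ WidthLE le β p.2.2 p.2.1 := by
    rintro ⟨c, d, s⟩
    by_cases h1 : ∃ β, WidthLE le β s c
    · exact h1.imp fun β hβ _ _ _ _ _ => Or.inl hβ
    by_cases h2 : ∃ β, WidthLE le β s d
    · exact h2.imp fun β hβ _ _ _ _ _ => Or.inr hβ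
    exact ⟨0, fun a1 a2 a3 a4 a5 =>
      (hn ⟨c, d, s, a1, a2, a3, a4, a5, not_exists.1 h1, not_exists.1 h2⟩).elim⟩
  choose β hβ using this
  refine h (Order.succ (⨆ p, β p)) ?_
  rw [WidthLE]
  exact Or.inr fun c d s a1 a2 a3 a4 a5 =>
    ⟨⟨β (c, d, s), Order.lt_succ_of_le (Ordinal.le_iSup β _)⟩, hβ (c, d, s) a1 a2 a3 a4 a5.2.2⟩

theorem wide_of_dual {L K : Type} [Lattice K] [IsModularLattice K] (le : L → L → Prop) (D : L → K)
    (hD : ∀ φ ψ, le φ ψ ↔ D ψ ≤ D φ) (hs : Function.Surjective D) {a b : L}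
    (h : ∀ α, ¬ WidthLE le α a b) : Wide (D b) (D a) := by
  refine Wide.coind (fun x y => ∃ φ ψ, (∀ α, ¬ WidthLE le α φ ψ) ∧ D ψ ≤ x ⊔ y ∧ D ψ ⊓ y ≤ D φ) ?_
    ⟨a, b, h, le_sup_left, inf_le_right⟩
  rintro x y ⟨φ, ψ, h1, h2, h3⟩
  obtain ⟨n, c, d, s, a1, a2, a3, a4, a5, a6, a7⟩ := und_split le h1
  rw [hD] at n a1 a2 a3 a4
  have key : ∀ c d, D c ≤ D ψ → D d ≤ D ψ → D φ ≤ D d → D c ⊓ (D d ⊔ y) ≤ D c ⊓ D d := by
    intro c d b1 b2 b3
    refine le_inf inf_le_left ((inf_le_inf_right _ b1).trans ?_)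
    rw [inf_comm, sup_inf_assoc_of_le _ b2]
    exact sup_le le_rfl ((inf_comm y _).le.trans (h3.trans b3))
  have hs' : D c ⊓ D d ≤ D s := by
    obtain ⟨e, he⟩ := hs (D c ⊓ D d)
    rw [← he, ← hD]
    exact a5 e ((hD _ _).2 (he.le.trans inf_le_left)) ((hD _ _).2 (he.le.trans inf_le_right))
  exact ⟨fun hle => n ((le_inf le_rfl (h2.trans (sup_le hle le_rfl))).trans h3),
    D c ⊔ y, D d ⊔ y, le_sup_right, le_sup_right, sup_le (a1.trans h2) le_sup_right,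
    sup_le (a3.trans h2) le_sup_right,
    ⟨s, c, a6, le_sup_left.trans le_sup_left, (key c d a1 a3 a4).trans hs'⟩,
    ⟨s, d, a7, le_sup_left.trans le_sup_left, (key d c a3 a1 a2).trans ((inf_comm _ _).le.trans hs')⟩⟩

section
variable {B P Y : Type} [Ring B] [AddCommGroup P] [Module B P] [AddCommGroup Y] [Module B Y]
  {n l m : ℕ}

theorem mem_FSub_pres (a : Fin n → Fin l → B) (c : Fin m → Fin l → B) (π : (Fin l → B) →ₗ[B] Y)
    (hπ : Function.Surjective π) (hk : LinearMap.ker π = Submodule.span B (Set.range c))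
    (f : (Fin n → B) →ₗ[B] Y) (hf : ∀ i, f (Pi.single i 1) = π (a i)) (u : (Fin n → B) →ₗ[B] P) :
    u ∈ FSub P f ↔ ∃ z : Fin l → P, (∀ i, u (Pi.single i 1) = ∑ j, a i j • z j) ∧
      ∀ t, ∑ j, c t j • z j = 0 := by
  constructor
  · rintro ⟨h, rfl⟩
    have e : ∀ v : Fin l → B, ∑ j, v j • h (π (Pi.single j 1)) = h (π v) := fun v => by
      simp only [← map_smul, ← map_sum]
      congr 2
      ext j
      simp [Finset.sum_apply, Pi.single_apply]
    refine ⟨fun j => h (π (Pi.single j 1)), fun i => by rw [e, LinearMap.comp_apply, hf], fun t => ?_⟩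
    rw [e, LinearMap.mem_ker.1 (hk ▸ Submodule.subset_span ⟨t, rfl⟩ : c t ∈ LinearMap.ker π), map_zero]
  · rintro ⟨z, h1, h2⟩
    obtain ⟨h, hh⟩ := factor_of_surj π hπ (Fintype.linearCombination B z) (fun v hv => by
      have : LinearMap.ker π ≤ LinearMap.ker (Fintype.linearCombination B z) := by
        rw [hk, Submodule.span_le]
        rintro _ ⟨t, rfl⟩
        exact h2 t
      exact this hv)
    refine ⟨h, LinearMap.pi_ext' fun i => LinearMap.ext_ring ?_⟩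
    simp only [LinearMap.comp_apply, LinearMap.coe_single]
    rw [hf, hh, h1]
    rfl

theorem span_rows {v : Fin l → B} {c : Fin m → Fin l → B}
    (h : v ∈ Submodule.span B (Set.range c)) : ∃ g : Fin m → B, ∀ j, v j = ∑ t, g t * c t j := by
  obtain ⟨g, rfl⟩ := (Submodule.mem_span_range_iff_exists_fun B).1 h
  exact ⟨g, fun j => by simp [Finset.sum_apply]⟩

end

variable {A : Type} [Ring A] {n : ℕ}

/-- the matrix form of implication -/
def PP.Rel (φ ψ : PP A n) : Prop :=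
  ∃ (G : Matrix (Fin ψ.l) (Fin φ.l) A) (K : Matrix (Fin ψ.m) (Fin n) A)
    (L : Matrix (Fin ψ.m) (Fin φ.m) A), ψ.a + ψ.c * K = G * φ.a ∧ ψ.c * L = G * φ.c

theorem sum_mul_smul {M : Type} [AddCommGroup M] [Module A M] {p q r : ℕ}
    (X : Matrix (Fin p) (Fin q) A) (Y : Matrix (Fin q) (Fin r) A) (x : Fin r → M) (j : Fin p) :
    ∑ i, (X * Y) j i • x i = ∑ t, X j t • ∑ i, Y t i • x i := by
  simp only [Matrix.mul_apply, Finset.sum_smul, Finset.smul_sum, mul_smul]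
  exact Finset.sum_comm

theorem PP.Rel.imp {φ ψ : PP A n} (h : φ.Rel ψ) : φ.Imp ψ := by
  obtain ⟨G, K, L, h1, h2⟩ := h
  rintro M _ _ x ⟨y, hy⟩
  refine ⟨fun t => ∑ i, K t i • x i + ∑ s, L t s • y s, fun j => ?_⟩
  simp only [smul_add, Finset.sum_add_distrib, ← sum_mul_smul]
  rw [← add_assoc, ← Finset.sum_add_distrib]
  simp only [← add_smul, ← Matrix.add_apply, h1, h2, sum_mul_smul]
  rw [← Finset.sum_add_distrib]
  simp only [← smul_add, hy, smul_zero, Finset.sum_const_zero]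

theorem PP.Imp.rel {φ ψ : PP A n} (h : φ.Imp ψ) : φ.Rel ψ := by
  let N : Submodule A ((Fin n → A) × (Fin φ.m → A)) :=
    Submodule.span A (Set.range fun j => (φ.a j, φ.c j))
  have e1 : ∀ {p : ℕ} (v : Fin p → A), ∑ i, v i • (Pi.single i 1 : Fin p → A) = v := fun v => by
    ext j
    simp [Finset.sum_apply, Pi.single_apply]
  have e2 : ∀ v : Fin n → A, ∑ i, v i • N.mkQ (Pi.single i 1, 0) = N.mkQ (v, 0) := fun v => by
    simp only [← map_smul, ← map_sum]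
    congr 1
    ext <;> simp [Prod.fst_sum, Prod.snd_sum, Finset.sum_apply, Pi.single_apply]
  obtain ⟨y, hy⟩ := h (_ ⧸ N) (fun i => N.mkQ (Pi.single i 1, 0))
    ⟨fun t => N.mkQ (0, Pi.single t 1), fun j => by
      rw [e2]
      simp only [← map_smul, ← map_sum, ← map_add]
      refine (Submodule.Quotient.mk_eq_zero N).2 (Submodule.subset_span ⟨j, ?_⟩)
      ext <;> simp [Prod.fst_sum, Prod.snd_sum, Finset.sum_apply, Pi.single_apply]⟩
  choose w hw using fun t => N.mkQ_surjective (y t)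
  have : ∀ j, ∃ g : Fin φ.l → A, ∑ s, g s • (φ.a s, φ.c s) = (ψ.a j, 0) + ∑ t, ψ.c j t • w t := by
    intro j
    refine (Submodule.mem_span_range_iff_exists_fun A).1 ((Submodule.Quotient.mk_eq_zero N).1 ?_)
    have := hy j
    rw [e2] at this
    simp only [← hw, ← map_smul, ← map_sum, ← map_add] at this
    exact this
  choose G hG using this
  refine ⟨G, fun t => (w t).1, fun t => (w t).2, ?_, ?_⟩
  · ext j i
    have := congrFun (congrArg Prod.fst (hG j)) i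
    simpa [Prod.fst_sum, Finset.sum_apply, Matrix.mul_apply] using this.symm
  · ext j i
    have := congrFun (congrArg Prod.snd (hG j)) i
    simpa [Prod.snd_sum, Finset.sum_apply, Matrix.mul_apply] using this.symm

variable {k : Type} [Field k] [Algebra k A] [FiniteDimensional k A]

/-- relations of the dual condition -/
def PP.N (φ : PP A n) : Submodule Aᵐᵒᵖ (Fin φ.l → Aᵐᵒᵖ) :=
  Submodule.span Aᵐᵒᵖ (Set.range fun t j => op (φ.c j t))

/-- the pointed right module of the dual condition -/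
noncomputable def PP.f (φ : PP A n) : (Fin n → Aᵐᵒᵖ) →ₗ[Aᵐᵒᵖ] ((Fin φ.l → Aᵐᵒᵖ) ⧸ φ.N) :=
  φ.N.mkQ ∘ₗ Fintype.linearCombination Aᵐᵒᵖ fun i j => op (φ.a j i)

theorem PP.mem_f {P : Type} [AddCommGroup P] [Module Aᵐᵒᵖ P] (φ : PP A n)
    (u : (Fin n → Aᵐᵒᵖ) →ₗ[Aᵐᵒᵖ] P) : u ∈ FSub P φ.f ↔ ∃ z : Fin φ.l → P,
      (∀ i, u (Pi.single i 1) = ∑ j, op (φ.a j i) • z j) ∧ ∀ t, ∑ j, op (φ.c j t) • z j = 0 :=
  mem_FSub_pres (fun i j => op (φ.a j i)) (fun t j => op (φ.c j t)) φ.N.mkQ φ.N.mkQ_surjective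
    φ.N.ker_mkQ φ.f (fun i => by simp [PP.f]) u

theorem sum_op_smul {M : Type} [AddCommGroup M] [Module Aᵐᵒᵖ M] {p q r : ℕ}
    (X : Matrix (Fin p) (Fin q) A) (Y : Matrix (Fin q) (Fin r) A) (z : Fin p → M) (i : Fin r) :
    ∑ j, op ((X * Y) j i) • z j = ∑ t, op (Y t i) • ∑ j, op (X j t) • z j := by
  simp only [Matrix.mul_apply, Finset.op_sum, Finset.sum_smul, Finset.smul_sum, op_mul, mul_smul]
  exact Finset.sum_comm

theorem PP.Rel.fsub {P : Type} [AddCommGroup P] [Module Aᵐᵒᵖ P] {φ ψ : PP A n} (h : φ.Rel ψ) :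
    FSub P ψ.f ≤ FSub P φ.f := by
  obtain ⟨G, K, L, h1, h2⟩ := h
  intro u hu
  obtain ⟨z, a1, a2⟩ := (ψ.mem_f u).1 hu
  refine (φ.mem_f u).2 ⟨fun s => ∑ j, op (G j s) • z j, fun i => ?_, fun t => ?_⟩
  · rw [← sum_op_smul, ← h1, a1]
    simp only [Matrix.add_apply, op_add, add_smul, Finset.sum_add_distrib, sum_op_smul, a2,
      smul_zero, Finset.sum_const_zero, add_zero]
  · rw [← sum_op_smul, ← h2]
    simp only [sum_op_smul, a2, smul_zero, Finset.sum_const_zero]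

variable (k) in
/-- the dual pointed module, bundled -/
noncomputable def PP.Y (φ : PP A n) : FDM k Aᵐᵒᵖ :=
  have : FiniteDimensional k ((Fin φ.l → Aᵐᵒᵖ) ⧸ φ.N) :=
    Module.Finite.of_surjective (φ.N.mkQ.restrictScalars k) φ.N.mkQ_surjective
  ⟨(Fin φ.l → Aᵐᵒᵖ) ⧸ φ.N⟩

theorem rel_of_fsub {P : Type} [AddCommGroup P] [Module Aᵐᵒᵖ P] (hP : IsBig k Aᵐᵒᵖ P)
    {φ ψ : PP A n} (h : FSub P ψ.f ≤ FSub P φ.f) : φ.Rel ψ := by
  obtain ⟨ι, π, hι⟩ : ∃ (ι : ((Fin ψ.l → Aᵐᵒᵖ) ⧸ ψ.N) →ₗ[Aᵐᵒᵖ] P)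
      (π : P →ₗ[Aᵐᵒᵖ] ((Fin ψ.l → Aᵐᵒᵖ) ⧸ ψ.N)), ∀ y, π (ι y) = y := hP.retract (ψ.Y k)
  obtain ⟨z, a1, a2⟩ := (φ.mem_f _).1 (h ⟨ι, rfl⟩)
  choose w hw using fun s => ψ.N.mkQ_surjective (π (z s))
  have b1 : ∀ i, ∃ g : Fin ψ.m → Aᵐᵒᵖ, ∀ j,
      (∑ s, op (φ.a s i) • w s - fun j => op (ψ.a j i)) j = ∑ t, g t * op (ψ.c j t) := fun i => by
    refine span_rows (c := fun t j => op (ψ.c j t)) ((Submodule.Quotient.mk_eq_zero ψ.N).1 ?_)
    have := congrArg π (a1 i)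
    rw [LinearMap.comp_apply, hι, map_sum] at this
    simp only [map_smul, ← hw] at this
    show ψ.N.mkQ _ = 0
    rw [map_sub, map_sum]
    simp only [map_smul]
    refine sub_eq_zero.2 (Eq.trans this.symm ?_)
    simp [PP.f]
  have b2 : ∀ i, ∃ g : Fin ψ.m → Aᵐᵒᵖ, ∀ j,
      (∑ s, op (φ.c s i) • w s) j = ∑ t, g t * op (ψ.c j t) := fun i => by
    refine span_rows (c := fun t j => op (ψ.c j t)) ((Submodule.Quotient.mk_eq_zero ψ.N).1 ?_)
    have := congrArg π (a2 i)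
    rw [map_sum, map_zero] at this
    simp only [map_smul, ← hw] at this
    show ψ.N.mkQ _ = 0
    rw [map_sum]
    simp only [map_smul]
    exact this
  choose K hK using b1
  choose L hL using b2
  refine ⟨fun j s => unop (w s j), fun t i => unop (K i t), fun t i => unop (L i t), ?_, ?_⟩
  · ext j i
    have := congrArg unop (hK i j)
    simp only [Pi.sub_apply, Finset.sum_apply, Pi.smul_apply, smul_eq_mul, unop_sub, Finset.unop_sum,
      unop_mul, unop_op] at this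
    simp only [Matrix.add_apply, Matrix.mul_apply, ← this, add_sub_cancel]
  · ext j i
    have := congrArg unop (hL i j)
    simp only [Finset.sum_apply, Pi.smul_apply, smul_eq_mul, Finset.unop_sum,
      unop_mul, unop_op] at this
    simp only [Matrix.mul_apply, ← this]

theorem exists_pp {P : Type} [AddCommGroup P] [Module Aᵐᵒᵖ P] (Y : FDM k Aᵐᵒᵖ)
    (f : (Fin n → Aᵐᵒᵖ) →ₗ[Aᵐᵒᵖ] Y.car) : ∃ φ : PP A n, FSub P φ.f = FSub P f := by
  have : IsNoetherianRing Aᵐᵒᵖ := isNoetherian_of_tower k inferInstance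
  have : Module.Finite Aᵐᵒᵖ Y.car := Module.Finite.of_restrictScalars_finite k _ _
  obtain ⟨l, π, hπ⟩ := Module.Finite.exists_fin' Aᵐᵒᵖ Y.car
  obtain ⟨m, c, hc⟩ := Submodule.fg_iff_exists_fin_generating_family.1
    (IsNoetherian.noetherian (LinearMap.ker π))
  choose a ha using fun i => hπ (f (Pi.single i 1))
  refine ⟨⟨l, m, fun j i => unop (a i j), fun j t => unop (c t j)⟩, ?_⟩
  ext u
  rw [PP.mem_f, mem_FSub_pres a c π hπ hc.symm f fun i => (ha i).symm]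
  rfl

theorem ziegler (k : Type) [Field k] (A : Type) [Ring A] [Algebra k A] [FiniteDimensional k A]
    (n : ℕ) (φ ψ : PP A n) (h : ∀ α, ¬ WidthLE PP.Imp α φ ψ) :
      ∃ (M : Type) (_ : AddCommGroup M) (_ : Module A M),
        (∀ (N P : Type) [AddCommGroup N] [Module A N] [AddCommGroup P] [Module A P]
            (f : N →ₗ[A] P),
            (Function.Injective f ∧
              ∀ (p q : ℕ) (r : Matrix (Fin p) (Fin q) A) (b : Fin p → N),
                (∃ y : Fin q → P, ∀ i, ∑ j, r i j • y j = f (b i)) →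
                ∃ x : Fin q → N, ∀ i, ∑ j, r i j • x j = b i) →
            ∀ g : N →ₗ[A] M, ∃ h : P →ₗ[A] M, h ∘ₗ f = g) ∧
        Nontrivial M ∧
        ∀ U : Submodule A M, (∃ V : Submodule A M, IsCompl U V) → U ≠ ⊥ →
          ∃ U₁ U₂ : Submodule A M, U₁ ≠ ⊥ ∧ U₂ ≠ ⊥ ∧ U₁ ⊓ U₂ = ⊥ ∧ U₁ ⊔ U₂ = U := by
  obtain ⟨P, _, _, _, _, hP⟩ := exists_big (k := k) (B := Aᵐᵒᵖ)
  let X0 : FDM k Aᵐᵒᵖ := ⟨Fin n → Aᵐᵒᵖ⟩
  let D : PP A n → hP.cyc X0 := fun χ => ⟨FSub P χ.f, (hP.cyc_iff X0 _).2 ⟨χ.Y k, χ.f, rfl⟩⟩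
  refine super_of_wide k A P hP X0 (wide_of_dual PP.Imp D
    (fun _ _ => ⟨fun h => h.rel.fsub, fun h => (rel_of_fsub hP h).imp⟩) ?_ h)
  rintro ⟨a, ha⟩
  obtain ⟨Y, f, rfl⟩ := (hP.cyc_iff X0 a).1 ha
  obtain ⟨χ, hχ⟩ := exists_pp (P := P) Y f
  exact ⟨χ, Subtype.ext hχ⟩

end Pool.Agent.P.MP_d2f293_al
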